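import Mathlib

/-! Binary digits on `[0,1]` and averages of functions of finitely many digits. -/

set_option autoImplicit false

open MeasureTheory Finset

namespace Pool.Agent.H66R3.PG

/-- Lebesgue measure on `[0,1]`. -/
noncomputable def mu : Measure ℝ := volume.restrict (Set.Icc 0 1)

instance : IsProbabilityMeasure mu := ⟨by simp [mu]⟩

/-- The binary digits of `x`. -/
noncomputable def dig (x : ℝ) : ℕ → Bool := fun i => decide (⌊2 ^ (i + 1) * x⌋ % 2 = 1)

lemma measurable_dig (i : ℕ) : Measurable fun x => dig x i := by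
  have h1 : Measurable fun x : ℝ => ⌊2 ^ (i + 1) * x⌋ :=
    Int.measurable_floor.comp (measurable_const.mul measurable_id)
  exact (measurable_of_countable (fun z : ℤ => decide (z % 2 = 1))).comp h1

/-- `F` depends on the first `n` digits only. -/
def Dep (n : ℕ) (F : (ℕ → Bool) → ℝ) : Prop :=
  ∀ x y : ℕ → Bool, (∀ i < n, x i = y i) → F x = F y

lemma Dep.mono {n m : ℕ} {F : (ℕ → Bool) → ℝ} (h : Dep n F) (hnm : n ≤ m) : Dep m F :=
  fun x y hxy => h x y fun i hi => hxy i (lt_of_lt_of_le hi hnm)

/-- Left endpoint of a cell. -/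
noncomputable def base (w : ℕ → Bool) : ℕ → ℝ
  | 0 => 0
  | n + 1 => base w n + if w n then ((1 : ℝ) / 2) ^ (n + 1) else 0

lemma base_int (w : ℕ → Bool) (n : ℕ) : ∃ N : ℤ, 2 ^ n * base w n = N := by
  induction n with
  | zero => exact ⟨0, by simp [base]⟩
  | succ n ih =>
    obtain ⟨N, hN⟩ := ih
    rw [base, mul_add, pow_succ]
    split_ifs
    · refine ⟨2 * N + 1, ?_⟩
      push_cast
      rw [← hN]
      have : (2 : ℝ) ^ n * 2 * (1 / 2) ^ (n + 1) = 1 := by
        rw [← pow_succ, ← mul_pow]; norm_num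
      linear_combination this
    · refine ⟨2 * N, ?_⟩
      push_cast
      rw [← hN]; ring

lemma cell_iff (w : ℕ → Bool) (n : ℕ) (x : ℝ) (hx : x ∈ Set.Ico (0 : ℝ) 1) :
    (∀ i < n, dig x i = w i) ↔ x ∈ Set.Ico (base w n) (base w n + (1 / 2) ^ n) := by
  induction n with
  | zero => simpa [base] using hx
  | succ n ih =>
    have h1 : (∀ i < n + 1, dig x i = w i) ↔ (∀ i < n, dig x i = w i) ∧ dig x n = w n := by
      constructor
      · intro h
        exact ⟨fun i hi => h i (by omega), h n (by omega)⟩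
      · rintro ⟨h2, h3⟩ i hi
        rcases Nat.lt_succ_iff_lt_or_eq.mp hi with h4 | h4
        · exact h2 i h4
        · rw [h4]; exact h3
    rw [h1, ih]
    obtain ⟨N, hN⟩ := base_int w n
    have hp : (0 : ℝ) < 2 ^ n := by positivity
    have hp2 : (2 : ℝ) ^ n * (1 / 2) ^ n = 1 := by rw [← mul_pow]; norm_num
    have hhalf : ((1 : ℝ) / 2) ^ (n + 1) = (1 / 2) ^ n / 2 := by rw [pow_succ]; ring
    have hpn : (0 : ℝ) < (1 / 2) ^ n := by positivity
    constructor
    · rintro ⟨⟨h2, h3⟩, h4⟩
      have e1 : (2 * N : ℝ) ≤ 2 ^ (n + 1) * x := by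
        rw [pow_succ, ← hN]; nlinarith
      have e2 : 2 ^ (n + 1) * x < 2 * N + 2 := by
        rw [pow_succ, ← hN]
        have := mul_lt_mul_of_pos_left h3 hp
        rw [mul_add, hp2] at this
        linarith
      unfold dig at h4
      rw [base, hhalf]
      cases hw : w n with
      | true =>
        rw [hw] at h4
        simp only [decide_eq_true_eq] at h4
        have e3 : (2 * N + 1 : ℤ) ≤ ⌊2 ^ (n + 1) * x⌋ := by
          have e4 : (2 * N : ℤ) ≤ ⌊2 ^ (n + 1) * x⌋ := Int.le_floor.mpr (by push_cast; exact e1)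
          omega
        have e5 : (2 * N + 1 : ℝ) ≤ 2 ^ (n + 1) * x := by
          have := Int.le_floor.mp e3
          push_cast at this
          exact this
        simp only [if_true, Set.mem_Ico]
        constructor
        · rw [pow_succ, ← hN] at e5
          have : 2 ^ n * (base w n + (1 / 2) ^ n / 2) ≤ 2 ^ n * x := by
            rw [mul_add]; nlinarith
          exact le_of_mul_le_mul_left this hp
        · linarith
      | false =>
        rw [hw] at h4
        simp only [decide_eq_false_iff_not] at h4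
        have e3 : ⌊2 ^ (n + 1) * x⌋ < (2 * N + 1 : ℤ) := by
          have e4 : ⌊2 ^ (n + 1) * x⌋ < (2 * N + 2 : ℤ) := Int.floor_lt.mpr (by push_cast; exact e2)
          have e5 : (2 * N : ℤ) ≤ ⌊2 ^ (n + 1) * x⌋ := Int.le_floor.mpr (by push_cast; exact e1)
          omega
        have e5 : 2 ^ (n + 1) * x < (2 * N + 1 : ℝ) := by
          have := Int.floor_lt.mp e3
          push_cast at this
          exact this
        simp only [Bool.false_eq_true, if_false, add_zero, Set.mem_Ico]
        refine ⟨h2, ?_⟩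
        rw [pow_succ, ← hN] at e5
        have : 2 ^ n * x < 2 ^ n * (base w n + (1 / 2) ^ n / 2) := by
          rw [mul_add]; nlinarith
        exact lt_of_mul_lt_mul_left this hp.le
    · rw [base, hhalf]
      rintro ⟨h2, h3⟩
      cases hw : w n with
      | true =>
        rw [hw] at h2 h3
        simp only [if_true] at h2 h3
        refine ⟨⟨by linarith, by linarith⟩, ?_⟩
        unfold dig
        have e1 : (2 * N + 1 : ℝ) ≤ 2 ^ (n + 1) * x := by
          rw [pow_succ, ← hN]
          have := mul_le_mul_of_nonneg_left h2 hp.le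
          rw [mul_add] at this
          nlinarith
        have e2 : 2 ^ (n + 1) * x < (2 * N + 2 : ℝ) := by
          rw [pow_succ, ← hN]
          have := mul_lt_mul_of_pos_left h3 hp
          nlinarith
        have e3 : ⌊2 ^ (n + 1) * x⌋ = 2 * N + 1 := by
          rw [Int.floor_eq_iff]
          push_cast
          exact ⟨e1, by linarith⟩
        rw [e3]
        simp only [decide_eq_true_eq]
        omega
      | false =>
        rw [hw] at h2 h3
        simp only [Bool.false_eq_true, if_false, add_zero] at h2 h3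
        refine ⟨⟨by linarith, by linarith⟩, ?_⟩
        unfold dig
        have e1 : (2 * N : ℝ) ≤ 2 ^ (n + 1) * x := by
          rw [pow_succ, ← hN]
          have := mul_le_mul_of_nonneg_left h2 hp.le
          nlinarith
        have e2 : 2 ^ (n + 1) * x < (2 * N + 1 : ℝ) := by
          rw [pow_succ, ← hN]
          have := mul_lt_mul_of_pos_left h3 hp
          nlinarith
        have e3 : ⌊2 ^ (n + 1) * x⌋ = 2 * N := by
          rw [Int.floor_eq_iff]
          push_cast
          exact ⟨e1, by linarith⟩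
        rw [e3]
        simp only [decide_eq_false_iff_not]
        omega

lemma base_nonneg (w : ℕ → Bool) (n : ℕ) : 0 ≤ base w n := by
  induction n with
  | zero => simp [base]
  | succ n ih =>
    rw [base]
    split_ifs
    · positivity
    · linarith

lemma base_le (w : ℕ → Bool) (n : ℕ) : base w n + (1 / 2) ^ n ≤ 1 := by
  induction n with
  | zero => simp [base]
  | succ n ih =>
    have hhalf : ((1 : ℝ) / 2) ^ (n + 1) = (1 / 2) ^ n / 2 := by rw [pow_succ]; ring
    have hpn : (0 : ℝ) < (1 / 2) ^ n := by positivity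
    rw [base, hhalf]
    split_ifs <;> linarith

lemma mu_cell (w : ℕ → Bool) (n : ℕ) :
    mu {x | ∀ i < n, dig x i = w i} = ENNReal.ofReal ((1 / 2) ^ n) := by
  have h1 : mu {x | ∀ i < n, dig x i = w i} =
      mu (Set.Ico (base w n) (base w n + (1 / 2) ^ n)) := by
    apply measure_congr
    have h2 : ∀ᵐ x ∂mu, x ∈ Set.Ico (0 : ℝ) 1 := by
      unfold mu
      rw [← Measure.restrict_congr_set Ico_ae_eq_Icc]
      exact ae_restrict_mem measurableSet_Ico
    filter_upwards [h2] with x hx
    exact propext (cell_iff w n x hx)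
  rw [h1]
  unfold mu
  rw [Measure.restrict_apply measurableSet_Ico]
  have h3 : Set.Ico (base w n) (base w n + (1 / 2) ^ n) ∩ Set.Icc 0 1 =
      Set.Ico (base w n) (base w n + (1 / 2) ^ n) := by
    apply Set.inter_eq_left.mpr
    intro x hx
    exact ⟨(base_nonneg w n).trans hx.1, hx.2.le.trans (base_le w n)⟩
  rw [h3, Real.volume_Ico]
  congr 1
  ring

/-- Extension of a finite word. -/
def ext {n : ℕ} (w : Fin n → Bool) : ℕ → Bool := fun i => if h : i < n then w ⟨i, h⟩ else false

lemma ext_apply {n : ℕ} (w : Fin n → Bool) (i : Fin n) : ext w i = w i := by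
  simp [ext]

/-- The average of `F` over the digits. -/
noncomputable def E (F : (ℕ → Bool) → ℝ) : ℝ := ∫ x, F (dig x) ∂mu

/-- restriction to the first digits -/
def rs (n : ℕ) (x : ℕ → Bool) : Fin n → Bool := fun i => x i

lemma Dep.eq_ext {n : ℕ} {F : (ℕ → Bool) → ℝ} (h : Dep n F) (x : ℕ → Bool) :
    F x = F (ext (rs n x)) := by
  apply h
  intro i hi
  simp [ext, rs, hi]

lemma measurable_rs (n : ℕ) : Measurable fun x => rs n (dig x) :=
  measurable_pi_lambda _ fun i => measurable_dig i

lemma Dep.measurable {n : ℕ} {F : (ℕ → Bool) → ℝ} (h : Dep n F) :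
    Measurable fun x => F (dig x) := by
  have h1 : (fun x => F (dig x)) = (fun w : Fin n → Bool => F (ext w)) ∘ fun x => rs n (dig x) := by
    funext x; exact h.eq_ext _
  rw [h1]
  exact (measurable_of_finite _).comp (measurable_rs n)

lemma Dep.bounded {n : ℕ} {F : (ℕ → Bool) → ℝ} (h : Dep n F) :
    ∃ C, 0 ≤ C ∧ ∀ x, |F x| ≤ C := by
  refine ⟨∑ w : Fin n → Bool, |F (ext w)|, sum_nonneg fun _ _ => abs_nonneg _, fun x => ?_⟩
  rw [h.eq_ext x]
  exact single_le_sum (f := fun w : Fin n → Bool => |F (ext w)|) (fun _ _ => abs_nonneg _)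
    (mem_univ (rs n x))

lemma Dep.integrable {n : ℕ} {F : (ℕ → Bool) → ℝ} (h : Dep n F) :
    Integrable (fun x => F (dig x)) mu := by
  obtain ⟨C, _, hC⟩ := h.bounded
  exact Integrable.of_bound h.measurable.aestronglyMeasurable C
    (Filter.Eventually.of_forall fun x => by rw [Real.norm_eq_abs]; exact hC _)

lemma E_eq_sum {n : ℕ} {F : (ℕ → Bool) → ℝ} (h : Dep n F) :
    E F = (1 / 2) ^ n * ∑ w : Fin n → Bool, F (ext w) := by
  unfold E
  have h1 : ∫ x, F (dig x) ∂mu = ∫ w, F (ext w) ∂(mu.map fun x => rs n (dig x)) := by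
    rw [integral_map (measurable_rs n).aemeasurable (measurable_of_finite _).aestronglyMeasurable]
    apply integral_congr_ae
    exact Filter.Eventually.of_forall fun x => h.eq_ext _
  have : IsFiniteMeasure (mu.map fun x => rs n (dig x)) := inferInstance
  rw [h1, integral_fintype (Integrable.of_finite), mul_sum]
  apply sum_congr rfl
  intro w _
  rw [smul_eq_mul]
  congr 1
  rw [Measure.real, Measure.map_apply (measurable_rs n) (measurableSet_singleton _)]
  have h2 : (fun x => rs n (dig x)) ⁻¹' {w} = {x | ∀ i < n, dig x i = ext w i} := by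
    ext x
    simp only [Set.mem_preimage, Set.mem_singleton_iff, Set.mem_ofPred_eq]
    constructor
    · rintro rfl i hi
      simp [ext, rs, hi]
    · intro h3
      funext i
      have := h3 i i.2
      rw [ext_apply] at this
      exact this
  rw [h2, mu_cell, ENNReal.toReal_ofReal (by positivity)]

/-- Invariance under maps that permute the first `n` digits' patterns. -/
lemma E_comp {n : ℕ} {F : (ℕ → Bool) → ℝ} (h : Dep n F) (τ : (ℕ → Bool) → (ℕ → Bool))
    (e : (Fin n → Bool) ≃ (Fin n → Bool)) (he : ∀ x, rs n (τ x) = e (rs n x)) :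
    E (fun x => F (τ x)) = E F := by
  have h1 : Dep n (fun x => F (τ x)) := by
    intro x y hxy
    apply h
    intro i hi
    have h2 : rs n x = rs n y := by
      funext j; exact hxy j j.2
    have h3 : rs n (τ x) = rs n (τ y) := by rw [he, he, h2]
    exact congrFun h3 ⟨i, hi⟩
  rw [E_eq_sum h1, E_eq_sum h]
  congr 1
  rw [← e.sum_comp (fun w => F (ext w))]
  apply sum_congr rfl
  intro w _
  apply h
  intro i hi
  have h2 := congrFun (he (ext w)) ⟨i, hi⟩
  have h3 : rs n (ext w) = w := by
    funext j; exact ext_apply w j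
  rw [h3] at h2
  rw [← ext_apply (e w) ⟨i, hi⟩] at h2
  exact h2

/-- flip the digits in a set -/
def flipS (S : ℕ → Bool) (x : ℕ → Bool) : ℕ → Bool := fun i => xor (S i) (x i)

lemma E_flip {n : ℕ} {F : (ℕ → Bool) → ℝ} (h : Dep n F) (S : ℕ → Bool) :
    E (fun x => F (flipS S x)) = E F := by
  refine E_comp h (flipS S) ⟨fun w i => xor (S i) (w i), fun w i => xor (S i) (w i), ?_, ?_⟩ ?_
  · intro w; funext i; simp
  · intro w; funext i; simp
  · intro x; funext i; rfl

/-- swap two digits -/
def swapD (a b : ℕ) (x : ℕ → Bool) : ℕ → Bool := fun i => x (Equiv.swap a b i)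

lemma E_swap {n : ℕ} {F : (ℕ → Bool) → ℝ} (h : Dep n F) {a b : ℕ} (ha : a < n) (hb : b < n) :
    E (fun x => F (swapD a b x)) = E F := by
  refine E_comp h (swapD a b)
    (Equiv.arrowCongr (Equiv.swap (⟨a, ha⟩ : Fin n) ⟨b, hb⟩) (Equiv.refl _)) ?_
  intro x
  funext i
  simp only [rs, swapD, Equiv.arrowCongr_apply, Function.comp_apply,
    Equiv.coe_refl, id_eq, Equiv.symm_swap]
  congr 1
  rcases eq_or_ne i ⟨a, ha⟩ with h1 | h1
  · subst h1; simp
  rcases eq_or_ne i ⟨b, hb⟩ with h2 | h2
  · subst h2; simp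
  rw [Equiv.swap_apply_of_ne_of_ne h1 h2, Equiv.swap_apply_of_ne_of_ne]
  · intro h3; exact h1 (Fin.ext h3)
  · intro h3; exact h2 (Fin.ext h3)

/-- prepend a digit -/
def consD (b : Bool) (x : ℕ → Bool) : ℕ → Bool
  | 0 => b
  | i + 1 => x i

lemma Dep.cons {n : ℕ} {F : (ℕ → Bool) → ℝ} (h : Dep (n + 1) F) (b : Bool) :
    Dep n (fun x => F (consD b x)) := by
  intro x y hxy
  apply h
  intro i hi
  cases i with
  | zero => rfl
  | succ i => exact hxy i (by omega)

lemma E_cons {n : ℕ} {F : (ℕ → Bool) → ℝ} (h : Dep (n + 1) F) :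
    E F = 1 / 2 * (E (fun x => F (consD false x)) + E (fun x => F (consD true x))) := by
  rw [E_eq_sum h, E_eq_sum (h.cons false), E_eq_sum (h.cons true)]
  rw [← (Fin.consEquiv (fun _ : Fin (n + 1) => Bool)).sum_comp, Fintype.sum_prod_type,
    Fintype.sum_bool]
  have h1 : ∀ (b : Bool) (w : Fin n → Bool),
      F (ext ((Fin.consEquiv (fun _ : Fin (n + 1) => Bool)) (b, w))) = F (consD b (ext w)) := by
    intro b w
    apply h
    intro i hi
    cases i with
    | zero => simp [ext, consD, Fin.consEquiv]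
    | succ i =>
      have : i < n := by omega
      simp only [ext, consD, Fin.consEquiv, hi, this, dif_pos]
      rfl
  simp only [h1]
  ring

end Pool.Agent.H66R3.PG
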