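import Mathlib
import Pool.Agent.H66R3.PG.Cyl

/-! Dyadic martingale transforms on cylinder functions, `1 < p ≤ 2`. -/

set_option autoImplicit false

open MeasureTheory Finset

namespace Pool.Agent.H66R3.PG

/-! ### Real inequalities -/

lemma rp_aux {p h : ℝ} (hp : 1 < p) (hp2 : p ≤ 2) (h0 : 0 ≤ h) (h1 : h ≤ 1) :
    1 + p * (p - 1) / 4 * h ^ 2 ≤ ((1 + h) ^ p + (1 - h) ^ p) / 2 := by
  set G : ℝ → ℝ := fun h => ((1 + h) ^ p + (1 - h) ^ p) / 2 - p * (p - 1) / 4 * h ^ 2 with hG
  have hc : ContinuousOn G (Set.Icc 0 1) := by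
    apply ContinuousOn.sub
    · apply ContinuousOn.div_const
      apply ContinuousOn.add
      · exact (continuous_const.add continuous_id).continuousOn.rpow_const
          (fun x _ => Or.inr (by linarith))
      · exact (continuous_const.sub continuous_id).continuousOn.rpow_const
          (fun x _ => Or.inr (by linarith))
    · fun_prop
  have hd : ∀ x ∈ interior (Set.Icc (0:ℝ) 1), HasDerivAt G
      ((p * (1 + x) ^ (p - 1) - p * (1 - x) ^ (p - 1)) / 2 - p * (p - 1) / 4 * (2 * x)) x := by
    intro x hx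
    rw [interior_Icc] at hx
    have d1 : HasDerivAt (fun h : ℝ => (1 + h) ^ p) (1 * p * (1 + x) ^ (p - 1)) x :=
      ((hasDerivAt_id x).const_add 1).rpow_const (Or.inl (by
        have := hx.1; simp only [id]; linarith))
    have d2 : HasDerivAt (fun h : ℝ => (1 - h) ^ p) (-1 * p * (1 - x) ^ (p - 1)) x :=
      ((hasDerivAt_id x).const_sub 1).rpow_const (Or.inl (by
        have := hx.2; simp only [id]; linarith))
    have d3 : HasDerivAt (fun h : ℝ => p * (p - 1) / 4 * h ^ 2) (p * (p - 1) / 4 * (2 * x)) x := by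
      have := ((hasDerivAt_id x).pow 2).const_mul (p * (p - 1) / 4)
      simpa using this
    have d4 := ((d1.add d2).div_const 2).sub d3
    exact d4.congr_deriv (by ring)
  have hmono : MonotoneOn G (Set.Icc 0 1) := by
    apply monotoneOn_of_deriv_nonneg (convex_Icc 0 1) hc
    · intro x hx
      exact (hd x hx).differentiableAt.differentiableWithinAt
    · intro x hx
      rw [(hd x hx).deriv]
      rw [interior_Icc] at hx
      have e1 : (1 - x) ^ (p - 1) ≤ 1 + (p - 1) * (-x) := by
        have := rpow_one_add_le_one_add_mul_self (s := -x) (by linarith [hx.2])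
          (by linarith : 0 ≤ p - 1) (by linarith)
        rw [← sub_eq_add_neg] at this
        exact this
      have e2 : 1 ≤ (1 + x) ^ (p - 1) := Real.one_le_rpow (by linarith [hx.1]) (by linarith)
      have e3 : (p - 1) * x ≤ (1 + x) ^ (p - 1) - (1 - x) ^ (p - 1) := by linarith
      nlinarith [hx.1]
  have h2 := hmono (Set.left_mem_Icc.mpr zero_le_one) ⟨h0, h1⟩ h0
  simp only [hG] at h2
  norm_num at h2
  linarith

/-- The one-dimensional inequality. -/
lemma rp_one {p : ℝ} (hp : 1 < p) (hp2 : p ≤ 2) (a h : ℝ) :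
    (a ^ 2 + 2 * h ^ 2) ^ (p / 2) - |a| ^ p ≤
      8 / (p - 1) * ((|a + h| ^ p + |a - h| ^ p) / 2 - |a| ^ p) := by
  have hp1 : 0 < p - 1 := by linarith
  have hp0 : 0 < p := by linarith
  -- reduce to nonnegative numbers
  have key : ∀ a h : ℝ, 0 ≤ a → 0 ≤ h → (a ^ 2 + 2 * h ^ 2) ^ (p / 2) - a ^ p ≤
      8 / (p - 1) * (((a + h) ^ p + |a - h| ^ p) / 2 - a ^ p) := by
    intro a h ha hh
    rcases le_total h a with hle | hle
    · rcases ha.eq_or_lt with h0 | h0
      · have : h = 0 := by linarith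
        subst this
        rw [← h0]
        simp [Real.zero_rpow hp0.ne', Real.zero_rpow (by positivity : p / 2 ≠ 0)]
      · -- scale by `a`
        set u := h / a with hu
        have hu0 : 0 ≤ u := by positivity
        have hu1 : u ≤ 1 := by rw [hu, div_le_one h0]; exact hle
        have hh' : h = a * u := by rw [hu]; field_simp
        have e1 : (a ^ 2 + 2 * h ^ 2) ^ (p / 2) = a ^ p * (1 + 2 * u ^ 2) ^ (p / 2) := by
          rw [hh', show a ^ 2 + 2 * (a * u) ^ 2 = a ^ 2 * (1 + 2 * u ^ 2) by ring,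
            Real.mul_rpow (by positivity) (by positivity)]
          congr 1
          rw [← Real.rpow_natCast, ← Real.rpow_mul h0.le]
          congr 1
          push_cast
          ring
        have e2 : (a + h) ^ p = a ^ p * (1 + u) ^ p := by
          rw [hh', show a + a * u = a * (1 + u) by ring, Real.mul_rpow h0.le (by positivity)]
        have e3 : |a - h| ^ p = a ^ p * (1 - u) ^ p := by
          rw [abs_of_nonneg (by linarith), hh', show a - a * u = a * (1 - u) by ring,
            Real.mul_rpow h0.le (by linarith)]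
        have e4 := rp_aux hp hp2 hu0 hu1
        have e5 : (1 + 2 * u ^ 2) ^ (p / 2) ≤ 1 + p / 2 * (2 * u ^ 2) :=
          rpow_one_add_le_one_add_mul_self (by nlinarith) (by positivity) (by linarith)
        have e6 : 0 < a ^ p := by positivity
        rw [e1, e2, e3]
        have e7 : a ^ p * (1 + 2 * u ^ 2) ^ (p / 2) - a ^ p ≤ a ^ p * (p * u ^ 2) := by
          nlinarith
        have e8 : a ^ p * (p * (p - 1) / 4 * u ^ 2) ≤
            (a ^ p * (1 + u) ^ p + a ^ p * (1 - u) ^ p) / 2 - a ^ p := by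
          nlinarith
        have e9 : 8 / (p - 1) * (a ^ p * (p * (p - 1) / 4 * u ^ 2)) ≤
            8 / (p - 1) * ((a ^ p * (1 + u) ^ p + a ^ p * (1 - u) ^ p) / 2 - a ^ p) :=
          mul_le_mul_of_nonneg_left e8 (by positivity)
        have e10 : 8 / (p - 1) * (a ^ p * (p * (p - 1) / 4 * u ^ 2)) = 2 * (a ^ p * (p * u ^ 2)) := by
          field_simp
          ring
        have e11 : 0 ≤ a ^ p * (p * u ^ 2) := by positivity
        linarith
    · rcases hh.eq_or_lt with h0 | h0
      · have : a = 0 := by linarith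
        subst this
        rw [← h0]
        simp [Real.zero_rpow hp0.ne', Real.zero_rpow (by positivity : p / 2 ≠ 0)]
      · set u := a / h with hu
        have hu0 : 0 ≤ u := by positivity
        have hu1 : u ≤ 1 := by rw [hu, div_le_one h0]; exact hle
        have hh' : a = h * u := by rw [hu]; field_simp
        have e0 : a ^ p = h ^ p * u ^ p := by rw [hh', Real.mul_rpow h0.le hu0]
        have e1 : (a ^ 2 + 2 * h ^ 2) ^ (p / 2) = h ^ p * (u ^ 2 + 2) ^ (p / 2) := by
          rw [hh', show (h * u) ^ 2 + 2 * h ^ 2 = h ^ 2 * (u ^ 2 + 2) by ring,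
            Real.mul_rpow (by positivity) (by positivity)]
          congr 1
          rw [← Real.rpow_natCast, ← Real.rpow_mul h0.le]
          congr 1
          push_cast
          ring
        have e2 : (a + h) ^ p = h ^ p * (1 + u) ^ p := by
          rw [hh', show h * u + h = h * (1 + u) by ring, Real.mul_rpow h0.le (by positivity)]
        have e3 : |a - h| ^ p = h ^ p * (1 - u) ^ p := by
          rw [abs_sub_comm, abs_of_nonneg (by linarith), hh',
            show h - h * u = h * (1 - u) by ring, Real.mul_rpow h0.le (by linarith)]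
        have e4 := rp_aux hp hp2 hu0 hu1
        have e5 : u ^ p = (u ^ 2) ^ (p / 2) := by
          rw [← Real.rpow_natCast, ← Real.rpow_mul hu0]
          congr 1
          push_cast
          ring
        have e6 : u ^ p ≤ 1 + p / 2 * (u ^ 2 - 1) := by
          rw [e5]
          have := rpow_one_add_le_one_add_mul_self (s := u ^ 2 - 1) (by nlinarith)
            (by positivity : 0 ≤ p / 2) (by linarith)
          rwa [add_sub_cancel] at this
        have e7 : (u ^ 2 + 2) ^ (p / 2) ≤ u ^ p + 2 := by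
          have h3 := Real.rpow_add_le_add_rpow (sq_nonneg u) (by norm_num : (0:ℝ) ≤ 2)
            (by positivity : 0 ≤ p / 2) (by linarith)
          have h4 : (2:ℝ) ^ (p / 2) ≤ 2 ^ (1:ℝ) :=
            Real.rpow_le_rpow_of_exponent_le (by norm_num) (by linarith)
          rw [Real.rpow_one] at h4
          rw [e5]
          linarith
        have hhp : 0 < h ^ p := by positivity
        have e8 : p * (p - 1) / 4 ≤ ((1 + u) ^ p + (1 - u) ^ p) / 2 - u ^ p := by
          have : 0 ≤ 1 - u ^ 2 := by nlinarith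
          have h5 : p * (p - 1) / 4 * (1 - u ^ 2) ≤ p / 2 * (1 - u ^ 2) :=
            mul_le_mul_of_nonneg_right (by nlinarith) this
          linarith
        rw [e1, e0, e2, e3]
        have e9 : h ^ p * (u ^ 2 + 2) ^ (p / 2) - h ^ p * u ^ p ≤ h ^ p * 2 := by nlinarith
        have e10 : h ^ p * (p * (p - 1) / 4) ≤
            (h ^ p * (1 + u) ^ p + h ^ p * (1 - u) ^ p) / 2 - h ^ p * u ^ p := by nlinarith
        have e11 : 8 / (p - 1) * (h ^ p * (p * (p - 1) / 4)) ≤
            8 / (p - 1) * ((h ^ p * (1 + u) ^ p + h ^ p * (1 - u) ^ p) / 2 - h ^ p * u ^ p) :=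
          mul_le_mul_of_nonneg_left e10 (by positivity)
        have e12 : 8 / (p - 1) * (h ^ p * (p * (p - 1) / 4)) = 2 * (h ^ p * p) := by
          field_simp
          ring
        nlinarith
  have h1 := key |a| |h| (abs_nonneg _) (abs_nonneg _)
  rw [sq_abs, sq_abs] at h1
  have h2 : (|a| + |h|) ^ p + |(|a| - |h|)| ^ p = |a + h| ^ p + |a - h| ^ p := by
    rcases le_total 0 a with h3 | h3 <;> rcases le_total 0 h with h4 | h4
    · rw [abs_of_nonneg h3, abs_of_nonneg h4, abs_of_nonneg (by linarith : 0 ≤ a + h)]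
    · rw [abs_of_nonneg h3, abs_of_nonpos h4, abs_of_nonneg (by linarith : 0 ≤ a - h),
        sub_neg_eq_add, ← sub_eq_add_neg, add_comm]
    · rw [abs_of_nonpos h3, abs_of_nonneg h4, abs_of_nonpos (by linarith : a - h ≤ 0),
        show -a - h = -(a + h) by ring, abs_neg, add_comm (|a + h| ^ p)]
      congr 2
      ring
    · rw [abs_of_nonpos h3, abs_of_nonpos h4, abs_of_nonpos (by linarith : a + h ≤ 0),
        show -a - -h = -(a - h) by ring, abs_neg]
      congr 2
      ring
  rw [h2] at h1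
  exact h1

/-- The two-point inequality. -/
lemma two_point {p : ℝ} (hp : 1 < p) (hp2 : p ≤ 2) (a b d e : ℝ) (hde : |e| ≤ |d|) :
    (((a + d) ^ 2 + (b + e) ^ 2) ^ (p / 2) - 8 / (p - 1) * |a + d| ^ p +
      (((a - d) ^ 2 + (b - e) ^ 2) ^ (p / 2) - 8 / (p - 1) * |a - d| ^ p)) / 2 ≤
      (a ^ 2 + b ^ 2) ^ (p / 2) - 8 / (p - 1) * |a| ^ p := by
  have hp0 : 0 < p / 2 := by linarith
  have hp1 : p / 2 ≤ 1 := by linarith
  have hconc := Real.concaveOn_rpow hp0.le hp1
  have h1 : (((a + d) ^ 2 + (b + e) ^ 2) ^ (p / 2) + ((a - d) ^ 2 + (b - e) ^ 2) ^ (p / 2)) / 2 ≤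
      (a ^ 2 + b ^ 2 + 2 * d ^ 2) ^ (p / 2) := by
    have h2 := hconc.2 (show (a + d) ^ 2 + (b + e) ^ 2 ∈ Set.Ici (0 : ℝ) by
        rw [Set.mem_Ici]; positivity) (show (a - d) ^ 2 + (b - e) ^ 2 ∈ Set.Ici (0 : ℝ) by
        rw [Set.mem_Ici]; positivity) (show (0 : ℝ) ≤ 1 / 2 by norm_num)
        (show (0 : ℝ) ≤ 1 / 2 by norm_num) (by norm_num)
    simp only [smul_eq_mul] at h2
    have h3 : (1 / 2 * ((a + d) ^ 2 + (b + e) ^ 2) + 1 / 2 * ((a - d) ^ 2 + (b - e) ^ 2)) ^ (p / 2) ≤
        (a ^ 2 + b ^ 2 + 2 * d ^ 2) ^ (p / 2) := by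
      apply Real.rpow_le_rpow (by positivity) _ hp0.le
      have h4 : e ^ 2 ≤ d ^ 2 := sq_le_sq.mpr hde
      nlinarith
    linarith
  have h2 : (a ^ 2 + b ^ 2 + 2 * d ^ 2) ^ (p / 2) - (a ^ 2 + b ^ 2) ^ (p / 2) ≤
      (a ^ 2 + 2 * d ^ 2) ^ (p / 2) - |a| ^ p := by
    have h3 : |a| ^ p = (a ^ 2) ^ (p / 2) := by
      rw [← sq_abs, ← Real.rpow_natCast, ← Real.rpow_mul (abs_nonneg _)]
      congr 1
      push_cast
      ring
    rw [h3]
    -- concavity: increments of a concave function decrease
    rcases (sq_nonneg d).eq_or_lt with h0 | h0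
    · rw [← h0]; simp
    rcases (sq_nonneg b).eq_or_lt with h0' | h0'
    · rw [← h0']; simp
    set X := a ^ 2 with hX
    set B := b ^ 2 with hB
    set D := 2 * d ^ 2 with hD
    have hXn : 0 ≤ X := sq_nonneg _
    have hD0 : 0 < D := by rw [hD]; linarith
    have hs : 0 < B + D := by linarith
    have c1 := hconc.2 (show X ∈ Set.Ici (0 : ℝ) from hXn) (show X + B + D ∈ Set.Ici (0 : ℝ) by
      rw [Set.mem_Ici]; linarith) (show 0 ≤ B / (B + D) by positivity)
      (show 0 ≤ D / (B + D) by positivity) (by field_simp)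
    have c2 := hconc.2 (show X ∈ Set.Ici (0 : ℝ) from hXn) (show X + B + D ∈ Set.Ici (0 : ℝ) by
      rw [Set.mem_Ici]; linarith) (show 0 ≤ D / (B + D) by positivity)
      (show 0 ≤ B / (B + D) by positivity) (by field_simp; ring)
    simp only [smul_eq_mul] at c1 c2
    have e1 : B / (B + D) * X + D / (B + D) * (X + B + D) = X + D := by
      field_simp; ring
    have e2 : D / (B + D) * X + B / (B + D) * (X + B + D) = X + B := by
      field_simp; ring
    rw [e1] at c1
    rw [e2] at c2
    have e3 : B / (B + D) * X ^ (p / 2) + D / (B + D) * (X + B + D) ^ (p / 2) +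
        (D / (B + D) * X ^ (p / 2) + B / (B + D) * (X + B + D) ^ (p / 2)) =
        X ^ (p / 2) + (X + B + D) ^ (p / 2) := by
      field_simp; ring
    linarith
  have h3 := rp_one hp hp2 a d
  linarith

/-! ### Averages -/

/-- Rademacher functions. -/
def rd (k : ℕ) (x : ℕ → Bool) : ℝ := if x k then -1 else 1

lemma rd_sq (k : ℕ) (x : ℕ → Bool) : rd k x * rd k x = 1 := by
  unfold rd; split_ifs <;> norm_num

lemma rd_abs (k : ℕ) (x : ℕ → Bool) : |rd k x| = 1 := by
  unfold rd; split_ifs <;> norm_num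

lemma rd_flip (S : ℕ → Bool) (k : ℕ) (x : ℕ → Bool) :
    rd k (flipS S x) = if S k then -rd k x else rd k x := by
  unfold rd flipS
  cases S k <;> cases x k <;> simp

lemma dep_rd (k : ℕ) : Dep (k + 1) (rd k) := by
  intro x y h
  unfold rd
  rw [h k (Nat.lt_succ_self k)]

lemma dep_const (n : ℕ) (c : ℝ) : Dep n (fun _ => c) := fun _ _ _ => rfl

lemma Dep.map {n : ℕ} {F : (ℕ → Bool) → ℝ} (hF : Dep n F) (φ : ℝ → ℝ) :
    Dep n (fun x => φ (F x)) := by
  intro x y h
  change φ (F x) = φ (F y)
  rw [hF x y h]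

lemma Dep.map₂ {n : ℕ} {F G : (ℕ → Bool) → ℝ} (hF : Dep n F) (hG : Dep n G) (φ : ℝ → ℝ → ℝ) :
    Dep n (fun x => φ (F x) (G x)) := by
  intro x y h
  change φ (F x) (G x) = φ (F y) (G y)
  rw [hF x y h, hG x y h]

lemma Dep.add {n : ℕ} {F G : (ℕ → Bool) → ℝ} (hF : Dep n F) (hG : Dep n G) :
    Dep n (fun x => F x + G x) := hF.map₂ hG (· + ·)

lemma Dep.sub {n : ℕ} {F G : (ℕ → Bool) → ℝ} (hF : Dep n F) (hG : Dep n G) :
    Dep n (fun x => F x - G x) := hF.map₂ hG (· - ·)

lemma Dep.mul {n : ℕ} {F G : (ℕ → Bool) → ℝ} (hF : Dep n F) (hG : Dep n G) :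
    Dep n (fun x => F x * G x) := hF.map₂ hG (· * ·)

lemma Dep.sum {n : ℕ} {ι : Type*} (s : Finset ι) {F : ι → (ℕ → Bool) → ℝ}
    (hF : ∀ i ∈ s, Dep n (F i)) : Dep n (fun x => ∑ i ∈ s, F i x) := by
  intro x y h
  exact sum_congr rfl fun i hi => hF i hi x y h

lemma Dep.flip {n : ℕ} {F : (ℕ → Bool) → ℝ} (hF : Dep n F) (S : ℕ → Bool) :
    Dep n (fun x => F (flipS S x)) := by
  intro x y h
  apply hF
  intro i hi
  unfold flipS
  rw [h i hi]

lemma E_add {n : ℕ} {F G : (ℕ → Bool) → ℝ} (hF : Dep n F) (hG : Dep n G) :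
    E (fun x => F x + G x) = E F + E G := integral_add hF.integrable hG.integrable

lemma E_sub {n : ℕ} {F G : (ℕ → Bool) → ℝ} (hF : Dep n F) (hG : Dep n G) :
    E (fun x => F x - G x) = E F - E G := integral_sub hF.integrable hG.integrable

lemma E_const (c : ℝ) : E (fun _ => c) = c := by simp [E]

lemma E_mul_left (c : ℝ) (F : (ℕ → Bool) → ℝ) : E (fun x => c * F x) = c * E F :=
  integral_const_mul c _

lemma E_sum {n : ℕ} {ι : Type*} (s : Finset ι) {F : ι → (ℕ → Bool) → ℝ}
    (hF : ∀ i ∈ s, Dep n (F i)) : E (fun x => ∑ i ∈ s, F i x) = ∑ i ∈ s, E (F i) :=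
  integral_finsetSum s fun i hi => (hF i hi).integrable

lemma E_mono {n : ℕ} {F G : (ℕ → Bool) → ℝ} (hF : Dep n F) (hG : Dep n G)
    (h : ∀ x, F x ≤ G x) : E F ≤ E G :=
  integral_mono hF.integrable hG.integrable fun x => h (dig x)

lemma E_nonneg {F : (ℕ → Bool) → ℝ} (h : ∀ x, 0 ≤ F x) : 0 ≤ E F :=
  integral_nonneg fun x => h (dig x)

lemma E_abs_le {F : (ℕ → Bool) → ℝ} : |E F| ≤ E (fun x => |F x|) := by
  have := norm_integral_le_integral_norm (μ := mu) (fun x => F (dig x))
  simpa [E, Real.norm_eq_abs] using this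

/-- A function not depending on the digit `k`, times `rd k`, has mean zero. -/
lemma E_rd_zero {n : ℕ} {F : (ℕ → Bool) → ℝ} (hF : Dep n F) (k : ℕ)
    (hk : ∀ x, F (flipS (fun i => decide (i = k)) x) = F x) :
    E (fun x => F x * rd k x) = 0 := by
  have hD : Dep (max n (k + 1)) (fun x => F x * rd k x) :=
    (hF.mono (le_max_left _ _)).mul ((dep_rd k).mono (le_max_right _ _))
  have h1 := E_flip hD (fun i => decide (i = k))
  have h2 : (fun x => F (flipS (fun i => decide (i = k)) x) *
      rd k (flipS (fun i => decide (i = k)) x)) = fun x => (-1) * (F x * rd k x) := by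
    funext x
    rw [hk, rd_flip]
    simp
  rw [h2, E_mul_left] at h1
  linarith

lemma flip_of_dep {n : ℕ} {F : (ℕ → Bool) → ℝ} (hF : Dep n F) {k : ℕ} (hk : n ≤ k)
    (x : ℕ → Bool) : F (flipS (fun i => decide (i = k)) x) = F x := by
  apply hF
  intro i hi
  have : i ≠ k := by omega
  simp [flipS, this]

/-- Averaging over one digit. -/
lemma E_split {n : ℕ} {F : (ℕ → Bool) → ℝ} (hF : Dep n F) (S : ℕ → Bool) :
    E F = E (fun x => (F x + F (flipS S x)) / 2) := by
  have h1 : (fun x => (F x + F (flipS S x)) / 2) =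
      fun x => (1 / 2 : ℝ) * (F x + F (flipS S x)) := by funext x; ring
  rw [h1, E_mul_left, E_add hF (hF.flip S), E_flip hF]
  ring

/-- A dyadic martingale with increments `c k * rd k`. -/
def mart (a : ℝ) (c : ℕ → (ℕ → Bool) → ℝ) (n : ℕ) (x : ℕ → Bool) : ℝ :=
  a + ∑ k ∈ range n, c k x * rd k x

lemma dep_mart {a : ℝ} {c : ℕ → (ℕ → Bool) → ℝ} (hc : ∀ k, Dep k (c k)) (n : ℕ) :
    Dep n (mart a c n) := by
  apply (dep_const n a).add
  apply Dep.sum
  intro k hk
  rw [mem_range] at hk
  exact ((hc k).mono hk.le).mul ((dep_rd k).mono hk)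

/-- Martingale transforms, `1 < p ≤ 2`. -/
theorem burk_low {p : ℝ} (hp : 1 < p) (hp2 : p ≤ 2) {a b : ℝ} {c e : ℕ → (ℕ → Bool) → ℝ}
    (hc : ∀ k, Dep k (c k)) (he : ∀ k, Dep k (e k)) (hab : |b| ≤ |a|)
    (hce : ∀ k x, |e k x| ≤ |c k x|) (n : ℕ) :
    E (fun x => |mart b e n x| ^ p) ≤ 8 / (p - 1) * E (fun x => |mart a c n x| ^ p) := by
  have hp1 : 0 < p - 1 := by linarith
  have hU : ∀ n, Dep n (fun x => (mart a c n x ^ 2 + mart b e n x ^ 2) ^ (p / 2) -
      8 / (p - 1) * |mart a c n x| ^ p) := fun n =>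
    (dep_mart hc n).map₂ (dep_mart he n) (fun u v => (u ^ 2 + v ^ 2) ^ (p / 2) -
      8 / (p - 1) * |u| ^ p)
  have key : ∀ n, E (fun x => (mart a c n x ^ 2 + mart b e n x ^ 2) ^ (p / 2) -
      8 / (p - 1) * |mart a c n x| ^ p) ≤ 0 := by
    intro n
    induction n with
    | zero =>
      have h0 : (fun x => (mart a c 0 x ^ 2 + mart b e 0 x ^ 2) ^ (p / 2) -
          8 / (p - 1) * |mart a c 0 x| ^ p) = fun _ => (a ^ 2 + b ^ 2) ^ (p / 2) -
          8 / (p - 1) * |a| ^ p := by
        funext x; simp [mart]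
      rw [h0, E_const]
      have h1 : (a ^ 2 + b ^ 2) ^ (p / 2) ≤ (2 * a ^ 2) ^ (p / 2) := by
        apply Real.rpow_le_rpow (by positivity) _ (by linarith)
        have := sq_le_sq.mpr hab
        linarith
      have h2 : (2 * a ^ 2) ^ (p / 2) = 2 ^ (p / 2) * |a| ^ p := by
        rw [Real.mul_rpow (by norm_num) (sq_nonneg a)]
        congr 1
        rw [← sq_abs, ← Real.rpow_natCast, ← Real.rpow_mul (abs_nonneg _)]
        congr 1
        push_cast
        ring
      have h3 : (2:ℝ) ^ (p / 2) ≤ 2 := by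
        have := Real.rpow_le_rpow_of_exponent_le (by norm_num : (1:ℝ) ≤ 2)
          (by linarith : p / 2 ≤ 1)
        rwa [Real.rpow_one] at this
      have h4 : 2 ≤ 8 / (p - 1) := by rw [le_div_iff₀ hp1]; linarith
      have h5 : 0 ≤ |a| ^ p := by positivity
      nlinarith
    | succ n ih =>
      refine le_trans ?_ ih
      rw [E_split (hU (n + 1)) (fun i => decide (i = n))]
      apply E_mono (n := n + 1)
      · exact ((hU (n + 1)).map₂ ((hU (n + 1)).flip _) (fun u v => (u + v) / 2))
      · exact (hU n).mono (Nat.le_succ n)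
      · intro x
        have m1 : mart a c (n + 1) x = mart a c n x + c n x * rd n x := by
          simp only [mart, sum_range_succ]; ring
        have m2 : mart b e (n + 1) x = mart b e n x + e n x * rd n x := by
          simp only [mart, sum_range_succ]; ring
        have m3 : mart a c (n + 1) (flipS (fun i => decide (i = n)) x) =
            mart a c n x - c n x * rd n x := by
          have e1 : mart a c (n + 1) (flipS (fun i => decide (i = n)) x) =
              mart a c n (flipS (fun i => decide (i = n)) x) +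
                c n (flipS (fun i => decide (i = n)) x) *
                  rd n (flipS (fun i => decide (i = n)) x) := by
            simp only [mart, sum_range_succ]; ring
          rw [e1, flip_of_dep (dep_mart hc n) le_rfl, flip_of_dep (hc n) le_rfl, rd_flip]
          simp only [decide_true, if_true]
          ring
        have m4 : mart b e (n + 1) (flipS (fun i => decide (i = n)) x) =
            mart b e n x - e n x * rd n x := by
          have e1 : mart b e (n + 1) (flipS (fun i => decide (i = n)) x) =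
              mart b e n (flipS (fun i => decide (i = n)) x) +
                e n (flipS (fun i => decide (i = n)) x) *
                  rd n (flipS (fun i => decide (i = n)) x) := by
            simp only [mart, sum_range_succ]; ring
          rw [e1, flip_of_dep (dep_mart he n) le_rfl, flip_of_dep (he n) le_rfl, rd_flip]
          simp only [decide_true, if_true]
          ring
        rw [m1, m2, m3, m4]
        apply two_point hp hp2
        rw [abs_mul, abs_mul, rd_abs]
        simpa using hce n x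
  have h1 := key n
  rw [E_sub (n := n) ((dep_mart hc n).map₂ (dep_mart he n)
    (fun u v => (u ^ 2 + v ^ 2) ^ (p / 2))) ((dep_mart hc n).map (fun u => 8 / (p - 1) * |u| ^ p)),
    E_mul_left] at h1
  have h2 : E (fun x => |mart b e n x| ^ p) ≤
      E (fun x => (mart a c n x ^ 2 + mart b e n x ^ 2) ^ (p / 2)) := by
    apply E_mono (n := n) ((dep_mart he n).map (fun u => |u| ^ p))
      ((dep_mart hc n).map₂ (dep_mart he n) (fun u v => (u ^ 2 + v ^ 2) ^ (p / 2)))
    intro x
    have h3 : |mart b e n x| ^ p = (mart b e n x ^ 2) ^ (p / 2) := by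
      rw [← sq_abs, ← Real.rpow_natCast, ← Real.rpow_mul (abs_nonneg _)]
      congr 1
      push_cast
      ring
    rw [h3]
    apply Real.rpow_le_rpow (sq_nonneg _) _ (by linarith)
    linarith [sq_nonneg (mart a c n x)]
  linarith

end Pool.Agent.H66R3.PG
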