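import Mathlib
import Pool.Agent.H66R3.PG.Burk

/-! Norms of cylinder functions, duality, Khinchine inequalities. -/

set_option autoImplicit false

open MeasureTheory Finset

namespace Pool.Agent.H66R3.PG

/-- The `L_p` norm of a cylinder function. -/
noncomputable def nm (p : ℝ) (F : (ℕ → Bool) → ℝ) : ℝ := (E (fun x => |F x| ^ p)) ^ (1 / p)

lemma E_rpow_nonneg (p : ℝ) (F : (ℕ → Bool) → ℝ) : 0 ≤ E (fun x => |F x| ^ p) :=
  E_nonneg fun _ => Real.rpow_nonneg (abs_nonneg _) _

lemma nm_nonneg (p : ℝ) (F : (ℕ → Bool) → ℝ) : 0 ≤ nm p F :=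
  Real.rpow_nonneg (E_rpow_nonneg p F) _

lemma nm_rpow {p : ℝ} (hp : 0 < p) (F : (ℕ → Bool) → ℝ) :
    nm p F ^ p = E (fun x => |F x| ^ p) := by
  unfold nm
  rw [← Real.rpow_mul (E_rpow_nonneg p F), one_div, inv_mul_cancel₀ hp.ne', Real.rpow_one]

lemma Dep.memLp {n : ℕ} {F : (ℕ → Bool) → ℝ} (h : Dep n F) (q : ENNReal) :
    MemLp (fun x => F (dig x)) q mu := by
  obtain ⟨C, _, hC⟩ := h.bounded
  exact MemLp.of_bound h.measurable.aestronglyMeasurable C
    (Filter.Eventually.of_forall fun x => by rw [Real.norm_eq_abs]; exact hC _)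

/-- Hölder. -/
lemma holder {p q : ℝ} (hpq : p.HolderConjugate q) {n : ℕ} {F G : (ℕ → Bool) → ℝ}
    (hF : Dep n F) (hG : Dep n G) : |E (fun x => F x * G x)| ≤ nm p F * nm q G := by
  have h1 := integral_mul_norm_le_Lp_mul_Lq (μ := mu) hpq (hF.memLp (ENNReal.ofReal p))
    (hG.memLp (ENNReal.ofReal q))
  refine E_abs_le.trans ?_
  have h2 : E (fun x => |F x * G x|) = ∫ a, ‖F (dig a)‖ * ‖G (dig a)‖ ∂mu := by
    unfold E
    apply integral_congr_ae
    exact Filter.Eventually.of_forall fun x => by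
      simp only [abs_mul, Real.norm_eq_abs]
  rw [h2]
  exact h1

/-- Minkowski. -/
lemma nm_add {p : ℝ} (hp : 1 ≤ p) {n : ℕ} {F G : (ℕ → Bool) → ℝ}
    (hF : Dep n F) (hG : Dep n G) : nm p (fun x => F x + G x) ≤ nm p F + nm p G := by
  have hp0 : 0 < p := by linarith
  have key : ∀ {H : (ℕ → Bool) → ℝ}, Dep n H →
      nm p H = (eLpNorm (fun x => H (dig x)) (ENNReal.ofReal p) mu).toReal := by
    intro H hH
    rw [MemLp.eLpNorm_eq_integral_rpow_norm (by simpa using hp0) ENNReal.ofReal_ne_top
      (hH.memLp _), ENNReal.toReal_ofReal (by positivity), ENNReal.toReal_ofReal hp0.le]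
    unfold nm E
    rw [one_div]
    rfl
  rw [key (hF.add hG), key hF, key hG]
  have h1 := eLpNorm_add_le (hF.memLp (ENNReal.ofReal p)).1 (hG.memLp (ENNReal.ofReal p)).1
    (ENNReal.one_le_ofReal.mpr hp)
  have h2 := ENNReal.toReal_mono (ENNReal.add_ne_top.mpr
    ⟨(hF.memLp (ENNReal.ofReal p)).2.ne, (hG.memLp (ENNReal.ofReal p)).2.ne⟩) h1
  rw [ENNReal.toReal_add (hF.memLp (ENNReal.ofReal p)).2.ne
    (hG.memLp (ENNReal.ofReal p)).2.ne] at h2
  exact h2

lemma nm_smul {p : ℝ} (hp : 0 < p) (c : ℝ) (F : (ℕ → Bool) → ℝ) :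
    nm p (fun x => c * F x) = |c| * nm p F := by
  unfold nm
  have h1 : (fun x => |c * F x| ^ p) = fun x => |c| ^ p * |F x| ^ p := by
    funext x; rw [abs_mul, Real.mul_rpow (abs_nonneg _) (abs_nonneg _)]
  rw [h1, E_mul_left, Real.mul_rpow (by positivity) (E_rpow_nonneg p F), ← Real.rpow_mul
    (abs_nonneg _), mul_one_div, div_self hp.ne', Real.rpow_one]

lemma nm_neg (p : ℝ) (F : (ℕ → Bool) → ℝ) : nm p (fun x => -F x) = nm p F := by
  unfold nm; simp only [abs_neg]

lemma nm_sub {p : ℝ} (hp : 1 ≤ p) {n : ℕ} {F G : (ℕ → Bool) → ℝ}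
    (hF : Dep n F) (hG : Dep n G) : nm p (fun x => F x - G x) ≤ nm p F + nm p G := by
  have h := nm_add hp hF (hG.map (fun u => -u))
  rw [nm_neg] at h
  simpa [sub_eq_add_neg] using h

/-! ### Martingale representation -/

lemma dep_of_flip {n : ℕ} {G : (ℕ → Bool) → ℝ} (hG : Dep (n + 1) G)
    (h : ∀ x, G (flipS (fun i => decide (i = n)) x) = G x) : Dep n G := by
  intro x y hxy
  by_cases hn : x n = y n
  · apply hG
    intro i hi
    rcases Nat.lt_succ_iff_lt_or_eq.mp hi with h1 | h1
    · exact hxy i h1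
    · rw [h1]; exact hn
  · rw [← h x]
    apply hG
    intro i hi
    rcases Nat.lt_succ_iff_lt_or_eq.mp hi with h1 | h1
    · have : i ≠ n := by omega
      simp [flipS, this, hxy i h1]
    · rw [h1]
      simp only [flipS, decide_true, Bool.true_xor]
      cases hx : x n <;> cases hy : y n <;> simp_all

lemma flip_flip (S : ℕ → Bool) (x : ℕ → Bool) : flipS S (flipS S x) = x := by
  funext i; simp [flipS]

lemma mart_rep (n : ℕ) : ∀ H : (ℕ → Bool) → ℝ, Dep n H →
    ∃ (a : ℝ) (c : ℕ → (ℕ → Bool) → ℝ), (∀ k, Dep k (c k)) ∧ H = mart a c n := by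
  induction n with
  | zero =>
    intro H hH
    refine ⟨H (fun _ => false), fun _ _ => 0, fun k => dep_const k 0, ?_⟩
    funext x
    simp only [mart, range_zero, sum_empty, add_zero]
    exact hH _ _ (fun i hi => absurd hi (Nat.not_lt_zero i))
  | succ n ih =>
    intro H hH
    set S : ℕ → Bool := fun i => decide (i = n) with hS
    have hA : Dep n (fun x => (H x + H (flipS S x)) / 2) := by
      apply dep_of_flip (hH.map₂ (hH.flip S) (fun u v => (u + v) / 2))
      intro x
      change (H (flipS S x) + H (flipS S (flipS S x))) / 2 = (H x + H (flipS S x)) / 2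
      rw [flip_flip]; ring
    have hB : Dep n (fun x => (H x - H (flipS S x)) / 2 * rd n x) := by
      apply dep_of_flip ((hH.map₂ (hH.flip S) (fun u v => (u - v) / 2)).mul (dep_rd n))
      intro x
      change (H (flipS S x) - H (flipS S (flipS S x))) / 2 * rd n (flipS S x) = _
      rw [flip_flip, rd_flip]
      simp only [hS, decide_true, if_true]
      ring
    obtain ⟨a, c, hc, hac⟩ := ih _ hA
    refine ⟨a, fun k => if k = n then (fun x => (H x - H (flipS S x)) / 2 * rd n x) else c k,
      ?_, ?_⟩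
    · intro k
      by_cases hk : k = n
      · subst hk; simp only [if_true]; exact hB
      · simp only [if_neg hk]; exact hc k
    · funext x
      have h1 := congrFun hac x
      simp only [mart] at h1 ⊢
      rw [sum_range_succ]
      have h2 : ∑ k ∈ range n, (if k = n then (fun x => (H x - H (flipS S x)) / 2 * rd n x)
          else c k) x * rd k x = ∑ k ∈ range n, c k x * rd k x := by
        apply sum_congr rfl
        intro k hk
        rw [mem_range] at hk
        rw [if_neg (by omega)]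
      rw [h2]
      simp only [if_true]
      have h3 := rd_sq n x
      linear_combination h1 + (-(H x - H (flipS S x)) / 2) * h3

lemma E_mart_mul {a b : ℝ} {c e : ℕ → (ℕ → Bool) → ℝ}
    (hc : ∀ k, Dep k (c k)) (he : ∀ k, Dep k (e k)) (n : ℕ) :
    E (fun x => mart a c n x * mart b e n x) = a * b + ∑ k ∈ range n, E (fun x => c k x * e k x) := by
  induction n with
  | zero =>
    have : (fun x => mart a c 0 x * mart b e 0 x) = fun _ => a * b := by
      funext x; simp [mart]
    rw [this, E_const]; simp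
  | succ n ih =>
    have h1 : (fun x => mart a c (n + 1) x * mart b e (n + 1) x) =
        fun x => (mart a c n x * mart b e n x + c n x * e n x) +
          (mart a c n x * e n x + c n x * mart b e n x) * rd n x := by
      funext x
      simp only [mart, sum_range_succ]
      linear_combination (c n x * e n x) * rd_sq n x
    have d1 := (dep_mart (a := a) hc n).mul (dep_mart (a := b) he n)
    have d2 := (hc n).mul (he n)
    have d3 := ((dep_mart (a := a) hc n).mul (he n)).add ((hc n).mul (dep_mart (a := b) he n))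
    rw [h1, E_add (n := n + 1) ((d1.add d2).mono (Nat.le_succ n))
      ((d3.mono (Nat.le_succ n)).mul (dep_rd n)), E_add d1 d2, ih,
      E_rd_zero d3 n (flip_of_dep d3 le_rfl), sum_range_succ]
    ring

/-- Martingale transforms on `L_p`, `1 < p < ∞`. -/
theorem burk {p : ℝ} (hp : 1 < p) : ∃ C : ℝ, 0 < C ∧
    ∀ (a θ : ℝ) (c ε : ℕ → (ℕ → Bool) → ℝ), (∀ k, Dep k (c k)) → (∀ k, Dep k (ε k)) →
      |θ| ≤ 1 → (∀ k x, |ε k x| ≤ 1) → ∀ n,
      nm p (mart (θ * a) (fun k x => ε k x * c k x) n) ≤ C * nm p (mart a c n) := by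
  have low : ∀ {p : ℝ}, 1 < p → p ≤ 2 → ∀ (a θ : ℝ) (c ε : ℕ → (ℕ → Bool) → ℝ),
      (∀ k, Dep k (c k)) → (∀ k, Dep k (ε k)) →
      |θ| ≤ 1 → (∀ k x, |ε k x| ≤ 1) → ∀ n,
      nm p (mart (θ * a) (fun k x => ε k x * c k x) n) ≤
        (8 / (p - 1)) ^ (1 / p) * nm p (mart a c n) := by
    intro p hp hp2 a θ c ε hc hε hθ hε1 n
    have h1 := burk_low hp hp2 (a := a) (b := θ * a) hc (e := fun k x => ε k x * c k x)
      (fun k => (hε k).mul (hc k)) (by
        rw [abs_mul]; exact mul_le_of_le_one_left (abs_nonneg _) hθ)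
      (fun k x => by rw [abs_mul]; exact mul_le_of_le_one_left (abs_nonneg _) (hε1 k x)) n
    unfold nm
    rw [← Real.mul_rpow (by
      have : 0 < p - 1 := by linarith
      positivity) (E_rpow_nonneg p _)]
    exact Real.rpow_le_rpow (E_rpow_nonneg p _) h1 (by positivity)
  rcases le_total p 2 with h2 | h2
  · refine ⟨(8 / (p - 1)) ^ (1 / p), ?_, low hp h2⟩
    have : 0 < p - 1 := by linarith
    positivity
  · -- duality
    set q := p / (p - 1) with hq
    have hp1 : 0 < p - 1 := by linarith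
    have hpq : p.HolderConjugate q := Real.HolderConjugate.conjExponent hp
    have hq1 : 1 < q := hpq.symm.lt
    have hq2 : q ≤ 2 := by rw [hq, div_le_iff₀ hp1]; linarith
    have hq0 : 0 < q := by linarith
    have hp0 : 0 < p := by linarith
    refine ⟨(8 / (q - 1)) ^ (1 / q), ?_, ?_⟩
    · have : 0 < q - 1 := by linarith
      positivity
    intro a θ c ε hc hε hθ hε1 n
    set g := mart (θ * a) (fun k x => ε k x * c k x) n with hg
    have hεc : ∀ k, Dep k (fun x => ε k x * c k x) := fun k => (hε k).mul (hc k)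
    have hgD : Dep n g := dep_mart hεc n
    have hhD : Dep n (fun x => |g x| ^ (p - 2) * g x) := hgD.map (fun u => |u| ^ (p - 2) * u)
    obtain ⟨α, γ, hγ, hαγ⟩ := mart_rep n _ hhD
    have e1 : E (fun x => g x * mart α γ n x) =
        E (fun x => mart a c n x * mart (θ * α) (fun k x => ε k x * γ k x) n x) := by
      rw [hg, E_mart_mul hεc hγ, E_mart_mul hc (fun k => (hε k).mul (hγ k))]
      have : ∀ k ∈ range n, E (fun x => ε k x * c k x * γ k x) =
          E (fun x => c k x * (ε k x * γ k x)) := by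
        intro k _
        congr 1
        funext x; ring
      rw [sum_congr rfl this]
      ring
    have e2 : E (fun x => g x * mart α γ n x) = E (fun x => |g x| ^ p) := by
      rw [← hαγ]
      congr 1
      funext x
      have : |g x| ^ p = |g x| ^ (p - 2) * |g x| ^ (2:ℝ) := by
        rcases eq_or_ne (g x) 0 with h0 | h0
        · rw [h0, abs_zero, Real.zero_rpow hp0.ne', Real.zero_rpow (by norm_num : (2:ℝ) ≠ 0),
            mul_zero]
        · rw [← Real.rpow_add (abs_pos.mpr h0)]
          congr 1; ring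
      rw [this, Real.rpow_two, sq_abs]
      ring
    have e3 : nm q (mart α γ n) ^ q = E (fun x => |g x| ^ p) := by
      rw [nm_rpow hq0, ← hαγ]
      congr 1
      funext x
      rw [abs_mul, abs_of_nonneg (Real.rpow_nonneg (abs_nonneg _) _)]
      rcases eq_or_ne (g x) 0 with h0 | h0
      · rw [h0, abs_zero, mul_zero, Real.zero_rpow hq0.ne', Real.zero_rpow hp0.ne']
      · have h3 : 0 < |g x| := abs_pos.mpr h0
        have h4 : |g x| ^ (p - 2) * |g x| = |g x| ^ (p - 1) := by
          rw [show p - 1 = (p - 2) + 1 by ring, Real.rpow_add h3, Real.rpow_one]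
        rw [h4, ← Real.rpow_mul h3.le]
        congr 1
        rw [hq]; field_simp
    have e4 : E (fun x => |g x| ^ p) ≤ nm p (mart a c n) *
        ((8 / (q - 1)) ^ (1 / q) * nm q (mart α γ n)) := by
      rw [← e2, e1]
      refine (le_abs_self _).trans ((holder hpq (dep_mart hc n)
        (dep_mart (fun k => (hε k).mul (hγ k)) n)).trans ?_)
      exact mul_le_mul_of_nonneg_left (low hq1 hq2 α θ γ ε hγ hε hθ hε1 n) (nm_nonneg _ _)
    set Y := E (fun x => |g x| ^ p) with hY
    have hY0 : 0 ≤ Y := E_rpow_nonneg p g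
    rcases hY0.eq_or_lt with h0 | h0
    · have : nm p g = 0 := by
        unfold nm
        rw [← hY, ← h0, Real.zero_rpow (by positivity)]
      rw [this]
      have : 0 < q - 1 := by linarith
      have := nm_nonneg p (mart a c n)
      positivity
    · have e5 : nm q (mart α γ n) = Y ^ (1 / q) := by
        rw [← e3, ← Real.rpow_mul (nm_nonneg _ _), mul_one_div, div_self hq0.ne', Real.rpow_one]
      have e6 : nm p g * Y ^ (1 / q) = Y := by
        unfold nm
        rw [← hY, ← Real.rpow_add h0]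
        have : 1 / p + 1 / q = 1 := by
          have := hpq.inv_add_inv_eq_one
          simpa [one_div] using this
        rw [this, Real.rpow_one]
      have e7 : 0 < Y ^ (1 / q) := by positivity
      rw [e5] at e4
      have e8 : nm p g * Y ^ (1 / q) ≤ ((8 / (q - 1)) ^ (1 / q) * nm p (mart a c n)) *
          Y ^ (1 / q) := by
        rw [e6]
        calc Y ≤ _ := e4
          _ = _ := by ring
      exact le_of_mul_le_mul_right e8 e7

/-! ### Khinchine -/

/-- Rademacher sum. -/
def rsum (S : Finset ℕ) (c : ℕ → ℝ) (x : ℕ → Bool) : ℝ := ∑ k ∈ S, c k * rd k x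

lemma exists_dep_rsum (S : Finset ℕ) : ∃ n, (∀ k ∈ S, k < n) ∧ ∀ c, Dep n (rsum S c) := by
  refine ⟨S.sup id + 1, fun k hk => Nat.lt_succ_of_le (le_sup (f := id) hk), fun c => ?_⟩
  apply Dep.sum
  intro k hk
  exact ((dep_const _ (c k)).mul ((dep_rd k).mono (by
    have : k ≤ S.sup id := le_sup (f := id) hk
    omega)))

lemma E_exp_rsum (S : Finset ℕ) (c : ℕ → ℝ) :
    E (fun x => Real.exp (rsum S c x)) ≤ Real.exp ((∑ k ∈ S, c k ^ 2) / 2) := by
  classical
  induction S using Finset.induction_on with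
  | empty =>
    have : (fun x => Real.exp (rsum ∅ c x)) = fun _ => (1:ℝ) := by
      funext x; simp [rsum]
    rw [this, E_const]; simp
  | insert j S hj ih =>
    obtain ⟨n, hn, hD⟩ := exists_dep_rsum (insert j S)
    have hD1 := hD c
    have hDS : Dep n (rsum S c) := by
      apply Dep.sum
      intro k hk
      exact ((dep_const _ (c k)).mul ((dep_rd k).mono (hn k (mem_insert_of_mem hk))))
    rw [E_split (hD1.map Real.exp) (fun i => decide (i = j))]
    have h1 : (fun x => (Real.exp (rsum (insert j S) c x) +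
        Real.exp (rsum (insert j S) c (flipS (fun i => decide (i = j)) x))) / 2) =
        fun x => Real.cosh (c j) * Real.exp (rsum S c x) := by
      funext x
      have e1 : rsum (insert j S) c x = c j * rd j x + rsum S c x := by
        simp only [rsum]; rw [sum_insert hj]
      have e2 : rsum (insert j S) c (flipS (fun i => decide (i = j)) x) =
          -(c j * rd j x) + rsum S c x := by
        simp only [rsum]
        rw [sum_insert hj, rd_flip]
        simp only [decide_true, if_true]
        have : ∑ k ∈ S, c k * rd k (flipS (fun i => decide (i = j)) x) =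
            ∑ k ∈ S, c k * rd k x := by
          apply sum_congr rfl
          intro k hk
          have hne : k ≠ j := fun e => hj (e ▸ hk)
          rw [rd_flip]; simp [hne]
        rw [this]; ring
      rw [e1, e2, Real.exp_add, Real.exp_add, Real.cosh_eq]
      unfold rd
      split_ifs
      · rw [mul_neg, mul_one, neg_neg]; ring
      · rw [mul_one]; ring
    rw [h1, E_mul_left, sum_insert hj, add_div, Real.exp_add]
    exact mul_le_mul (Real.cosh_le_exp_half_sq _) ih (E_nonneg fun x => (Real.exp_pos _).le)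
      (Real.exp_pos _).le

lemma E_rsum_sq (S : Finset ℕ) (c : ℕ → ℝ) :
    E (fun x => rsum S c x * rsum S c x) = ∑ k ∈ S, c k ^ 2 := by
  classical
  obtain ⟨n, hn, hD⟩ := exists_dep_rsum S
  have h1 : (fun x => rsum S c x * rsum S c x) =
      fun x => ∑ k ∈ S, c k * (rsum S c x * rd k x) := by
    funext x
    change (∑ k ∈ S, c k * rd k x) * rsum S c x = _
    rw [sum_mul]
    apply sum_congr rfl
    intro k _
    ring
  have hDk : ∀ k ∈ S, Dep n (fun x => rsum S c x * rd k x) := fun k hk =>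
    (hD c).mul ((dep_rd k).mono (hn k hk))
  rw [h1, E_sum S (fun k hk => (dep_const n (c k)).mul (hDk k hk))]
  apply sum_congr rfl
  intro k hk
  rw [E_mul_left]
  have h2 : (fun x => rsum S c x * rd k x) =
      fun x => c k + rsum (S.erase k) c x * rd k x := by
    funext x
    have : rsum S c x = c k * rd k x + rsum (S.erase k) c x := by
      simp only [rsum]; rw [← add_sum_erase S _ hk]
    rw [this]
    linear_combination c k * rd_sq k x
  have hDe : Dep n (rsum (S.erase k) c) := by
    apply Dep.sum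
    intro l hl
    exact ((dep_const _ (c l)).mul ((dep_rd l).mono (hn l (mem_of_mem_erase hl))))
  rw [h2, E_add (dep_const n (c k)) (hDe.mul ((dep_rd k).mono (hn k hk))), E_const,
    E_rd_zero hDe k]
  · ring
  · intro x
    simp only [rsum]
    apply sum_congr rfl
    intro l hl
    have hne : l ≠ k := ne_of_mem_erase hl
    rw [rd_flip]; simp [hne]

/-- Upper Khinchine inequality. -/
theorem khin_up {q : ℝ} (hq : 1 ≤ q) : ∃ C : ℝ, 0 < C ∧ ∀ (S : Finset ℕ) (c : ℕ → ℝ),
    nm q (rsum S c) ≤ C * Real.sqrt (∑ k ∈ S, c k ^ 2) := by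
  have hq0 : 0 < q := by linarith
  refine ⟨(q ^ q * (2 * Real.exp (1 / 2))) ^ (1 / q), by positivity, ?_⟩
  intro S c
  set σ2 := ∑ k ∈ S, c k ^ 2 with hσ
  have hσ0 : 0 ≤ σ2 := sum_nonneg fun _ _ => sq_nonneg _
  rcases hσ0.eq_or_lt with h0 | h0
  · have hz : ∀ k ∈ S, c k = 0 := by
      intro k hk
      have := (sum_eq_zero_iff_of_nonneg (fun i _ => sq_nonneg (c i))).mp (hσ ▸ h0.symm) k hk
      exact pow_eq_zero_iff (two_ne_zero) |>.mp this
    have : rsum S c = fun _ => 0 := by
      funext x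
      simp only [rsum]
      exact sum_eq_zero fun k hk => by rw [hz k hk, zero_mul]
    rw [this, ← h0, Real.sqrt_zero, mul_zero]
    unfold nm
    simp only [abs_zero, Real.zero_rpow hq0.ne', E_const]
    rw [Real.zero_rpow (by positivity)]
  · set σ := Real.sqrt σ2 with hσs
    have hσp : 0 < σ := Real.sqrt_pos.mpr h0
    have hσsq : σ ^ 2 = σ2 := Real.sq_sqrt hσ0
    set d : ℕ → ℝ := fun k => c k / σ with hd
    have h1 : rsum S c = fun x => σ * rsum S d x := by
      funext x
      simp only [rsum, hd, mul_sum]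
      apply sum_congr rfl
      intro k _
      field_simp
    have h2 : ∑ k ∈ S, d k ^ 2 = 1 := by
      simp only [hd, div_pow, ← sum_div]
      rw [← hσ, hσsq, div_self h0.ne']
    rw [h1, nm_smul hq0, abs_of_pos hσp, mul_comm]
    apply mul_le_mul_of_nonneg_right _ hσp.le
    unfold nm
    apply Real.rpow_le_rpow (E_rpow_nonneg q _) _ (by positivity)
    obtain ⟨n, hn, hD⟩ := exists_dep_rsum S
    have hpt : ∀ y : ℝ, |y| ^ q ≤ q ^ q * (Real.exp y + Real.exp (-y)) := by
      intro y
      have e1 : |y| / q ≤ Real.exp (|y| / q) := by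
        have := Real.add_one_le_exp (|y| / q)
        linarith
      have e2 : |y| ^ q ≤ q ^ q * Real.exp |y| := by
        have e3 : (|y| / q) ^ q ≤ (Real.exp (|y| / q)) ^ q :=
          Real.rpow_le_rpow (by positivity) e1 hq0.le
        rw [← Real.exp_mul, div_mul_cancel₀ _ hq0.ne', Real.div_rpow (abs_nonneg _) hq0.le,
          div_le_iff₀ (by positivity)] at e3
        linarith
      have e4 : Real.exp |y| ≤ Real.exp y + Real.exp (-y) := by
        rcases abs_choice y with h | h <;> rw [h]
        · linarith [Real.exp_pos (-y)]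
        · linarith [Real.exp_pos y]
      exact e2.trans (mul_le_mul_of_nonneg_left e4 (by positivity))
    have e5 : E (fun x => |rsum S d x| ^ q) ≤
        E (fun x => q ^ q * (Real.exp (rsum S d x) + Real.exp (-rsum S d x))) :=
      E_mono ((hD d).map (fun u => |u| ^ q))
        ((hD d).map (fun u => q ^ q * (Real.exp u + Real.exp (-u)))) (fun x => hpt _)
    refine e5.trans ?_
    rw [E_mul_left]
    apply mul_le_mul_of_nonneg_left _ (by positivity)
    rw [E_add ((hD d).map Real.exp) ((hD d).map (fun u => Real.exp (-u)))]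
    have e6 := E_exp_rsum S d
    have e7 := E_exp_rsum S (fun k => -d k)
    have e8 : (fun x => Real.exp (rsum S (fun k => -d k) x)) =
        fun x => Real.exp (-rsum S d x) := by
      funext x
      congr 1
      simp only [rsum, neg_mul, sum_neg_distrib]
    rw [e8] at e7
    simp only [neg_sq] at e7
    rw [h2] at e6 e7
    linarith

/-- Lower Khinchine inequality. -/
theorem khin_low {q : ℝ} (hq : 1 < q) : ∃ C : ℝ, 0 < C ∧ ∀ (S : Finset ℕ) (c : ℕ → ℝ),
    Real.sqrt (∑ k ∈ S, c k ^ 2) ≤ C * nm q (rsum S c) := by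
  have hpq : q.HolderConjugate (q / (q - 1)) := Real.HolderConjugate.conjExponent hq
  obtain ⟨C, hC, h1⟩ := khin_up (le_of_lt hpq.symm.lt)
  refine ⟨C, hC, fun S c => ?_⟩
  obtain ⟨n, hn, hD⟩ := exists_dep_rsum S
  have h2 := holder hpq (hD c) (hD c)
  rw [E_rsum_sq, abs_of_nonneg (sum_nonneg fun _ _ => sq_nonneg _)] at h2
  have h3 := h1 S c
  set σ2 := ∑ k ∈ S, c k ^ 2 with hσ
  have hσ0 : 0 ≤ σ2 := sum_nonneg fun _ _ => sq_nonneg _
  rcases hσ0.eq_or_lt with h0 | h0
  · rw [← h0, Real.sqrt_zero]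
    exact mul_nonneg hC.le (nm_nonneg _ _)
  · have hσp : 0 < Real.sqrt σ2 := Real.sqrt_pos.mpr h0
    have h4 : Real.sqrt σ2 * Real.sqrt σ2 = σ2 := Real.mul_self_sqrt hσ0
    have h5 : Real.sqrt σ2 * Real.sqrt σ2 ≤ (C * nm q (rsum S c)) * Real.sqrt σ2 := by
      rw [h4]
      calc σ2 ≤ nm q (rsum S c) * nm (q / (q - 1)) (rsum S c) := h2
        _ ≤ nm q (rsum S c) * (C * Real.sqrt σ2) :=
            mul_le_mul_of_nonneg_left h3 (nm_nonneg _ _)
        _ = _ := by ring
    exact le_of_mul_le_mul_right h5 hσp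

/-- Rademacher coefficients. -/
theorem coef_bound {p : ℝ} (hp : 1 < p) : ∃ C : ℝ, 0 < C ∧ ∀ (n : ℕ) (F : (ℕ → Bool) → ℝ),
    Dep n F → ∀ S : Finset ℕ,
      Real.sqrt (∑ k ∈ S, E (fun x => F x * rd k x) ^ 2) ≤ C * nm p F := by
  have hpq : p.HolderConjugate (p / (p - 1)) := Real.HolderConjugate.conjExponent hp
  obtain ⟨C, hC, h1⟩ := khin_up (le_of_lt hpq.symm.lt)
  refine ⟨C, hC, fun n F hF S => ?_⟩
  obtain ⟨m, hm, hD⟩ := exists_dep_rsum S
  set c : ℕ → ℝ := fun k => E (fun x => F x * rd k x) with hc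
  have hF' := hF.mono (le_max_left n m)
  have h2 := holder hpq hF' ((hD c).mono (le_max_right n m))
  have h3 : E (fun x => F x * rsum S c x) = ∑ k ∈ S, c k ^ 2 := by
    have e1 : (fun x => F x * rsum S c x) = fun x => ∑ k ∈ S, c k * (F x * rd k x) := by
      funext x
      simp only [rsum, mul_sum]
      apply sum_congr rfl
      intro k _
      ring
    rw [e1, E_sum (n := max n m) S (fun k hk => (dep_const _ (c k)).mul
      (hF'.mul ((dep_rd k).mono ((hm k hk).trans_le (le_max_right n m)))))]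
    apply sum_congr rfl
    intro k _
    rw [E_mul_left, sq]
  rw [h3, abs_of_nonneg (sum_nonneg fun _ _ => sq_nonneg _)] at h2
  have h4 := h1 S c
  set σ2 := ∑ k ∈ S, c k ^ 2 with hσ
  have hσ0 : 0 ≤ σ2 := sum_nonneg fun _ _ => sq_nonneg _
  rcases hσ0.eq_or_lt with h0 | h0
  · rw [← h0, Real.sqrt_zero]
    exact mul_nonneg hC.le (nm_nonneg _ _)
  · have hσp : 0 < Real.sqrt σ2 := Real.sqrt_pos.mpr h0
    have h5 : Real.sqrt σ2 * Real.sqrt σ2 = σ2 := Real.mul_self_sqrt hσ0
    have h6 : Real.sqrt σ2 * Real.sqrt σ2 ≤ (C * nm p F) * Real.sqrt σ2 := by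
      rw [h5]
      calc σ2 ≤ nm p F * nm (p / (p - 1)) (rsum S c) := h2
        _ ≤ nm p F * (C * Real.sqrt σ2) := mul_le_mul_of_nonneg_left h4 (nm_nonneg _ _)
        _ = _ := by ring
    exact le_of_mul_le_mul_right h6 hσp

end Pool.Agent.H66R3.PG
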