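import Mathlib
import Pool.Agent.H66R3.PG.Khin

/-! Haar functions on cylinders and the modified system containing Rademacher functions. -/

set_option autoImplicit false

open MeasureTheory Finset

namespace Pool.Agent.H66R3.PG

/-- The word of the first `k` digits. -/
def pre (k : ℕ) (x : ℕ → Bool) : List Bool := (List.range k).map x

lemma pre_length (k : ℕ) (x : ℕ → Bool) : (pre k x).length = k := by simp [pre]

lemma pre_congr {k : ℕ} {x y : ℕ → Bool} (h : ∀ i < k, x i = y i) : pre k x = pre k y := by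
  unfold pre
  apply List.map_congr_left
  intro i hi
  exact h i (List.mem_range.mp hi)

lemma pre_eq_iff (l : List Bool) (x : ℕ → Bool) :
    pre l.length x = l ↔ ∀ i < l.length, x i = l.getD i false := by
  constructor
  · intro h i hi
    have h1 : (pre l.length x).getD i false = x i := by
      unfold pre
      rw [List.getD_eq_getElem?_getD, List.getElem?_map, List.getElem?_range hi]
      simp
    rw [← h1, h]
  · intro h
    apply List.ext_getElem
    · simp [pre]
    · intro i h1 h2
      have h3 := h i h2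
      rw [List.getD_eq_getElem _ _ h2] at h3
      simp only [pre, List.getElem_map, List.getElem_range]
      exact h3

/-- Indicator of a cell. -/
def cellI (l : List Bool) (x : ℕ → Bool) : ℝ := if pre l.length x = l then 1 else 0

lemma dep_cellI (l : List Bool) : Dep l.length (cellI l) := by
  intro x y h
  unfold cellI
  rw [pre_congr h]

lemma E_cellI (l : List Bool) : E (cellI l) = (1 / 2) ^ l.length := by
  have h1 : (fun x => cellI l (dig x)) =
      Set.indicator {x | ∀ i < l.length, dig x i = l.getD i false} (fun _ => (1:ℝ)) := by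
    funext x
    unfold cellI Set.indicator
    simp only [pre_eq_iff, Set.mem_ofPred_eq]
  have h2 : MeasurableSet {x | ∀ i < l.length, dig x i = l.getD i false} := by
    have : {x | ∀ i < l.length, dig x i = l.getD i false} =
        ⋂ i ∈ Set.Iio l.length, {x | dig x i = l.getD i false} := by
      ext x; simp
    rw [this]
    apply MeasurableSet.biInter (Set.to_countable _)
    intro i _
    exact measurable_dig i (measurableSet_singleton _)
  unfold E
  rw [h1, integral_indicator h2, setIntegral_const, smul_eq_mul, mul_one, Measure.real, mu_cell,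
    ENNReal.toReal_ofReal (by positivity)]

/-- Normalizing factor. -/
noncomputable def wt (p : ℝ) (k : ℕ) : ℝ := ((2 : ℝ) ^ k) ^ (1 / p)

lemma wt_pos (p : ℝ) (k : ℕ) : 0 < wt p k := by unfold wt; positivity

/-- Haar functions, normalized in `L_p`. -/
noncomputable def haar (p : ℝ) (l : List Bool) (x : ℕ → Bool) : ℝ :=
  wt p l.length * cellI l x * rd l.length x

lemma dep_haar (p : ℝ) (l : List Bool) : Dep (l.length + 1) (haar p l) :=
  (((dep_const _ _).mul (dep_cellI l)).mono (Nat.le_succ _)).mul (dep_rd _)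

lemma cellI_abs_rpow {p : ℝ} (hp : 0 < p) (l : List Bool) (x : ℕ → Bool) :
    |cellI l x| ^ p = cellI l x := by
  unfold cellI
  split_ifs
  · simp
  · rw [abs_zero, Real.zero_rpow hp.ne']

lemma haar_norm {p : ℝ} (hp : 0 < p) (l : List Bool) : E (fun x => |haar p l x| ^ p) = 1 := by
  have h1 : (fun x => |haar p l x| ^ p) = fun x => wt p l.length ^ p * cellI l x := by
    funext x
    unfold haar
    rw [abs_mul, rd_abs, mul_one, abs_mul, Real.mul_rpow (abs_nonneg _) (abs_nonneg _),
      cellI_abs_rpow hp, abs_of_pos (wt_pos p _)]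
  rw [h1, E_mul_left, E_cellI]
  unfold wt
  rw [← Real.rpow_mul (by positivity), one_div, inv_mul_cancel₀ hp.ne', Real.rpow_one, ← mul_pow]
  norm_num

/-- Rademacher coefficient of a Haar function. -/
noncomputable def bet (p : ℝ) (k : ℕ) : ℝ := wt p k * (1 / 2) ^ k

lemma E_haar_rd (p : ℝ) (l : List Bool) (j : ℕ) :
    E (fun x => haar p l x * rd j x) = if j = l.length then bet p l.length else 0 := by
  rcases lt_trichotomy j l.length with h | h | h
  · rw [if_neg (by omega)]
    have h1 : (fun x => haar p l x * rd j x) =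
        fun x => (wt p l.length * cellI l x * rd j x) * rd l.length x := by
      funext x; unfold haar; ring
    have hD : Dep l.length (fun x => wt p l.length * cellI l x * rd j x) :=
      ((dep_const _ _).mul (dep_cellI l)).mul ((dep_rd j).mono h)
    rw [h1, E_rd_zero hD _ (flip_of_dep hD le_rfl)]
  · subst h
    rw [if_pos rfl]
    have h1 : (fun x => haar p l x * rd l.length x) = fun x => wt p l.length * cellI l x := by
      funext x
      unfold haar
      linear_combination (wt p l.length * cellI l x) * rd_sq l.length x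
    rw [h1, E_mul_left, E_cellI]
    rfl
  · rw [if_neg (by omega)]
    exact E_rd_zero (dep_haar p l) j (flip_of_dep (dep_haar p l) h)

lemma E_rd_rd (k j : ℕ) : E (fun x => rd k x * rd j x) = if k = j then 1 else 0 := by
  rcases lt_trichotomy k j with h | h | h
  · rw [if_neg (by omega)]
    exact E_rd_zero (dep_rd k) j (flip_of_dep (dep_rd k) h)
  · subst h
    rw [if_pos rfl]
    simp only [rd_sq, E_const]
  · rw [if_neg (by omega)]
    have : (fun x => rd k x * rd j x) = fun x => rd j x * rd k x := by funext x; ring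
    rw [this]
    exact E_rd_zero (dep_rd j) k (flip_of_dep (dep_rd j) h)

/-! ### Haar sums are martingales -/

/-- A finite Haar sum. -/
noncomputable def hsum (p : ℝ) (A : Finset (List Bool)) (a0 : ℝ) (a : List Bool → ℝ)
    (x : ℕ → Bool) : ℝ := a0 + ∑ l ∈ A, a l * haar p l x

/-- The predictable coefficients. -/
noncomputable def cf (p : ℝ) (A : Finset (List Bool)) (a : List Bool → ℝ) (k : ℕ)
    (x : ℕ → Bool) : ℝ := if pre k x ∈ A then a (pre k x) * wt p k else 0

lemma dep_cf (p : ℝ) (A : Finset (List Bool)) (a : List Bool → ℝ) (k : ℕ) :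
    Dep k (cf p A a k) := by
  intro x y h
  unfold cf
  rw [pre_congr h]

/-- All words of `A` are shorter than `n`. -/
def lev (A : Finset (List Bool)) : ℕ := A.sup List.length + 1

lemma lt_lev {A : Finset (List Bool)} {l : List Bool} (h : l ∈ A) : l.length < lev A :=
  Nat.lt_succ_of_le (le_sup (f := List.length) h)

lemma hsum_eq_mart (p : ℝ) (A : Finset (List Bool)) (a0 : ℝ) (a : List Bool → ℝ) {n : ℕ}
    (hn : lev A ≤ n) : hsum p A a0 a = mart a0 (cf p A a) n := by
  funext x
  unfold hsum mart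
  congr 1
  have hmaps : ∀ l ∈ A, l.length ∈ range n := fun l hl => mem_range.mpr ((lt_lev hl).trans_le hn)
  rw [← sum_fiberwise_of_maps_to hmaps]
  apply sum_congr rfl
  intro k _
  by_cases hk : pre k x ∈ A
  · rw [sum_eq_single (pre k x)]
    · unfold haar cellI cf
      rw [pre_length, if_pos rfl, if_pos hk]
      ring
    · intro l hl hne
      rw [mem_filter] at hl
      unfold haar cellI
      have : pre l.length x ≠ l := by
        rw [hl.2]; exact fun e => hne e.symm
      rw [if_neg this]; ring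
    · intro h
      exfalso
      apply h
      rw [mem_filter]
      exact ⟨hk, pre_length k x⟩
  · unfold cf
    rw [if_neg hk, zero_mul]
    apply sum_eq_zero
    intro l hl
    rw [mem_filter] at hl
    unfold haar cellI
    have : pre l.length x ≠ l := by
      rw [hl.2]
      intro e
      exact hk (e ▸ hl.1)
    rw [if_neg this]; ring

lemma dep_hsum (p : ℝ) (A : Finset (List Bool)) (a0 : ℝ) (a : List Bool → ℝ) :
    Dep (lev A) (hsum p A a0 a) := by
  rw [hsum_eq_mart p A a0 a le_rfl]
  exact dep_mart (dep_cf p A a) _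

/-- Unconditionality of the Haar system. -/
theorem unc_haar {p : ℝ} (hp : 1 < p) : ∃ C : ℝ, 0 < C ∧ ∀ (A : Finset (List Bool))
    (a0 θ0 : ℝ) (a θ : List Bool → ℝ), |θ0| ≤ 1 → (∀ l, |θ l| ≤ 1) →
      nm p (hsum p A (θ0 * a0) (fun l => θ l * a l)) ≤ C * nm p (hsum p A a0 a) := by
  obtain ⟨C, hC, h⟩ := burk hp
  refine ⟨C, hC, fun A a0 θ0 a θ h0 hθ => ?_⟩
  rw [hsum_eq_mart p A _ _ le_rfl, hsum_eq_mart p A a0 a le_rfl]
  have h1 := h a0 θ0 (cf p A a) (fun k x => θ (pre k x)) (dep_cf p A a)
    (fun k x y hxy => by simp only [pre_congr hxy]) h0 (fun k x => hθ _) (lev A)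
  have h2 : (fun k x => θ (pre k x) * cf p A a k x) = cf p A (fun l => θ l * a l) := by
    funext k x
    unfold cf
    split_ifs
    · ring
    · ring
  rw [h2] at h1
  exact h1

/-! ### The operator `V` -/

/-- The shift of Rademacher components. -/
noncomputable def VV (n : ℕ) (F : (ℕ → Bool) → ℝ) (x : ℕ → Bool) : ℝ :=
  F x + ∑ k ∈ range n, E (fun y => F y * rd k y) * (rd (2 * k + 1) x - rd k x)

lemma dep_VV {n m : ℕ} {F : (ℕ → Bool) → ℝ} (hF : Dep m F) (hm : m ≤ 2 * n + 1) :
    Dep (2 * n + 1) (VV n F) := by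
  apply (hF.mono hm).add
  apply Dep.sum
  intro k hk
  rw [mem_range] at hk
  exact (dep_const _ _).mul (((dep_rd _).mono (by omega)).sub ((dep_rd k).mono (by omega)))

lemma E_VV {n : ℕ} {F : (ℕ → Bool) → ℝ} (hF : Dep n F) (j : ℕ) :
    E (fun x => VV n F x * rd j x) =
      ∑ k ∈ range n, if 2 * k + 1 = j then E (fun y => F y * rd k y) else 0 := by
  set q : ℕ → ℝ := fun k => E (fun y => F y * rd k y) with hq
  have h1 : (fun x => VV n F x * rd j x) = fun x => F x * rd j x +
      ∑ k ∈ range n, q k * (rd (2 * k + 1) x * rd j x - rd k x * rd j x) := by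
    funext x
    unfold VV
    rw [add_mul, sum_mul]
    congr 1
    apply sum_congr rfl
    intro k _
    ring
  have hN : ∀ k ∈ range n, Dep (2 * n + 1 + j + 1) (fun x => q k *
      (rd (2 * k + 1) x * rd j x - rd k x * rd j x)) := by
    intro k hk
    rw [mem_range] at hk
    exact (dep_const _ _).mul ((((dep_rd _).mono (by omega)).mul ((dep_rd _).mono (by omega))).sub
      (((dep_rd _).mono (by omega)).mul ((dep_rd _).mono (by omega))))
  rw [h1, E_add (n := 2 * n + 1 + j + 1) ((hF.mono (by omega)).mul ((dep_rd j).mono (by omega)))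
    (Dep.sum _ hN), E_sum _ hN]
  have h2 : ∀ k ∈ range n, E (fun x => q k * (rd (2 * k + 1) x * rd j x - rd k x * rd j x)) =
      (if 2 * k + 1 = j then q k else 0) - (if k = j then q k else 0) := by
    intro k _
    rw [E_mul_left, E_sub (n := 2 * k + 1 + j + 1) (((dep_rd _).mono (by omega)).mul
      ((dep_rd _).mono (by omega))) (((dep_rd _).mono (by omega)).mul ((dep_rd _).mono (by omega))),
      E_rd_rd, E_rd_rd]
    split_ifs <;> ring
  rw [sum_congr rfl h2, sum_sub_distrib, sum_ite_eq' (range n) j q]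
  have h3 : E (fun x => F x * rd j x) = if j ∈ range n then q j else 0 := by
    split_ifs with h
    · rfl
    · rw [mem_range, not_lt] at h
      exact E_rd_zero hF j (flip_of_dep hF h)
  rw [h3]
  ring

/-- Norm equivalence for `VV`. -/
theorem VV_equiv {p : ℝ} (hp : 1 < p) : ∃ C : ℝ, 0 < C ∧ ∀ (n : ℕ) (F : (ℕ → Bool) → ℝ),
    Dep n F → nm p (VV n F) ≤ C * nm p F ∧ nm p F ≤ C * nm p (VV n F) := by
  obtain ⟨C1, hC1, hup⟩ := khin_up hp.le
  obtain ⟨C2, hC2, hco⟩ := coef_bound hp
  have hp0 : 0 < p := by linarith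
  refine ⟨1 + 2 * (C1 * C2), by positivity, fun n F hF => ?_⟩
  set q : ℕ → ℝ := fun k => E (fun y => F y * rd k y) with hq
  set r1 : (ℕ → Bool) → ℝ := rsum (range n) q with hr1
  set S2 : Finset ℕ := (range n).image (fun k => 2 * k + 1) with hS2
  set r2 : (ℕ → Bool) → ℝ := rsum S2 (fun j => q ((j - 1) / 2)) with hr2
  have hinj : Set.InjOn (fun k : ℕ => 2 * k + 1) (range n) := by
    intro a _ b _ h
    simp only at h
    omega
  have hVr : VV n F = fun x => F x + (r2 x - r1 x) := by
    funext x
    unfold VV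
    rw [hr1, hr2, rsum, rsum, hS2, sum_image (fun a ha b hb h => hinj ha hb h), ← sum_sub_distrib]
    congr 1
    apply sum_congr rfl
    intro k _
    have : (2 * k + 1 - 1) / 2 = k := by omega
    rw [this]; ring
  have hn2 : ∀ (s : ℝ), Real.sqrt (∑ k ∈ range n, q k ^ 2) ≤ s → nm p r1 ≤ C1 * s ∧
      nm p r2 ≤ C1 * s := by
    intro s hs
    constructor
    · exact (hup (range n) q).trans (mul_le_mul_of_nonneg_left hs hC1.le)
    · refine (hup S2 _).trans (mul_le_mul_of_nonneg_left ?_ hC1.le)
      have : ∑ k ∈ S2, q ((k - 1) / 2) ^ 2 = ∑ k ∈ range n, q k ^ 2 := by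
        rw [hS2, sum_image (fun a ha b hb h => hinj ha hb h)]
        apply sum_congr rfl
        intro k _
        have : (2 * k + 1 - 1) / 2 = k := by omega
        rw [this]
      rw [this]; exact hs
  have hDF : Dep (2 * n + 1) F := hF.mono (by omega)
  have hD1 : Dep (2 * n + 1) r1 := by
    apply Dep.sum
    intro k hk
    rw [mem_range] at hk
    exact (dep_const _ _).mul ((dep_rd k).mono (by omega))
  have hD2 : Dep (2 * n + 1) r2 := by
    apply Dep.sum
    intro j hj
    rw [hS2, mem_image] at hj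
    obtain ⟨k, hk, rfl⟩ := hj
    rw [mem_range] at hk
    exact (dep_const _ _).mul ((dep_rd _).mono (by omega))
  constructor
  · have h1 := hn2 _ (hco n F hF (range n))
    rw [hVr]
    have h2 := nm_add hp.le hDF (hD2.sub hD1)
    have h3 := nm_sub hp.le hD2 hD1
    calc _ ≤ _ := h2
      _ ≤ nm p F + (nm p r2 + nm p r1) := by linarith
      _ ≤ nm p F + (C1 * (C2 * nm p F) + C1 * (C2 * nm p F)) := by linarith [h1.1, h1.2]
      _ = _ := by ring
  · -- coefficients of `F` seen from `VV n F`
    have hDV : Dep (2 * n + 1) (VV n F) := dep_VV hF (by omega)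
    have h0 : ∑ j ∈ S2, E (fun x => VV n F x * rd j x) ^ 2 = ∑ k ∈ range n, q k ^ 2 := by
      rw [hS2, sum_image (fun a ha b hb h => hinj ha hb h)]
      apply sum_congr rfl
      intro k hk
      rw [E_VV hF]
      congr 1
      rw [sum_eq_single k]
      · rw [if_pos rfl]
      · intro b _ hbk
        rw [if_neg (by omega)]
      · intro h; exact absurd hk h
    have h00 := hco (2 * n + 1) _ hDV S2
    rw [h0] at h00
    have h1 := hn2 _ h00
    have hFr : F = fun x => VV n F x + (r1 x - r2 x) := by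
      funext x
      rw [hVr]; ring
    have h2 : nm p F ≤ nm p (VV n F) + nm p (fun x => r1 x - r2 x) := by
      conv_lhs => rw [hFr]
      exact nm_add hp.le hDV (hD1.sub hD2)
    have h3 := nm_sub hp.le hD1 hD2
    calc _ ≤ _ := h2
      _ ≤ nm p (VV n F) + (nm p r1 + nm p r2) := by linarith
      _ ≤ nm p (VV n F) + (C1 * (C2 * nm p (VV n F)) + C1 * (C2 * nm p (VV n F))) := by
          linarith [h1.1, h1.2]
      _ = _ := by ring

/-- The modified Haar functions. -/
noncomputable def vv (p : ℝ) (l : List Bool) (x : ℕ → Bool) : ℝ :=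
  haar p l x + bet p l.length * (rd (2 * l.length + 1) x - rd l.length x)

/-- Sums over the left system. -/
noncomputable def lsum (p : ℝ) (A : Finset (List Bool)) (B : Finset ℕ) (a0 : ℝ)
    (a : List Bool → ℝ) (c : ℕ → ℝ) (x : ℕ → Bool) : ℝ :=
  a0 + ∑ l ∈ A, a l * vv p l x + ∑ j ∈ B, c j * rd (2 * j) x

lemma VV_hsum (p : ℝ) (A : Finset (List Bool)) (a0 : ℝ) (a : List Bool → ℝ) {n : ℕ}
    (hn : lev A ≤ n) (x : ℕ → Bool) :
    VV n (hsum p A a0 a) x = a0 + ∑ l ∈ A, a l * vv p l x := by
  have hD : ∀ l ∈ A, Dep n (haar p l) := fun l hl => (dep_haar p l).mono ((lt_lev hl).trans_le hn)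
  have h1 : ∀ k ∈ range n, E (fun y => hsum p A a0 a y * rd k y) =
      ∑ l ∈ A, a l * (if k = l.length then bet p l.length else 0) := by
    intro k hk
    rw [mem_range] at hk
    have e1 : (fun y => hsum p A a0 a y * rd k y) =
        fun y => a0 * rd k y + ∑ l ∈ A, a l * (haar p l y * rd k y) := by
      funext y
      unfold hsum
      rw [add_mul, sum_mul]
      congr 1
      apply sum_congr rfl
      intro l _
      ring
    have hk' : Dep n (rd k) := (dep_rd k).mono hk
    have hl' : ∀ l ∈ A, Dep n (fun y => a l * (haar p l y * rd k y)) := fun l hl =>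
      (dep_const _ _).mul ((hD l hl).mul hk')
    rw [e1, E_add ((dep_const n a0).mul hk') (Dep.sum _ hl'), E_sum _ hl']
    have e2 : E (fun y => a0 * rd k y) = 0 := by
      have := E_rd_zero (dep_const 0 a0) k (fun x => rfl)
      exact this
    rw [e2, zero_add]
    apply sum_congr rfl
    intro l _
    rw [E_mul_left, E_haar_rd]
  unfold VV
  rw [sum_congr rfl (fun k hk => by rw [h1 k hk, sum_mul]), sum_comm]
  unfold hsum
  rw [add_assoc, ← sum_add_distrib]
  congr 1
  apply sum_congr rfl
  intro l hl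
  have h2 : ∀ k ∈ range n, a l * (if k = l.length then bet p l.length else 0) *
      (rd (2 * k + 1) x - rd k x) = if k = l.length then
        a l * bet p l.length * (rd (2 * l.length + 1) x - rd l.length x) else 0 := by
    intro k _
    split_ifs with h
    · rw [h]
    · ring
  rw [sum_congr rfl h2, sum_ite_eq' (range n) l.length, if_pos (mem_range.mpr
    ((lt_lev hl).trans_le hn))]
  unfold vv
  ring

/-- Unconditionality of the left system. -/
theorem unc_left {p : ℝ} (hp : 1 < p) : ∃ C : ℝ, 0 < C ∧ ∀ (A : Finset (List Bool))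
    (B : Finset ℕ) (a0 θ0 : ℝ) (a θ : List Bool → ℝ) (c η : ℕ → ℝ), |θ0| ≤ 1 →
      (∀ l, |θ l| ≤ 1) → (∀ j, |η j| ≤ 1) →
      nm p (lsum p A B (θ0 * a0) (fun l => θ l * a l) (fun j => η j * c j)) ≤
        C * nm p (lsum p A B a0 a c) := by
  obtain ⟨C1, hC1, hup⟩ := khin_up hp.le
  obtain ⟨C2, hC2, hco⟩ := coef_bound hp
  obtain ⟨C3, hC3, hV⟩ := VV_equiv hp
  obtain ⟨C4, hC4, hH⟩ := unc_haar hp
  refine ⟨C3 * (C4 * (C3 * (1 + C1 * C2))) + C1 * C2, by positivity, ?_⟩
  intro A B a0 θ0 a θ c η h0 hθ hη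
  set n := lev A with hn
  have hinj : Set.InjOn (fun k : ℕ => 2 * k) B := by
    intro x _ y _ h
    simp only at h
    omega
  -- the Rademacher part
  set SB : Finset ℕ := B.image (fun k => 2 * k) with hSB
  have hR : ∀ d : ℕ → ℝ, (fun x => ∑ j ∈ B, d j * rd (2 * j) x) = rsum SB (fun j => d (j / 2)) := by
    intro d
    funext x
    rw [rsum, hSB, sum_image (fun a ha b hb h => hinj ha hb h)]
    apply sum_congr rfl
    intro j _
    have : 2 * j / 2 = j := by omega
    rw [this]
  have hdec : ∀ (a0 : ℝ) (a : List Bool → ℝ) (d : ℕ → ℝ), lsum p A B a0 a d =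
      fun x => VV n (hsum p A a0 a) x + rsum SB (fun j => d (j / 2)) x := by
    intro a0 a d
    funext x
    rw [VV_hsum p A a0 a le_rfl, ← hR d]
    rfl
  obtain ⟨M0, hM0, hMD⟩ := exists_dep_rsum SB
  set M := max M0 (2 * n + 1) with hM
  have hDV : ∀ (a0 : ℝ) (a : List Bool → ℝ), Dep M (VV n (hsum p A a0 a)) := fun a0 a =>
    (dep_VV (dep_hsum p A a0 a) (by omega)).mono (le_max_right _ _)
  have hDR : ∀ c, Dep M (rsum SB c) := fun c => (hMD c).mono (le_max_left _ _)
  have hDl : Dep M (lsum p A B a0 a c) := by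
    rw [hdec]; exact (hDV a0 a).add (hDR _)
  -- coefficients
  have hcoef : ∀ j ∈ B, E (fun x => lsum p A B a0 a c x * rd (2 * j) x) = c j := by
    intro j hj
    have hjS : 2 * j ∈ SB := by rw [hSB]; exact mem_image_of_mem _ hj
    have hrdM : Dep M (rd (2 * j)) := (dep_rd _).mono ((hM0 _ hjS).trans_le (le_max_left _ _))
    have e1 : (fun x => lsum p A B a0 a c x * rd (2 * j) x) =
        fun x => VV n (hsum p A a0 a) x * rd (2 * j) x +
          rsum SB (fun j => c (j / 2)) x * rd (2 * j) x := by
      rw [hdec]; funext x; ring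
    rw [e1, E_add ((hDV a0 a).mul hrdM) ((hDR _).mul hrdM), E_VV (dep_hsum p A a0 a)]
    have e2 : ∑ k ∈ range n, (if 2 * k + 1 = 2 * j then
        E (fun y => hsum p A a0 a y * rd k y) else 0) = 0 := by
      apply sum_eq_zero
      intro k _
      rw [if_neg (by omega)]
    rw [e2, zero_add]
    have e3 : (fun x => rsum SB (fun j => c (j / 2)) x * rd (2 * j) x) =
        fun x => ∑ i ∈ SB, c (i / 2) * (rd i x * rd (2 * j) x) := by
      funext x
      rw [rsum, sum_mul]
      apply sum_congr rfl
      intro i _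
      ring
    have e4 : ∀ i ∈ SB, Dep M (fun x => c (i / 2) * (rd i x * rd (2 * j) x)) := fun i hi =>
      (dep_const _ _).mul (((dep_rd i).mono ((hM0 _ hi).trans_le (le_max_left _ _))).mul hrdM)
    rw [e3, E_sum SB e4]
    rw [sum_eq_single (2 * j)]
    · rw [E_mul_left, E_rd_rd, if_pos rfl, mul_one]
      congr 1
      omega
    · intro i _ hij
      rw [E_mul_left, E_rd_rd, if_neg hij, mul_zero]
    · intro h; exact absurd hjS h
  have hc2 : Real.sqrt (∑ j ∈ SB, c (j / 2) ^ 2) ≤ C2 * nm p (lsum p A B a0 a c) := by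
    have h1 := hco M _ hDl SB
    have h2 : ∑ k ∈ SB, E (fun x => lsum p A B a0 a c x * rd k x) ^ 2 =
        ∑ j ∈ SB, c (j / 2) ^ 2 := by
      apply sum_congr rfl
      intro k hk
      rw [hSB, mem_image] at hk
      obtain ⟨j, hj, rfl⟩ := hk
      rw [hcoef j hj]
      congr 2
      omega
    rw [h2] at h1
    exact h1
  have hR1 : nm p (rsum SB (fun j => c (j / 2))) ≤ C1 * C2 * nm p (lsum p A B a0 a c) := by
    refine (hup SB _).trans ?_
    rw [mul_assoc]
    exact mul_le_mul_of_nonneg_left hc2 hC1.le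
  have hR2 : nm p (rsum SB (fun j => η (j / 2) * c (j / 2))) ≤
      C1 * C2 * nm p (lsum p A B a0 a c) := by
    refine (hup SB _).trans ?_
    rw [mul_assoc]
    apply mul_le_mul_of_nonneg_left _ hC1.le
    refine le_trans (Real.sqrt_le_sqrt (sum_le_sum fun j _ => ?_)) hc2
    rw [mul_pow]
    have : η (j / 2) ^ 2 ≤ 1 := by
      rw [← sq_abs]; exact pow_le_one₀ (abs_nonneg _) (hη _)
    nlinarith [sq_nonneg (c (j / 2))]
  have hV1 : nm p (VV n (hsum p A a0 a)) ≤ (1 + C1 * C2) * nm p (lsum p A B a0 a c) := by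
    have e1 : VV n (hsum p A a0 a) =
        fun x => lsum p A B a0 a c x - rsum SB (fun j => c (j / 2)) x := by
      rw [hdec]; funext x; ring
    rw [e1]
    refine (nm_sub hp.le hDl (hDR _)).trans ?_
    linarith
  have hF1 := (hV n _ (dep_hsum p A a0 a)).2
  have hF2 := hH A a0 θ0 a θ h0 hθ
  have hF3 := (hV n _ (dep_hsum p A (θ0 * a0) (fun l => θ l * a l))).1
  rw [hdec]
  refine (nm_add hp.le (hDV _ _) (hDR _)).trans ?_
  have h1 : nm p (VV n (hsum p A (θ0 * a0) (fun l => θ l * a l))) ≤
      C3 * (C4 * (C3 * ((1 + C1 * C2) * nm p (lsum p A B a0 a c)))) := by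
    refine hF3.trans (mul_le_mul_of_nonneg_left (hF2.trans (mul_le_mul_of_nonneg_left
      (hF1.trans (mul_le_mul_of_nonneg_left hV1 hC3.le)) hC4.le)) hC3.le)
  calc _ ≤ C3 * (C4 * (C3 * ((1 + C1 * C2) * nm p (lsum p A B a0 a c)))) +
        C1 * C2 * nm p (lsum p A B a0 a c) := add_le_add h1 hR2
    _ = _ := by ring

end Pool.Agent.H66R3.PG
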