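import Mathlib
import Pool.Agent.H66R3.PG.Haar

/-! The direct sum of the two systems, on the level of cylinder functions. -/

set_option autoImplicit false

open MeasureTheory Finset

namespace Pool.Agent.H66R3.PG

/-- Drop the first digit. -/
def tl (x : ℕ → Bool) : ℕ → Bool := fun i => x (i + 1)

lemma tl_cons (b : Bool) (x : ℕ → Bool) : tl (consD b x) = x := by
  funext i; rfl

/-- Left copy. -/
noncomputable def LL (p : ℝ) (u : (ℕ → Bool) → ℝ) (x : ℕ → Bool) : ℝ :=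
  if x 0 then 0 else (2 : ℝ) ^ (1 / p) * u (tl x)

/-- Right copy. -/
noncomputable def RR (p : ℝ) (u : (ℕ → Bool) → ℝ) (x : ℕ → Bool) : ℝ :=
  if x 0 then (2 : ℝ) ^ (1 / p) * u (tl x) else 0

lemma dep_LL {n : ℕ} (p : ℝ) {u : (ℕ → Bool) → ℝ} (hu : Dep n u) : Dep (n + 1) (LL p u) := by
  intro x y h
  unfold LL
  rw [h 0 (Nat.succ_pos n), hu (tl x) (tl y) (fun i hi => h (i + 1) (by omega))]

lemma dep_RR {n : ℕ} (p : ℝ) {u : (ℕ → Bool) → ℝ} (hu : Dep n u) : Dep (n + 1) (RR p u) := by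
  intro x y h
  unfold RR
  rw [h 0 (Nat.succ_pos n), hu (tl x) (tl y) (fun i hi => h (i + 1) (by omega))]

lemma LL_false (p : ℝ) (u : (ℕ → Bool) → ℝ) (x : ℕ → Bool) :
    LL p u (consD false x) = (2 : ℝ) ^ (1 / p) * u x := by
  unfold LL; rw [tl_cons]; rfl

lemma LL_true (p : ℝ) (u : (ℕ → Bool) → ℝ) (x : ℕ → Bool) : LL p u (consD true x) = 0 := rfl

lemma RR_false (p : ℝ) (u : (ℕ → Bool) → ℝ) (x : ℕ → Bool) : RR p u (consD false x) = 0 := rfl

lemma RR_true (p : ℝ) (u : (ℕ → Bool) → ℝ) (x : ℕ → Bool) :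
    RR p u (consD true x) = (2 : ℝ) ^ (1 / p) * u x := by
  unfold RR; rw [tl_cons]; rfl

lemma E_LR {n : ℕ} (p : ℝ) (Φ : ℝ → ℝ → ℝ) {u v u' v' : (ℕ → Bool) → ℝ} (hu : Dep n u)
    (hv : Dep n v) (hu' : Dep n u') (hv' : Dep n v') :
    E (fun x => Φ (LL p u x + RR p v x) (LL p u' x + RR p v' x)) =
      1 / 2 * (E (fun x => Φ ((2 : ℝ) ^ (1 / p) * u x) ((2 : ℝ) ^ (1 / p) * u' x)) +
        E (fun x => Φ ((2 : ℝ) ^ (1 / p) * v x) ((2 : ℝ) ^ (1 / p) * v' x))) := by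
  rw [E_cons (((dep_LL p hu).add (dep_RR p hv)).map₂ ((dep_LL p hu').add (dep_RR p hv')) Φ)]
  simp only [LL_false, LL_true, RR_false, RR_true, add_zero, zero_add]

/-- The duality pairing. -/
noncomputable def JJ (p : ℝ) (F G : (ℕ → Bool) → ℝ) : ℝ := E (fun x => |F x| ^ (p - 2) * F x * G x)

lemma nm_LR {n : ℕ} {p : ℝ} (hp : 0 < p) {u v : (ℕ → Bool) → ℝ} (hu : Dep n u)
    (hv : Dep n v) : nm p (fun x => LL p u x + RR p v x) ^ p = nm p u ^ p + nm p v ^ p := by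
  rw [nm_rpow hp, nm_rpow hp, nm_rpow hp]
  have h := E_LR p (fun a _ => |a| ^ p) hu hv hu hv
  rw [h]
  have h2 : ∀ w : (ℕ → Bool) → ℝ, (fun x => |(2 : ℝ) ^ (1 / p) * w x| ^ p) =
      fun x => 2 * |w x| ^ p := by
    intro w
    funext x
    rw [abs_mul, Real.mul_rpow (abs_nonneg _) (abs_nonneg _), abs_of_pos (by positivity),
      ← Real.rpow_mul (by norm_num), one_div, inv_mul_cancel₀ hp.ne', Real.rpow_one]
  rw [h2, h2, E_mul_left, E_mul_left]
  ring

lemma JJ_LR {n : ℕ} {p : ℝ} (hp : 0 < p) {u v u' v' : (ℕ → Bool) → ℝ} (hu : Dep n u)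
    (hv : Dep n v) (hu' : Dep n u') (hv' : Dep n v') :
    JJ p (fun x => LL p u x + RR p v x) (fun x => LL p u' x + RR p v' x) =
      JJ p u u' + JJ p v v' := by
  unfold JJ
  have h := E_LR p (fun a b => |a| ^ (p - 2) * a * b) hu hv hu' hv'
  rw [h]
  have h2 : ∀ w w' : (ℕ → Bool) → ℝ, (fun x => |(2 : ℝ) ^ (1 / p) * w x| ^ (p - 2) *
      ((2 : ℝ) ^ (1 / p) * w x) * ((2 : ℝ) ^ (1 / p) * w' x)) =
      fun x => 2 * (|w x| ^ (p - 2) * w x * w' x) := by
    intro w w'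
    funext x
    have e1 : ((2:ℝ) ^ (1 / p)) ^ (p - 2) * (2:ℝ) ^ (1 / p) * (2:ℝ) ^ (1 / p) = 2 := by
      rw [← Real.rpow_mul (by norm_num), ← Real.rpow_add (by norm_num),
        ← Real.rpow_add (by norm_num)]
      have : 1 / p * (p - 2) + 1 / p + 1 / p = 1 := by field_simp; ring
      rw [this, Real.rpow_one]
    rw [abs_mul, Real.mul_rpow (abs_nonneg _) (abs_nonneg _),
      abs_of_pos (by positivity : (0:ℝ) < (2:ℝ) ^ (1 / p))]
    calc _ = (((2:ℝ) ^ (1 / p)) ^ (p - 2) * (2:ℝ) ^ (1 / p) * (2:ℝ) ^ (1 / p)) *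
          (|w x| ^ (p - 2) * w x * w' x) := by ring
      _ = _ := by rw [e1]
  rw [h2, h2, E_mul_left, E_mul_left]
  ring

lemma RR_zero (p : ℝ) : RR p (fun _ => 0) = fun _ => 0 := by
  funext x; unfold RR; simp

lemma LL_zero (p : ℝ) : LL p (fun _ => 0) = fun _ => 0 := by
  funext x; unfold LL; simp

lemma nm_zero {p : ℝ} (hp : 0 < p) : nm p (fun _ => 0) = 0 := by
  unfold nm
  simp only [abs_zero, Real.zero_rpow hp.ne', E_const]
  rw [Real.zero_rpow (by positivity)]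

lemma nm_LL {n : ℕ} {p : ℝ} (hp : 0 < p) {u : (ℕ → Bool) → ℝ} (hu : Dep n u) :
    nm p (LL p u) = nm p u := by
  have h := nm_LR hp hu (dep_const n 0)
  rw [RR_zero, nm_zero hp, Real.zero_rpow hp.ne', add_zero] at h
  simp only [add_zero] at h
  exact (Real.rpow_left_inj (nm_nonneg _ _) (nm_nonneg _ _) hp.ne').mp h

lemma nm_RR {n : ℕ} {p : ℝ} (hp : 0 < p) {u : (ℕ → Bool) → ℝ} (hu : Dep n u) :
    nm p (RR p u) = nm p u := by
  have h := nm_LR hp (dep_const n 0) hu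
  rw [LL_zero, nm_zero hp, Real.zero_rpow hp.ne', zero_add] at h
  simp only [zero_add] at h
  exact (Real.rpow_left_inj (nm_nonneg _ _) (nm_nonneg _ _) hp.ne').mp h

/-! ### The basis functions -/

/-- Index type of the left system. -/
abbrev IL := Unit ⊕ (List Bool ⊕ ℕ)

/-- Index type of the right system. -/
abbrev IR := Unit ⊕ List Bool

/-- The left system. -/
noncomputable def bL (p : ℝ) : IL → (ℕ → Bool) → ℝ
  | Sum.inl _ => fun _ => 1
  | Sum.inr (Sum.inl l) => fun x => (nm p (vv p l))⁻¹ * vv p l x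
  | Sum.inr (Sum.inr j) => rd (2 * j)

/-- The right system. -/
noncomputable def bR (p : ℝ) : IR → (ℕ → Bool) → ℝ
  | Sum.inl _ => fun _ => 1
  | Sum.inr l => haar p l

/-- The full system. -/
noncomputable def bI (p : ℝ) : IL ⊕ IR → (ℕ → Bool) → ℝ
  | Sum.inl i => LL p (bL p i)
  | Sum.inr i => RR p (bR p i)

lemma dep_vv (p : ℝ) (l : List Bool) : Dep (2 * l.length + 2) (vv p l) :=
  ((dep_haar p l).mono (by omega)).add ((dep_const _ _).mul (((dep_rd _).mono (by omega)).sub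
    ((dep_rd _).mono (by omega))))

/-- Number of digits used by the left functions. -/
def dL : IL → ℕ
  | Sum.inl _ => 0
  | Sum.inr (Sum.inl l) => 2 * l.length + 2
  | Sum.inr (Sum.inr j) => 2 * j + 1

/-- Number of digits used by the right functions. -/
def dR : IR → ℕ
  | Sum.inl _ => 0
  | Sum.inr l => l.length + 1

lemma dep_bL (p : ℝ) (i : IL) : Dep (dL i) (bL p i) := by
  rcases i with _ | l | j
  · exact dep_const _ _
  · exact (dep_const _ _).mul (dep_vv p l)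
  · exact dep_rd _

lemma dep_bR (p : ℝ) (i : IR) : Dep (dR i) (bR p i) := by
  rcases i with _ | l
  · exact dep_const _ _
  · exact dep_haar p l

/-- Number of digits used by the functions. -/
def dI : IL ⊕ IR → ℕ
  | Sum.inl i => dL i + 1
  | Sum.inr i => dR i + 1

lemma dep_bI (p : ℝ) (i : IL ⊕ IR) : Dep (dI i) (bI p i) := by
  rcases i with i | i
  · exact dep_LL p (dep_bL p i)
  · exact dep_RR p (dep_bR p i)

lemma nm_one {p : ℝ} (_hp : 0 < p) : nm p (fun _ => 1) = 1 := by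
  unfold nm
  simp [E_const]

lemma nm_rd {p : ℝ} (_hp : 0 < p) (j : ℕ) : nm p (rd j) = 1 := by
  unfold nm
  simp [rd_abs, E_const]

lemma nm_haar {p : ℝ} (hp : 0 < p) (l : List Bool) : nm p (haar p l) = 1 := by
  unfold nm
  rw [haar_norm hp, Real.one_rpow]

lemma VV_haar (p : ℝ) (l : List Bool) : VV (l.length + 1) (haar p l) = vv p l := by
  funext x
  have h := VV_hsum p {l} 0 (fun _ => 1) (n := l.length + 1) (by simp [lev]) x
  have e : hsum p {l} 0 (fun _ => 1) = haar p l := by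
    funext y; simp [hsum]
  rw [e] at h
  simpa using h

lemma nm_vv {p : ℝ} (hp : 1 < p) : ∃ C : ℝ, 0 < C ∧ ∀ l : List Bool,
    0 < nm p (vv p l) ∧ (nm p (vv p l))⁻¹ ≤ C := by
  obtain ⟨C, hC, h⟩ := VV_equiv hp
  refine ⟨C, hC, fun l => ?_⟩
  have h1 := (h _ _ (dep_haar p l)).2
  rw [VV_haar, nm_haar (by linarith)] at h1
  have h2 : 0 < nm p (vv p l) := by
    by_contra hcon
    push Not at hcon
    have : C * nm p (vv p l) ≤ 0 := mul_nonpos_of_nonneg_of_nonpos hC.le hcon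
    linarith
  refine ⟨h2, ?_⟩
  rw [inv_le_comm₀ h2 hC, ← one_div, div_le_iff₀ hC]
  linarith

lemma nm_bL {p : ℝ} (hp : 1 < p) (i : IL) : nm p (bL p i) = 1 := by
  have hp0 : 0 < p := by linarith
  rcases i with _ | l | j
  · exact nm_one hp0
  · obtain ⟨C, hC, h⟩ := nm_vv hp
    change nm p (fun x => (nm p (vv p l))⁻¹ * vv p l x) = 1
    rw [nm_smul hp0, abs_of_pos (inv_pos.mpr (h l).1), inv_mul_cancel₀ (h l).1.ne']
  · exact nm_rd hp0 _

lemma nm_bR {p : ℝ} (hp : 1 < p) (i : IR) : nm p (bR p i) = 1 := by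
  have hp0 : 0 < p := by linarith
  rcases i with _ | l
  · exact nm_one hp0
  · exact nm_haar hp0 l

lemma nm_bI {p : ℝ} (hp : 1 < p) (i : IL ⊕ IR) : nm p (bI p i) = 1 := by
  have hp0 : 0 < p := by linarith
  rcases i with i | i
  · exact (nm_LL hp0 (dep_bL p i)).trans (nm_bL hp i)
  · exact (nm_RR hp0 (dep_bR p i)).trans (nm_bR hp i)

/-! ### Unconditionality -/

lemma sum_toLR {α β M : Type*} [AddCommMonoid M] (S : Finset (α ⊕ β)) (f : α ⊕ β → M) :
    ∑ i ∈ S, f i = ∑ i ∈ S.toLeft, f (Sum.inl i) + ∑ i ∈ S.toRight, f (Sum.inr i) := by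
  conv_lhs => rw [← Finset.toLeft_disjSum_toRight (u := S)]
  rw [Finset.sum_disjSum]

lemma sum_bL (p : ℝ) (T : Finset IL) (a : IL → ℝ) (x : ℕ → Bool) :
    ∑ i ∈ T, a i * bL p i x = lsum p T.toRight.toLeft T.toRight.toRight
      (∑ i ∈ T.toLeft, a (Sum.inl i)) (fun l => a (Sum.inr (Sum.inl l)) * (nm p (vv p l))⁻¹)
      (fun j => a (Sum.inr (Sum.inr j))) x := by
  rw [sum_toLR T, sum_toLR T.toRight]
  unfold lsum
  rw [add_assoc]
  congr 1
  · apply sum_congr rfl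
    intro i _
    exact mul_one _
  · congr 1
    apply sum_congr rfl
    intro l _
    change a _ * ((nm p (vv p l))⁻¹ * vv p l x) = _
    ring

lemma sum_bR (p : ℝ) (T : Finset IR) (a : IR → ℝ) (x : ℕ → Bool) :
    ∑ i ∈ T, a i * bR p i x = hsum p T.toRight
      (∑ i ∈ T.toLeft, a (Sum.inl i)) (fun l => a (Sum.inr l)) x := by
  rw [sum_toLR T]
  unfold hsum
  congr 1
  apply sum_congr rfl
  intro i _
  exact mul_one _

theorem unc_bL {p : ℝ} (hp : 1 < p) : ∃ C : ℝ, 0 < C ∧ ∀ (T : Finset IL) (a θ : IL → ℝ),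
    (∀ i, |θ i| ≤ 1) → nm p (fun x => ∑ i ∈ T, θ i * a i * bL p i x) ≤
      C * nm p (fun x => ∑ i ∈ T, a i * bL p i x) := by
  obtain ⟨C, hC, h⟩ := unc_left hp
  refine ⟨C, hC, fun T a θ hθ => ?_⟩
  have h1 := h T.toRight.toLeft T.toRight.toRight (∑ i ∈ T.toLeft, a (Sum.inl i))
    (θ (Sum.inl ())) (fun l => a (Sum.inr (Sum.inl l)) * (nm p (vv p l))⁻¹)
    (fun l => θ (Sum.inr (Sum.inl l))) (fun j => a (Sum.inr (Sum.inr j)))
    (fun j => θ (Sum.inr (Sum.inr j))) (hθ _) (fun _ => hθ _) (fun _ => hθ _)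
  have e1 : (fun x => ∑ i ∈ T, a i * bL p i x) = lsum p T.toRight.toLeft T.toRight.toRight
      (∑ i ∈ T.toLeft, a (Sum.inl i)) (fun l => a (Sum.inr (Sum.inl l)) * (nm p (vv p l))⁻¹)
      (fun j => a (Sum.inr (Sum.inr j))) := by
    funext x; exact sum_bL p T a x
  have e2 : (fun x => ∑ i ∈ T, θ i * a i * bL p i x) =
      lsum p T.toRight.toLeft T.toRight.toRight
      (θ (Sum.inl ()) * ∑ i ∈ T.toLeft, a (Sum.inl i))
      (fun l => θ (Sum.inr (Sum.inl l)) * (a (Sum.inr (Sum.inl l)) * (nm p (vv p l))⁻¹))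
      (fun j => θ (Sum.inr (Sum.inr j)) * a (Sum.inr (Sum.inr j))) := by
    funext x
    rw [sum_bL p T (fun i => θ i * a i) x, mul_sum]
    simp only [mul_assoc]
  rw [e1, e2]
  exact h1

theorem unc_bR {p : ℝ} (hp : 1 < p) : ∃ C : ℝ, 0 < C ∧ ∀ (T : Finset IR) (a θ : IR → ℝ),
    (∀ i, |θ i| ≤ 1) → nm p (fun x => ∑ i ∈ T, θ i * a i * bR p i x) ≤
      C * nm p (fun x => ∑ i ∈ T, a i * bR p i x) := by
  obtain ⟨C, hC, h⟩ := unc_haar hp
  refine ⟨C, hC, fun T a θ hθ => ?_⟩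
  have h1 := h T.toRight (∑ i ∈ T.toLeft, a (Sum.inl i))
    (θ (Sum.inl ())) (fun l => a (Sum.inr l)) (fun l => θ (Sum.inr l)) (hθ _) (fun _ => hθ _)
  have e1 : (fun x => ∑ i ∈ T, a i * bR p i x) = hsum p T.toRight
      (∑ i ∈ T.toLeft, a (Sum.inl i)) (fun l => a (Sum.inr l)) := by
    funext x; exact sum_bR p T a x
  have e2 : (fun x => ∑ i ∈ T, θ i * a i * bR p i x) =
      hsum p T.toRight (θ (Sum.inl ()) * ∑ i ∈ T.toLeft, a (Sum.inl i))
      (fun l => θ (Sum.inr l) * a (Sum.inr l)) := by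
    funext x
    rw [sum_bR p T (fun i => θ i * a i) x, mul_sum]
  rw [e1, e2]
  exact h1

lemma sum_bI (p : ℝ) (S : Finset (IL ⊕ IR)) (a : IL ⊕ IR → ℝ) (x : ℕ → Bool) :
    ∑ i ∈ S, a i * bI p i x = LL p (fun y => ∑ i ∈ S.toLeft, a (Sum.inl i) * bL p i y) x +
      RR p (fun y => ∑ i ∈ S.toRight, a (Sum.inr i) * bR p i y) x := by
  rw [sum_toLR S]
  congr 1
  · unfold LL
    split_ifs with h
    · apply sum_eq_zero
      intro i _
      change a _ * LL p (bL p i) x = 0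
      unfold LL
      rw [if_pos h, mul_zero]
    · rw [mul_sum]
      apply sum_congr rfl
      intro i _
      change a _ * LL p (bL p i) x = _
      unfold LL
      rw [if_neg h]
      ring
  · unfold RR
    split_ifs with h
    · rw [mul_sum]
      apply sum_congr rfl
      intro i _
      change a _ * RR p (bR p i) x = _
      unfold RR
      rw [if_pos h]
      ring
    · apply sum_eq_zero
      intro i _
      change a _ * RR p (bR p i) x = 0
      unfold RR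
      rw [if_neg h, mul_zero]

lemma exists_dep_fam {ι : Type*} (T : Finset ι) (d : ι → ℕ) (f : ι → (ℕ → Bool) → ℝ)
    (hf : ∀ i, Dep (d i) (f i)) :
    ∃ n, (∀ i ∈ T, Dep n (f i)) ∧ ∀ a : ι → ℝ, Dep n (fun x => ∑ i ∈ T, a i * f i x) := by
  refine ⟨T.sup d, fun i hi => (hf i).mono (le_sup (f := d) hi), fun a => ?_⟩
  apply Dep.sum
  intro i hi
  exact (dep_const _ (a i)).mul ((hf i).mono (le_sup (f := d) hi))

theorem unc_bI {p : ℝ} (hp : 1 < p) : ∃ C : ℝ, 0 < C ∧ ∀ (S : Finset (IL ⊕ IR))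
    (a θ : IL ⊕ IR → ℝ), (∀ i, |θ i| ≤ 1) → nm p (fun x => ∑ i ∈ S, θ i * a i * bI p i x) ≤
      C * nm p (fun x => ∑ i ∈ S, a i * bI p i x) := by
  have hp0 : 0 < p := by linarith
  obtain ⟨C1, hC1, h1⟩ := unc_bL hp
  obtain ⟨C2, hC2, h2⟩ := unc_bR hp
  refine ⟨max C1 C2, lt_max_of_lt_left hC1, fun S a θ hθ => ?_⟩
  obtain ⟨n1, _, hn1⟩ := exists_dep_fam S.toLeft dL (bL p) (dep_bL p)
  obtain ⟨n2, _, hn2⟩ := exists_dep_fam S.toRight dR (bR p) (dep_bR p)
  have key : ∀ a : IL ⊕ IR → ℝ, nm p (fun x => ∑ i ∈ S, a i * bI p i x) ^ p =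
      nm p (fun y => ∑ i ∈ S.toLeft, a (Sum.inl i) * bL p i y) ^ p +
      nm p (fun y => ∑ i ∈ S.toRight, a (Sum.inr i) * bR p i y) ^ p := by
    intro a
    have : (fun x => ∑ i ∈ S, a i * bI p i x) = fun x =>
        LL p (fun y => ∑ i ∈ S.toLeft, a (Sum.inl i) * bL p i y) x +
        RR p (fun y => ∑ i ∈ S.toRight, a (Sum.inr i) * bR p i y) x := by
      funext x; exact sum_bI p S a x
    rw [this]
    exact nm_LR hp0 ((hn1 _).mono (le_max_left n1 n2)) ((hn2 _).mono (le_max_right n1 n2))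
  have k1 := key (fun i => θ i * a i)
  have k2 := key a
  have hM : 0 < max C1 C2 := lt_max_of_lt_left hC1
  have g1 := h1 S.toLeft (fun i => a (Sum.inl i)) (fun i => θ (Sum.inl i)) (fun _ => hθ _)
  have g2 := h2 S.toRight (fun i => a (Sum.inr i)) (fun i => θ (Sum.inr i)) (fun _ => hθ _)
  have g1' := Real.rpow_le_rpow (nm_nonneg _ _) (g1.trans (mul_le_mul_of_nonneg_right
    (le_max_left C1 C2) (nm_nonneg _ _))) hp0.le
  have g2' := Real.rpow_le_rpow (nm_nonneg _ _) (g2.trans (mul_le_mul_of_nonneg_right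
    (le_max_right C1 C2) (nm_nonneg _ _))) hp0.le
  rw [Real.mul_rpow hM.le (nm_nonneg _ _)] at g1' g2'
  apply (Real.rpow_le_rpow_iff (nm_nonneg _ _) (mul_nonneg hM.le (nm_nonneg _ _)) hp0).mp
  rw [Real.mul_rpow hM.le (nm_nonneg _ _), k1, k2, mul_add]
  exact add_le_add g1' g2'

end Pool.Agent.H66R3.PG
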