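import Mathlib
import Pool.Agent.H66R3.PG.Basis

/-! Classes in `L_p[0,1]` of cylinder functions; density. -/

set_option autoImplicit false

open MeasureTheory Finset
open scoped ENNReal

namespace Pool.Agent.H66R3.PG

/-! ### Spans of functions -/

lemma pre_eq_ofFn (k : ℕ) (x : ℕ → Bool) : pre k x = List.ofFn (rs k x) := by
  apply List.ext_getElem
  · simp [pre]
  · intro i h1 h2
    simp [pre, rs]

lemma sum_haar (p : ℝ) {k : ℕ} {c : (ℕ → Bool) → ℝ} (hc : Dep k c) (x : ℕ → Bool) :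
    ∑ w : Fin k → Bool, (c (ext w) * (wt p k)⁻¹) * haar p (List.ofFn w) x = c x * rd k x := by
  classical
  rw [Finset.sum_eq_single (rs k x)]
  · unfold haar cellI
    rw [List.length_ofFn, if_pos (pre_eq_ofFn k x), ← hc.eq_ext x]
    have := (wt_pos p k).ne'
    field_simp
  · intro w _ hw
    unfold haar cellI
    rw [List.length_ofFn, if_neg]
    · ring
    · rw [pre_eq_ofFn]
      intro h
      exact hw (List.ofFn_injective h).symm
  · intro h; exact absurd (mem_univ _) h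

/-- Span of the right system. -/
noncomputable def SH (p : ℝ) : Submodule ℝ ((ℕ → Bool) → ℝ) := Submodule.span ℝ (Set.range (bR p))

/-- Span of the left system. -/
noncomputable def SL (p : ℝ) : Submodule ℝ ((ℕ → Bool) → ℝ) := Submodule.span ℝ (Set.range (bL p))

/-- Span of the full system. -/
noncomputable def SI (p : ℝ) : Submodule ℝ ((ℕ → Bool) → ℝ) := Submodule.span ℝ (Set.range (bI p))

lemma haar_SH (p : ℝ) (l : List Bool) : haar p l ∈ SH p :=
  Submodule.subset_span ⟨Sum.inr l, rfl⟩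

lemma cyl_SH (p : ℝ) {n : ℕ} {F : (ℕ → Bool) → ℝ} (hF : Dep n F) : F ∈ SH p := by
  obtain ⟨a, c, hc, h⟩ := mart_rep n F hF
  have h1 : F = a • (bR p (Sum.inl ())) + ∑ k ∈ range n, ∑ w : Fin k → Bool,
      (c k (ext w) * (wt p k)⁻¹) • haar p (List.ofFn w) := by
    rw [h]
    funext x
    rw [Pi.add_apply, Finset.sum_apply]
    unfold mart
    congr 1
    · change a = a * 1
      ring
    · apply sum_congr rfl
      intro k _
      rw [Finset.sum_apply, ← sum_haar p (hc k) x]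
      rfl
  rw [h1]
  refine Submodule.add_mem _ (Submodule.smul_mem _ _ (Submodule.subset_span ⟨_, rfl⟩)) ?_
  refine Submodule.sum_mem _ fun k _ => Submodule.sum_mem _ fun w _ => ?_
  exact Submodule.smul_mem _ _ (haar_SH p _)

lemma vv_SL {p : ℝ} (hp : 1 < p) (l : List Bool) : vv p l ∈ SL p := by
  obtain ⟨C, hC, h⟩ := nm_vv hp
  have h1 : vv p l = (nm p (vv p l)) • bL p (Sum.inr (Sum.inl l)) := by
    funext x
    change vv p l x = nm p (vv p l) * ((nm p (vv p l))⁻¹ * vv p l x)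
    have := (h l).1.ne'
    field_simp
  rw [h1]
  exact Submodule.smul_mem _ _ (Submodule.subset_span ⟨_, rfl⟩)

lemma rd_odd_SL {p : ℝ} (hp : 1 < p) (k : ℕ) : rd (2 * k + 1) ∈ SL p := by
  have h1 : rd (2 * k + 1) = ∑ w : Fin k → Bool, (wt p k)⁻¹ • vv p (List.ofFn w) := by
    funext x
    rw [Finset.sum_apply]
    have h2 := sum_haar p (dep_const k 1) x
    simp only [one_mul] at h2
    have h3 : ∀ w : Fin k → Bool, ((wt p k)⁻¹ • vv p (List.ofFn w)) x =
        (wt p k)⁻¹ * haar p (List.ofFn w) x +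
          (wt p k)⁻¹ * (bet p k * (rd (2 * k + 1) x - rd k x)) := by
      intro w
      change (wt p k)⁻¹ * vv p (List.ofFn w) x = _
      unfold vv
      rw [List.length_ofFn]
      ring
    rw [sum_congr rfl (fun w _ => h3 w), sum_add_distrib, h2, sum_const, card_univ]
    simp only [Fintype.card_pi, Fintype.card_bool, prod_const, card_univ, Fintype.card_fin,
      nsmul_eq_mul]
    unfold bet
    have := (wt_pos p k).ne'
    field_simp
    push_cast
    have h4 : (2:ℝ) ^ k * (1 / 2) ^ k = 1 := by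
      rw [← mul_pow]; norm_num
    have h5 : (2:ℝ) ^ k * ((1 / 2) ^ k * (rd (2 * k + 1) x - rd k x)) =
      rd (2 * k + 1) x - rd k x := by
      rw [← mul_assoc, h4, one_mul]
    linarith
  rw [h1]
  exact Submodule.sum_mem _ fun w _ => Submodule.smul_mem _ _ (vv_SL hp _)

lemma rd_SL {p : ℝ} (hp : 1 < p) (j : ℕ) : rd j ∈ SL p := by
  rcases Nat.even_or_odd' j with ⟨k, h | h⟩
  · rw [h]
    exact Submodule.subset_span ⟨Sum.inr (Sum.inr k), rfl⟩
  · rw [h]; exact rd_odd_SL hp k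

lemma haar_SL {p : ℝ} (hp : 1 < p) (l : List Bool) : haar p l ∈ SL p := by
  have h1 : haar p l = vv p l - bet p l.length • (rd (2 * l.length + 1) - rd l.length) := by
    funext x
    change haar p l x = vv p l x - bet p l.length * (rd (2 * l.length + 1) x - rd l.length x)
    unfold vv
    ring
  rw [h1]
  exact Submodule.sub_mem _ (vv_SL hp l) (Submodule.smul_mem _ _ (Submodule.sub_mem _
    (rd_SL hp _) (rd_SL hp _)))

lemma cyl_SL {p : ℝ} (hp : 1 < p) {n : ℕ} {F : (ℕ → Bool) → ℝ} (hF : Dep n F) : F ∈ SL p := by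
  have h1 : SH p ≤ SL p := by
    apply Submodule.span_le.mpr
    rintro _ ⟨i, rfl⟩
    rcases i with _ | l
    · exact Submodule.subset_span ⟨Sum.inl (), rfl⟩
    · exact haar_SL hp l
  exact h1 (cyl_SH p hF)

lemma LL_SI {p : ℝ} {u : (ℕ → Bool) → ℝ} (hu : u ∈ SL p) : LL p u ∈ SI p := by
  induction hu using Submodule.span_induction with
  | mem x hx =>
    obtain ⟨i, rfl⟩ := hx
    exact Submodule.subset_span ⟨Sum.inl i, rfl⟩
  | zero =>
    have : LL p (0 : (ℕ → Bool) → ℝ) = 0 := LL_zero p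
    rw [this]; exact Submodule.zero_mem _
  | add a b _ _ ha hb =>
    have : LL p (a + b) = LL p a + LL p b := by
      funext x
      rw [Pi.add_apply]
      unfold LL
      split_ifs
      · simp
      · rw [Pi.add_apply]; ring
    rw [this]; exact Submodule.add_mem _ ha hb
  | smul c a _ ha =>
    have : LL p (c • a) = c • LL p a := by
      funext x
      rw [Pi.smul_apply]
      unfold LL
      split_ifs
      · simp
      · rw [Pi.smul_apply, smul_eq_mul, smul_eq_mul]; ring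
    rw [this]; exact Submodule.smul_mem _ _ ha

lemma RR_SI {p : ℝ} {u : (ℕ → Bool) → ℝ} (hu : u ∈ SH p) : RR p u ∈ SI p := by
  induction hu using Submodule.span_induction with
  | mem x hx =>
    obtain ⟨i, rfl⟩ := hx
    exact Submodule.subset_span ⟨Sum.inr i, rfl⟩
  | zero =>
    have : RR p (0 : (ℕ → Bool) → ℝ) = 0 := RR_zero p
    rw [this]; exact Submodule.zero_mem _
  | add a b _ _ ha hb =>
    have : RR p (a + b) = RR p a + RR p b := by
      funext x
      rw [Pi.add_apply]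
      unfold RR
      split_ifs
      · rw [Pi.add_apply]; ring
      · simp
    rw [this]; exact Submodule.add_mem _ ha hb
  | smul c a _ ha =>
    have : RR p (c • a) = c • RR p a := by
      funext x
      rw [Pi.smul_apply]
      unfold RR
      split_ifs
      · rw [Pi.smul_apply, smul_eq_mul, smul_eq_mul]; ring
      · simp
    rw [this]; exact Submodule.smul_mem _ _ ha

lemma cyl_SI {p : ℝ} (hp : 1 < p) {n : ℕ} {F : (ℕ → Bool) → ℝ} (hF : Dep n F) : F ∈ SI p := by
  have hF' : Dep (n + 1) F := hF.mono (Nat.le_succ n)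
  have h2 : (0:ℝ) < (2:ℝ) ^ (1 / p) := by positivity
  have h1 : F = LL p (fun x => ((2:ℝ) ^ (1 / p))⁻¹ * F (consD false x)) +
      RR p (fun x => ((2:ℝ) ^ (1 / p))⁻¹ * F (consD true x)) := by
    funext x
    rw [Pi.add_apply]
    have hx : ∀ b, x 0 = b → consD b (tl x) = x := by
      intro b hb
      funext i
      cases i with
      | zero => exact hb.symm
      | succ i => rfl
    unfold LL RR
    by_cases h : x 0
    · rw [if_pos h, if_pos h]
      beta_reduce
      rw [hx true h]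
      field_simp
      ring
    · rw [if_neg h, if_neg h]
      beta_reduce
      rw [hx false (by simpa using h)]
      field_simp
      ring
  rw [h1]
  exact Submodule.add_mem _ (LL_SI (cyl_SL hp ((dep_const n _).mul (hF'.cons false))))
    (RR_SI (cyl_SH p ((dep_const n _).mul (hF'.cons true))))

/-! ### Classes -/

open Classical in
/-- The class in `L_p` of a cylinder function. -/
noncomputable def cl (P : ℝ≥0∞) (F : (ℕ → Bool) → ℝ) : Lp ℝ P mu :=
  if h : MemLp (fun x => F (dig x)) P mu then h.toLp _ else 0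

variable {P : ℝ≥0∞}

lemma coe_cl {n : ℕ} {F : (ℕ → Bool) → ℝ} (hF : Dep n F) :
    cl P F =ᵐ[mu] fun x => F (dig x) := by
  unfold cl
  rw [dif_pos (hF.memLp P)]
  exact MemLp.coeFn_toLp _

lemma cl_add {n : ℕ} {F G : (ℕ → Bool) → ℝ} (hF : Dep n F) (hG : Dep n G) :
    cl P (fun x => F x + G x) = cl P F + cl P G := by
  apply Lp.ext
  filter_upwards [coe_cl (P := P) (hF.add hG), coe_cl (P := P) hF, coe_cl (P := P) hG,
    Lp.coeFn_add (cl P F) (cl P G)] with x h1 h2 h3 h4
  rw [h1, h4, Pi.add_apply, h2, h3]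

lemma cl_sub {n : ℕ} {F G : (ℕ → Bool) → ℝ} (hF : Dep n F) (hG : Dep n G) :
    cl P (fun x => F x - G x) = cl P F - cl P G := by
  apply Lp.ext
  filter_upwards [coe_cl (P := P) (hF.sub hG), coe_cl (P := P) hF, coe_cl (P := P) hG,
    Lp.coeFn_sub (cl P F) (cl P G)] with x h1 h2 h3 h4
  rw [h1, h4, Pi.sub_apply, h2, h3]

lemma cl_smul [Fact (1 ≤ P)] {n : ℕ} {F : (ℕ → Bool) → ℝ} (hF : Dep n F) (c : ℝ) :
    cl P (fun x => c * F x) = c • cl P F := by
  apply Lp.ext
  filter_upwards [coe_cl (P := P) ((dep_const n c).mul hF), coe_cl (P := P) hF,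
    Lp.coeFn_smul c (cl P F)] with x h1 h2 h4
  rw [h1, h4, Pi.smul_apply, h2, smul_eq_mul]

lemma cl_zero [Fact (1 ≤ P)] : cl P (fun _ => 0) = 0 := by
  have := cl_smul (P := P) (dep_const 0 0) 0
  simpa using this

lemma cl_sum [Fact (1 ≤ P)] {ι : Type*} (T : Finset ι) {n : ℕ} (a : ι → ℝ)
    {f : ι → (ℕ → Bool) → ℝ} (hf : ∀ i ∈ T, Dep n (f i)) :
    cl P (fun x => ∑ i ∈ T, a i * f i x) = ∑ i ∈ T, a i • cl P (f i) := by
  classical
  induction T using Finset.induction_on with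
  | empty => simp only [sum_empty]; exact cl_zero
  | insert j T hj ih =>
    have h1 : (fun x => ∑ i ∈ insert j T, a i * f i x) =
        fun x => a j * f j x + ∑ i ∈ T, a i * f i x := by
      funext x; rw [sum_insert hj]
    rw [h1, sum_insert hj, cl_add ((dep_const n _).mul (hf j (mem_insert_self _ _)))
      (Dep.sum _ fun i hi => (dep_const n _).mul (hf i (mem_insert_of_mem hi))),
      cl_smul (hf j (mem_insert_self _ _)), ih fun i hi => hf i (mem_insert_of_mem hi)]

lemma norm_cl [Fact (1 ≤ P)] (hP : 1 < P.toReal) {n : ℕ} {F : (ℕ → Bool) → ℝ} (hF : Dep n F) :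
    ‖cl P F‖ = nm P.toReal F := by
  have hP0 : P ≠ 0 := by
    intro h; rw [h] at hP; norm_num at hP
  have hPt : P ≠ ⊤ := by
    intro h; rw [h] at hP; norm_num at hP
  rw [Lp.norm_def, eLpNorm_congr_ae (coe_cl hF), MemLp.eLpNorm_eq_integral_rpow_norm hP0 hPt
    (hF.memLp P), ENNReal.toReal_ofReal (by positivity)]
  unfold nm E
  rw [one_div]
  rfl

lemma base_congr {w v : ℕ → Bool} {n : ℕ} (h : ∀ i < n, w i = v i) : base w n = base v n := by
  induction n with
  | zero => rfl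
  | succ n ih =>
    rw [base, base, ih fun i hi => h i (by omega), h n (Nat.lt_succ_self n)]

lemma exists_cyl [Fact (1 ≤ P)] (hPt : P ≠ ⊤) (f : Lp ℝ P mu) {ε : ℝ} (hε : 0 < ε) :
    ∃ (n : ℕ) (F : (ℕ → Bool) → ℝ), Dep n F ∧ ‖f - cl P F‖ < ε := by
  have hε3 : ENNReal.ofReal (ε / 3) ≠ 0 := by
    rw [ne_eq, ENNReal.ofReal_eq_zero, not_le]; positivity
  obtain ⟨g, hg, hgm⟩ := (Lp.memLp f).exists_boundedContinuous_eLpNorm_sub_le hPt hε3
  have hu : UniformContinuousOn g (Set.Icc (0:ℝ) 1) :=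
    isCompact_Icc.uniformContinuousOn_of_continuous g.continuous.continuousOn
  rw [Metric.uniformContinuousOn_iff] at hu
  obtain ⟨δ, hδ, hδ'⟩ := hu (ε / 3) (by positivity)
  obtain ⟨n, hn⟩ := exists_pow_lt_of_lt_one hδ (by norm_num : (1:ℝ) / 2 < 1)
  set F : (ℕ → Bool) → ℝ := fun w => g (base w n) with hF
  have hD : Dep n F := by
    intro x y hxy
    change g (base x n) = g (base y n)
    rw [base_congr hxy]
  refine ⟨n, F, hD, ?_⟩
  have hae : ∀ᵐ x ∂mu, x ∈ Set.Ico (0 : ℝ) 1 := by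
    unfold mu
    rw [← Measure.restrict_congr_set Ico_ae_eq_Icc]
    exact ae_restrict_mem measurableSet_Ico
  have h1 : ∀ᵐ x ∂mu, ‖g x - F (dig x)‖ ≤ ε / 3 := by
    filter_upwards [hae] with x hx
    have h2 := (cell_iff (dig x) n x hx).mp (fun i _ => rfl)
    have h3 : dist x (base (dig x) n) < δ := by
      rw [Real.dist_eq, abs_of_nonneg (by linarith [h2.1])]
      linarith [h2.2]
    have h4 : base (dig x) n ∈ Set.Icc (0:ℝ) 1 := by
      refine ⟨base_nonneg _ _, ?_⟩
      have := base_le (dig x) n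
      have h5 : (0:ℝ) < (1 / 2) ^ n := by positivity
      linarith
    have h6 := hδ' x ⟨hx.1, hx.2.le⟩ _ h4 h3
    rw [dist_eq_norm] at h6
    exact h6.le
  have h2 : eLpNorm (fun x => g x - F (dig x)) P mu ≤ ENNReal.ofReal (ε / 3) := by
    have := eLpNorm_le_of_ae_bound (p := P) h1
    simpa using this
  have hm1 : AEStronglyMeasurable (fun x => f x - g x) mu := (Lp.memLp f).1.sub hgm.1
  have hm2 : AEStronglyMeasurable (fun x => g x - F (dig x)) mu := hgm.1.sub (hD.memLp P).1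
  have h3 : eLpNorm (f - cl P F : Lp ℝ P mu) P mu ≤ ENNReal.ofReal (ε / 3) +
      ENNReal.ofReal (ε / 3) := by
    have e1 : ((f - cl P F : Lp ℝ P mu) : ℝ → ℝ) =ᵐ[mu]
        (fun x => f x - g x) + fun x => g x - F (dig x) := by
      filter_upwards [Lp.coeFn_sub f (cl P F), coe_cl (P := P) hD] with x h4 h5
      rw [h4, Pi.sub_apply, h5, Pi.add_apply]
      ring
    rw [eLpNorm_congr_ae e1]
    exact (eLpNorm_add_le hm1 hm2 (Fact.out)).trans (add_le_add hg h2)
  rw [Lp.norm_def]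
  rw [← ENNReal.ofReal_add (by positivity) (by positivity)] at h3
  have h4 := ENNReal.toReal_mono ENNReal.ofReal_ne_top h3
  rw [ENNReal.toReal_ofReal (by positivity)] at h4
  linarith

/-- The basis elements in `L_p`. -/
noncomputable def bE (P : ℝ≥0∞) (i : IL ⊕ IR) : Lp ℝ P mu := cl P (bI P.toReal i)

lemma cl_span [Fact (1 ≤ P)] {F : (ℕ → Bool) → ℝ} (hF : F ∈ SI P.toReal) :
    (∃ n, Dep n F) ∧ cl P F ∈ Submodule.span ℝ (Set.range (bE P)) := by
  induction hF using Submodule.span_induction with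
  | mem x hx =>
    obtain ⟨i, rfl⟩ := hx
    exact ⟨⟨_, dep_bI _ i⟩, Submodule.subset_span ⟨i, rfl⟩⟩
  | zero =>
    refine ⟨⟨0, dep_const 0 0⟩, ?_⟩
    have : cl P (0 : (ℕ → Bool) → ℝ) = 0 := cl_zero
    rw [this]; exact Submodule.zero_mem _
  | add a b _ _ ha hb =>
    obtain ⟨⟨n, hn⟩, ha⟩ := ha
    obtain ⟨⟨m, hm⟩, hb⟩ := hb
    have h1 := hn.mono (le_max_left n m)
    have h2 := hm.mono (le_max_right n m)
    refine ⟨⟨_, h1.add h2⟩, ?_⟩
    have : cl P (a + b) = cl P a + cl P b := cl_add h1 h2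
    rw [this]; exact Submodule.add_mem _ ha hb
  | smul c a _ ha =>
    obtain ⟨⟨n, hn⟩, ha⟩ := ha
    refine ⟨⟨n, (dep_const n c).mul hn⟩, ?_⟩
    have : cl P (c • a) = c • cl P a := cl_smul hn c
    rw [this]; exact Submodule.smul_mem _ _ ha

theorem dense_bE [Fact (1 ≤ P)] (hP : 1 < P.toReal) :
    (Submodule.span ℝ (Set.range (bE P))).topologicalClosure = ⊤ := by
  have hPt : P ≠ ⊤ := by
    intro h; rw [h] at hP; norm_num at hP
  rw [eq_top_iff]
  intro f _
  change f ∈ closure ((Submodule.span ℝ (Set.range (bE P)) : Submodule ℝ (Lp ℝ P mu)) : Set _)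
  rw [Metric.mem_closure_iff]
  intro ε hε
  obtain ⟨n, F, hF, h⟩ := exists_cyl hPt f hε
  refine ⟨cl P F, (cl_span (cyl_SI hP hF)).2, ?_⟩
  rw [dist_eq_norm]
  exact h

theorem unc_bE [Fact (1 ≤ P)] (hP : 1 < P.toReal) : ∃ C : ℝ, 0 < C ∧ ∀ (S : Finset (IL ⊕ IR))
    (a θ : IL ⊕ IR → ℝ), (∀ i, |θ i| ≤ 1) → ‖∑ i ∈ S, (θ i * a i) • bE P i‖ ≤
      C * ‖∑ i ∈ S, a i • bE P i‖ := by
  obtain ⟨C, hC, h⟩ := unc_bI hP
  refine ⟨C, hC, fun S a θ hθ => ?_⟩
  obtain ⟨n, hn, hn'⟩ := exists_dep_fam S dI (bI P.toReal) (dep_bI P.toReal)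
  have h1 := h S a θ hθ
  rw [← norm_cl (P := P) hP (hn' a), ← norm_cl (P := P) hP (hn' fun i => θ i * a i),
    cl_sum S a hn, cl_sum S (fun i => θ i * a i) hn] at h1
  exact h1

theorem norm_bE [Fact (1 ≤ P)] (hP : 1 < P.toReal) (i : IL ⊕ IR) : ‖bE P i‖ = 1 := by
  unfold bE
  rw [norm_cl hP (dep_bI _ i), nm_bI hP]

end Pool.Agent.H66R3.PG
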