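import Mathlib
import Pool.Agent.Helper415.WC2
import Pool.Agent.Helper415.TG2

/-! Uniform smoothness of `L_p`, `1 < p < ∞`, and the norming functional. -/

set_option autoImplicit false

open MeasureTheory
open scoped ENNReal

namespace Pool.Agent.H66R3.PG

open Pool.Agent.Helper415 Pool.Agent.Helper415.TG

lemma pw_one {p : ℝ} (hp : 1 < p) (hp2 : p ≤ 2) (b : ℝ) :
    |1 - b| ^ p ≤ 1 - p * b + 13 * |b| ^ p := by
  have hp0 : 0 < p := by linarith
  rcases le_or_gt |b| (1 / 2) with h | h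
  · have hb := abs_le.mp h
    have hpos : 0 ≤ 1 - b := by linarith
    rw [abs_of_nonneg hpos]
    have h1 : (1 - b) ^ p ≤ (Real.exp (-b)) ^ p :=
      Real.rpow_le_rpow hpos (Real.one_sub_le_exp_neg b) hp0.le
    have h2 : (Real.exp (-b)) ^ p = Real.exp (-(p * b)) := by
      rw [← Real.exp_mul]; ring_nf
    have h3 : |-(p * b)| ≤ 1 := by
      rw [abs_neg, abs_mul, abs_of_pos hp0]
      nlinarith [abs_nonneg b]
    have h4 := abs_le.mp (Real.abs_exp_sub_one_sub_id_le h3)
    have h5 : Real.exp (-(p * b)) ≤ 1 - p * b + (p * b) ^ 2 := by nlinarith [h4.2]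
    have h6 : (p * b) ^ 2 ≤ 4 * |b| ^ p := by
      have h7 : b ^ 2 ≤ |b| ^ p := by
        rcases (abs_nonneg b).eq_or_lt with h0 | h0
        · have : b = 0 := abs_eq_zero.mp h0.symm
          subst this
          rw [abs_zero, Real.zero_rpow hp0.ne']; norm_num
        · have := Real.rpow_le_rpow_of_exponent_ge h0 (by linarith) hp2
          rw [Real.rpow_two, sq_abs] at this
          exact this
      have h8 : p ^ 2 ≤ 4 := by nlinarith
      rw [mul_pow]
      nlinarith [sq_nonneg b]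
    have h9 : 0 ≤ |b| ^ p := by positivity
    linarith [h1.trans (h2.le.trans h5)]
  · have hb0 : 0 < |b| := by linarith
    have h1 : |1 - b| ≤ 3 * |b| := by
      calc |1 - b| ≤ |(1:ℝ)| + |b| := abs_sub _ _
        _ = 1 + |b| := by simp
        _ ≤ 3 * |b| := by linarith
    have h2 : |1 - b| ^ p ≤ 9 * |b| ^ p := by
      refine (Real.rpow_le_rpow (abs_nonneg _) h1 hp0.le).trans ?_
      rw [Real.mul_rpow (by norm_num) (abs_nonneg _)]
      apply mul_le_mul_of_nonneg_right _ (by positivity)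
      have := Real.rpow_le_rpow_of_exponent_le (by norm_num : (1:ℝ) ≤ 3) hp2
      rw [Real.rpow_two] at this
      linarith
    have h3 : |b| ≤ 2 * |b| ^ p := by
      have h4 : |b| ^ p = |b| ^ (p - 1) * |b| := by
        rw [← Real.rpow_add_one hb0.ne']; ring_nf
      have h5 : (1 / 2 : ℝ) ≤ |b| ^ (p - 1) := by
        have h6 : (1 / 2 : ℝ) ^ (p - 1) ≤ |b| ^ (p - 1) :=
          Real.rpow_le_rpow (by norm_num) h.le (by linarith)
        have h7 : (1 / 2 : ℝ) ^ (1:ℝ) ≤ (1 / 2 : ℝ) ^ (p - 1) :=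
          Real.rpow_le_rpow_of_exponent_ge (by norm_num) (by norm_num) (by linarith)
        rw [Real.rpow_one] at h7
        linarith
      rw [h4]
      nlinarith
    have h8 : p * b ≤ 2 * |b| := by
      have := le_abs_self b
      nlinarith
    linarith

/-- Pointwise inequality, `1 < p ≤ 2`. -/
lemma pw_low {p : ℝ} (hp : 1 < p) (hp2 : p ≤ 2) (a b : ℝ) :
    |a - b| ^ p ≤ |a| ^ p - p * (|a| ^ (p - 2) * a * b) + 13 * |b| ^ p := by
  have hp0 : 0 < p := by linarith
  have hbp : 0 ≤ |b| ^ p := by positivity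
  rcases eq_or_ne a 0 with ha | ha
  · subst ha
    rw [zero_sub, abs_neg, abs_zero, Real.zero_rpow hp0.ne']
    simp only [mul_zero, zero_mul, sub_zero, zero_add]
    linarith
  · have hapos : 0 < |a| := abs_pos.mpr ha
    have hsplit : |a| ^ p = |a| ^ (p - 2) * |a| ^ 2 := by
      rw [← Real.rpow_natCast |a| 2, ← Real.rpow_add hapos]; norm_num
    have h1 := pw_one hp hp2 (b / a)
    have h2 : |a - b| ^ p = |a| ^ p * |1 - b / a| ^ p := by
      rw [← Real.mul_rpow (abs_nonneg _) (abs_nonneg _), ← abs_mul]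
      congr 2
      field_simp
    have h3 : |a| ^ p * (b / a) = |a| ^ (p - 2) * a * b := by
      rw [hsplit, sq_abs]; field_simp
    have h5 : |a| ^ p * |b / a| ^ p = |b| ^ p := by
      rw [← Real.mul_rpow (abs_nonneg _) (abs_nonneg _), ← abs_mul]
      congr 2
      field_simp
    have h6 : |a| ^ p * |1 - b / a| ^ p ≤ |a| ^ p * (1 - p * (b / a) + 13 * |b / a| ^ p) :=
      mul_le_mul_of_nonneg_left h1 (by positivity)
    rw [h2]
    refine h6.trans (le_of_eq ?_)
    rw [← h3, ← h5]; ring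

lemma mul_le_add {p x y : ℝ} (hp : 1 < p) (hx : 0 ≤ x) (hy : 0 ≤ y) :
    x ^ (p - 2) * x * y ≤ x ^ p + y ^ p := by
  have hxp : 0 ≤ x ^ p := by positivity
  have hyp : 0 ≤ y ^ p := by positivity
  rcases hx.eq_or_lt with h0 | h0
  · rw [← h0, mul_zero, zero_mul, Real.zero_rpow (by linarith)]
    linarith
  · have h1 : x ^ (p - 2) * x = x ^ (p - 1) := by
      rw [← Real.rpow_add_one h0.ne']; ring_nf
    rw [h1]
    rcases le_total y x with h | h
    · have h2 : x ^ p = x ^ (p - 1) * x := by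
        rw [← Real.rpow_add_one h0.ne']; ring_nf
      have h3 : x ^ (p - 1) * y ≤ x ^ (p - 1) * x := mul_le_mul_of_nonneg_left h (by positivity)
      linarith
    · have hy0 : 0 < y := by linarith
      have h2 : y ^ p = y ^ (p - 1) * y := by
        rw [← Real.rpow_add_one hy0.ne']; ring_nf
      have h3 : x ^ (p - 1) * y ≤ y ^ (p - 1) * y :=
        mul_le_mul_of_nonneg_right (Real.rpow_le_rpow hx h (by linarith)) hy
      linarith

section Lp

variable {X : Type} [MeasurableSpace X] {μ : Measure X} {P : ℝ≥0∞} [Fact (1 ≤ P)]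

omit [Fact (1 ≤ P)] in
lemma P_facts (hP : 1 < P.toReal) : P ≠ 0 ∧ P ≠ ⊤ := by
  constructor <;> (intro h; rw [h] at hP; norm_num at hP)

lemma Lp_int (hP : 1 < P.toReal) (f : Lp ℝ P μ) : Integrable (fun x => |f x| ^ P.toReal) μ := by
  have h1 := (Lp.memLp f).integrable_norm_rpow (P_facts hP).1 (P_facts hP).2
  simpa [Real.norm_eq_abs] using h1

lemma Lp_norm (hP : 1 < P.toReal) (f : Lp ℝ P μ) {w : X → ℝ} (hw : w =ᵐ[μ] f) :
    ∫ x, |w x| ^ P.toReal ∂μ = ‖f‖ ^ P.toReal := by
  have hp0 : P.toReal ≠ 0 := by linarith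
  rw [Lp.norm_def, MemLp.eLpNorm_eq_integral_rpow_norm (P_facts hP).1 (P_facts hP).2 (Lp.memLp f)]
  rw [ENNReal.toReal_ofReal (by positivity), ← Real.rpow_mul (by positivity),
    inv_mul_cancel₀ hp0, Real.rpow_one]
  apply integral_congr_ae
  filter_upwards [hw] with x hx
  rw [hx, Real.norm_eq_abs]

lemma Lp_intJ (hP : 1 < P.toReal) (f g : Lp ℝ P μ) :
    Integrable (fun x => |f x| ^ (P.toReal - 2) * f x * g x) μ := by
  refine Integrable.mono' ((Lp_int hP f).add (Lp_int hP g))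
    (((WC.meas_abs_rpow (Lp.memLp f).1 (P.toReal - 2)).mul (Lp.memLp f).1).mul (Lp.memLp g).1) ?_
  refine Filter.Eventually.of_forall (fun x => ?_)
  rw [Real.norm_eq_abs, abs_mul, abs_mul,
    abs_of_nonneg (by positivity : (0:ℝ) ≤ |f x| ^ (P.toReal - 2))]
  exact mul_le_add hP (abs_nonneg _) (abs_nonneg _)

lemma pair_add (hP : 1 < P.toReal) (f g h : Lp ℝ P μ) :
    pairing μ P.toReal f ((g + h : Lp ℝ P μ)) =
      pairing μ P.toReal f g + pairing μ P.toReal f h := by
  unfold pairing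
  rw [← integral_add (Lp_intJ hP f g) (Lp_intJ hP f h)]
  apply integral_congr_ae
  filter_upwards [Lp.coeFn_add g h] with x hx
  rw [hx, Pi.add_apply]; ring

omit [Fact (1 ≤ P)] in
lemma pair_smul (f g : Lp ℝ P μ) (c : ℝ) :
    pairing μ P.toReal f ((c • g : Lp ℝ P μ)) = c * pairing μ P.toReal f g := by
  unfold pairing
  rw [← integral_const_mul]
  apply integral_congr_ae
  filter_upwards [Lp.coeFn_smul c g] with x hx
  rw [hx, Pi.smul_apply, smul_eq_mul]; ring

lemma pair_self (hP : 1 < P.toReal) (f : Lp ℝ P μ) :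
    pairing μ P.toReal f f = ‖f‖ ^ P.toReal := by
  rw [← Lp_norm hP f Filter.EventuallyEq.rfl]
  unfold pairing
  apply integral_congr_ae
  refine Filter.Eventually.of_forall (fun x => ?_)
  change |f x| ^ (P.toReal - 2) * f x * f x = |f x| ^ P.toReal
  rcases eq_or_ne (f x) 0 with h | h
  · rw [h, abs_zero, mul_zero, Real.zero_rpow (by linarith)]
  · have h0 : 0 < |f x| := abs_pos.mpr h
    rw [mul_assoc, ← pow_two, ← sq_abs, ← Real.rpow_natCast |f x| 2, ← Real.rpow_add h0]
    congr 1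
    push_cast
    ring

/-- The norming functional as a linear map. -/
noncomputable def FF (hP : 1 < P.toReal) (f : Lp ℝ P μ) : Lp ℝ P μ →ₗ[ℝ] ℝ where
  toFun g := normingF f g
  map_add' g h := by
    unfold normingF
    rw [pair_add hP]; ring
  map_smul' c g := by
    unfold normingF
    rw [pair_smul]; simp only [RingHom.id_apply, smul_eq_mul]; ring

lemma FF_apply (hP : 1 < P.toReal) (f g : Lp ℝ P μ) : FF hP f g = normingF f g := rfl

lemma F_self (hP : 1 < P.toReal) {f : Lp ℝ P μ} (hf : f ≠ 0) : normingF f f = ‖f‖ := by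
  have hf0 : 0 < ‖f‖ := norm_pos_iff.mpr hf
  unfold normingF
  rw [pair_self hP, ← Real.rpow_add hf0]
  have : 1 - P.toReal + P.toReal = 1 := by ring
  rw [this, Real.rpow_one]

lemma F_le (hP : 1 < P.toReal) (f g : Lp ℝ P μ) : |normingF f g| ≤ ‖g‖ := by
  set p := P.toReal with hp
  rcases eq_or_ne f 0 with hf | hf
  · unfold normingF
    rw [hf, norm_zero, Real.zero_rpow (by linarith), zero_mul, abs_zero]
    exact norm_nonneg _
  rcases eq_or_ne g 0 with hg | hg
  · have h1 : normingF f g = 0 := by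
      rw [hg]; exact (FF hP f).map_zero
    rw [h1, abs_zero]; exact norm_nonneg _
  have hu : 0 < ‖f‖ := norm_pos_iff.mpr hf
  have hv : 0 < ‖g‖ := norm_pos_iff.mpr hg
  have hpq : p.HolderConjugate (p / (p - 1)) := Real.HolderConjugate.conjExponent hP
  set q := p / (p - 1) with hq
  set u := ‖f‖ with hu'
  set v := ‖g‖ with hv'
  have hp1 : 0 < p - 1 := by linarith
  have hpt : ∀ x, |f x| ^ (p - 2) * |f x| * |g x| ≤
      u ^ (p - 1) * v * ((|f x| ^ p / u ^ p) / q + (|g x| ^ p / v ^ p) / p) := by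
    intro x
    have h1 := Real.young_inequality_of_nonneg (a := |g x| / v) (b := (|f x| / u) ^ (p - 1))
      (by positivity) (by positivity) hpq
    have h2 : ((|f x| / u) ^ (p - 1)) ^ q = |f x| ^ p / u ^ p := by
      rw [← Real.rpow_mul (by positivity), hq, mul_div_cancel₀ _ hp1.ne',
        Real.div_rpow (abs_nonneg _) hu.le]
    have h3 : (|g x| / v) ^ p = |g x| ^ p / v ^ p := Real.div_rpow (abs_nonneg _) hv.le _
    rw [h2, h3, Real.div_rpow (abs_nonneg _) hu.le] at h1
    have h4 : |f x| ^ (p - 2) * |f x| = |f x| ^ (p - 1) := by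
      rcases (abs_nonneg (f x)).eq_or_lt with h0 | h0
      · rw [← h0, mul_zero, Real.zero_rpow hp1.ne']
      · rw [← Real.rpow_add_one h0.ne']; ring_nf
    rw [h4]
    have h5 : 0 < u ^ (p - 1) * v := by positivity
    have h6 : |f x| ^ (p - 1) * |g x| =
        u ^ (p - 1) * v * (|g x| / v * (|f x| ^ (p - 1) / u ^ (p - 1))) := by
      field_simp
    rw [h6]
    apply mul_le_mul_of_nonneg_left _ h5.le
    linarith
  have hup : 0 < u ^ p := by positivity
  have hvp : 0 < v ^ p := by positivity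
  have i1 : Integrable (fun x => u ^ (p - 1) * v * ((|f x| ^ p / u ^ p) / q +
      (|g x| ^ p / v ^ p) / p)) μ :=
    ((((Lp_int hP f).div_const _).div_const _).add
      (((Lp_int hP g).div_const _).div_const _)).const_mul _
  have h1 : |pairing μ p f g| ≤ u ^ (p - 1) * v := by
    unfold pairing
    rw [← Real.norm_eq_abs]
    refine (norm_integral_le_integral_norm _).trans ?_
    refine (integral_mono_of_nonneg (Filter.Eventually.of_forall fun x => norm_nonneg _) i1
      (Filter.Eventually.of_forall fun x => ?_)).trans (le_of_eq ?_)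
    · change ‖|f x| ^ (p - 2) * f x * g x‖ ≤ _
      rw [Real.norm_eq_abs, abs_mul, abs_mul,
        abs_of_nonneg (by positivity : (0:ℝ) ≤ |f x| ^ (p - 2))]
      exact hpt x
    · rw [integral_const_mul, integral_add (((Lp_int hP f).div_const _).div_const _)
        (((Lp_int hP g).div_const _).div_const _), integral_div, integral_div, integral_div,
        integral_div, Lp_norm hP f Filter.EventuallyEq.rfl, Lp_norm hP g Filter.EventuallyEq.rfl]
      have h2 := hpq.inv_add_inv_eq_one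
      have h3 : ‖f‖ ^ p / u ^ p / q + ‖g‖ ^ p / v ^ p / p = 1 := by
        rw [← hu', ← hv', div_self hup.ne', div_self hvp.ne', one_div, one_div]
        linarith
      rw [← hp, h3, mul_one]
  unfold normingF
  rw [abs_mul, abs_of_pos (by positivity : (0:ℝ) < ‖f‖ ^ (1 - P.toReal)), ← hp, ← hu']
  calc u ^ (1 - p) * |pairing μ p f g| ≤ u ^ (1 - p) * (u ^ (p - 1) * v) :=
        mul_le_mul_of_nonneg_left h1 (by positivity)
    _ = v := by
        rw [← mul_assoc, ← Real.rpow_add hu]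
        have : 1 - p + (p - 1) = 0 := by ring
        rw [this, Real.rpow_zero, one_mul]

/-- The exponent `max (2, p')`. -/
noncomputable def QQ (p : ℝ) : ℝ := if 2 ≤ p then 2 else p / (p - 1)

lemma QQ_pos {p : ℝ} (hp : 1 < p) : 0 < QQ p := by
  unfold QQ
  have : 0 < p - 1 := by linarith
  split_ifs <;> positivity

/-- Decrease of the `p`-th power of the norm. -/
lemma smooth_pow (hP : 1 < P.toReal) : ∃ κ : ℝ, 0 < κ ∧ ∀ f g : Lp ℝ P μ, f ≠ 0 → ‖g‖ ≤ 1 →
    ∃ s : ℝ, ‖f - s • g‖ ^ P.toReal ≤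
      ‖f‖ ^ P.toReal * (1 - κ * |normingF f g| ^ QQ P.toReal) := by
  set p := P.toReal with hp
  have hp0 : 0 < p := by linarith
  have hsub : ∀ (f g : Lp ℝ P μ) (s : ℝ), (fun x => f x - s * g x) =ᵐ[μ] (f - s • g : Lp ℝ P μ) := by
    intro f g s
    filter_upwards [Lp.coeFn_sub f (s • g), Lp.coeFn_smul s g] with x h1 h2
    rw [h1, Pi.sub_apply, h2, Pi.smul_apply, smul_eq_mul]
  by_cases h2 : 2 ≤ p
  · refine ⟨WC.kap p, WC.kap_pos h2, fun f g hf hg => ?_⟩
    have hu : 0 < ‖f‖ := norm_pos_iff.mpr hf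
    have hPe : ENNReal.ofReal p = P := ENNReal.ofReal_toReal (P_facts hP).2
    have m1 : MemLp f (ENNReal.ofReal p) μ := by rw [hPe]; exact Lp.memLp f
    have m2 : MemLp g (ENNReal.ofReal p) μ := by rw [hPe]; exact Lp.memLp g
    obtain ⟨s, hs⟩ := WC.decrease h2 hu m1 m2 (Lp_norm hP f Filter.EventuallyEq.rfl) (by
      rw [Lp_norm hP g Filter.EventuallyEq.rfl]
      exact Real.rpow_le_one (norm_nonneg _) hg hp0.le)
    refine ⟨s, ?_⟩
    rw [Lp_norm hP (f - s • g) (hsub f g s)] at hs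
    refine hs.trans (le_of_eq ?_)
    unfold QQ
    rw [if_pos h2, Real.rpow_two, sq_abs]
    have : ‖f‖ * (∫ x, |f x| ^ (p - 2) * f x * g x ∂μ) / ‖f‖ ^ p = normingF f g := by
      unfold normingF pairing
      rw [← hp, Real.rpow_sub hu, Real.rpow_one]
      ring
    rw [this]
  · have hp2 : p ≤ 2 := by linarith
    have hp1 : 0 < p - 1 := by linarith
    set κ : ℝ := 1 / 2 * (1 / 26 : ℝ) ^ (1 / (p - 1)) with hκ
    refine ⟨κ, by positivity, fun f g hf hg => ?_⟩
    have hu : 0 < ‖f‖ := norm_pos_iff.mpr hf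
    set u := ‖f‖ with hu'
    set F : ℝ := normingF f g with hF
    set J : ℝ := pairing μ p f g with hJ
    have hJF : J = u ^ (p - 1) * F := by
      rw [hF]
      unfold normingF
      rw [← hp, ← hJ, ← hu', ← mul_assoc, ← Real.rpow_add hu]
      have : p - 1 + (1 - p) = 0 := by ring
      rw [this, Real.rpow_zero, one_mul]
    -- the choice of the step
    set σ0 : ℝ := (|F| * (1 / 26)) ^ (1 / (p - 1)) with hσ0
    have hσ00 : 0 ≤ σ0 := by positivity
    obtain ⟨e, he, heF⟩ : ∃ e : ℝ, |e| = 1 ∧ e * F = |F| := by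
      rcases le_total 0 F with h | h
      · exact ⟨1, abs_one, by rw [one_mul, abs_of_nonneg h]⟩
      · exact ⟨-1, by simp, by rw [abs_of_nonpos h]; ring⟩
    refine ⟨e * σ0 * u, ?_⟩
    set s : ℝ := e * σ0 * u with hs
    have hpt : ∀ x, |f x - s * g x| ^ p ≤ |f x| ^ p - p * s * (|f x| ^ (p - 2) * f x * g x) +
        13 * |s| ^ p * |g x| ^ p := by
      intro x
      have h1 := pw_low hP hp2 (f x) (s * g x)
      rw [abs_mul, Real.mul_rpow (abs_nonneg _) (abs_nonneg _)] at h1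
      refine h1.trans (le_of_eq (by ring))
    have i1 : Integrable (fun x => |f x| ^ p - p * s * (|f x| ^ (p - 2) * f x * g x)) μ :=
      (Lp_int hP f).sub ((Lp_intJ hP f g).const_mul _)
    have i2 : Integrable (fun x => 13 * |s| ^ p * |g x| ^ p) μ := (Lp_int hP g).const_mul _
    have i3 : Integrable (fun x => |f x - s * g x| ^ p) μ := by
      refine (Lp_int hP (f - s • g)).congr ?_
      filter_upwards [hsub f g s] with x hx
      rw [← hx]
    have h3 := integral_mono i3 (i1.add i2) hpt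
    rw [Lp_norm hP (f - s • g) (hsub f g s)] at h3
    refine h3.trans ?_
    have e1 : ∫ x, ((fun x => |f x| ^ p - p * s * (|f x| ^ (p - 2) * f x * g x)) +
        fun x => 13 * |s| ^ p * |g x| ^ p) x ∂μ = u ^ p - p * s * J + 13 * |s| ^ p * ‖g‖ ^ p := by
      rw [integral_add' i1 i2, integral_const_mul,
        integral_sub (Lp_int hP f) ((Lp_intJ hP f g).const_mul _), integral_const_mul,
        Lp_norm hP f Filter.EventuallyEq.rfl, Lp_norm hP g Filter.EventuallyEq.rfl]
      rfl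
    refine (le_of_eq e1).trans ?_
    have e2 : ‖g‖ ^ p ≤ 1 := Real.rpow_le_one (norm_nonneg _) hg hp0.le
    have e3 : |s| ^ p = σ0 ^ p * u ^ p := by
      rw [hs, abs_mul, abs_mul, he, one_mul, abs_of_nonneg hσ00, abs_of_pos hu,
        Real.mul_rpow hσ00 hu.le]
    have e4 : s * J = σ0 * |F| * u ^ p := by
      rw [hs, hJF, ← heF]
      have : u * u ^ (p - 1) = u ^ p := by
        rw [mul_comm, ← Real.rpow_add_one hu.ne']; ring_nf
      calc e * σ0 * u * (u ^ (p - 1) * F) = σ0 * (e * F) * (u * u ^ (p - 1)) := by ring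
        _ = _ := by rw [this]
    have e5 : σ0 ^ (p - 1) = |F| * (1 / 26) := by
      have h1 : 1 / (p - 1) * (p - 1) = 1 := by field_simp
      rw [hσ0, ← Real.rpow_mul (by positivity), h1, Real.rpow_one]
    have e6 : σ0 ^ p = σ0 * |F| * (1 / 26) := by
      rcases hσ00.eq_or_lt with h0 | h0
      · rw [← h0, Real.zero_rpow hp0.ne']; ring
      · have : σ0 ^ p = σ0 ^ (p - 1) * σ0 := by
          rw [← Real.rpow_add_one h0.ne']; ring_nf
        rw [this, e5]; ring
    have e7 : σ0 * |F| = (1 / 26 : ℝ) ^ (1 / (p - 1)) * |F| ^ (p / (p - 1)) := by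
      rw [hσ0, Real.mul_rpow (abs_nonneg _) (by norm_num)]
      rcases (abs_nonneg F).eq_or_lt with h0 | h0
      · rw [← h0, Real.zero_rpow (by positivity), Real.zero_rpow (by positivity)]; ring
      · have : p / (p - 1) = 1 / (p - 1) + 1 := by field_simp; ring
        rw [this, Real.rpow_add_one h0.ne']; ring
    have e8 : QQ p = p / (p - 1) := by unfold QQ; rw [if_neg h2]
    rw [e8]
    have e9 : 0 ≤ σ0 * |F| := by positivity
    have hup : 0 < u ^ p := by positivity
    have e10 : 13 * |s| ^ p * ‖g‖ ^ p ≤ 13 * |s| ^ p := by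
      have : 0 ≤ 13 * |s| ^ p := by positivity
      nlinarith
    rw [e3, e6] at e10
    have e11 : p * s * J = p * (σ0 * |F| * u ^ p) := by rw [← e4]; ring
    rw [e3, e6, e11]
    have e12 : κ * |F| ^ (p / (p - 1)) = 1 / 2 * (σ0 * |F|) := by rw [e7, hκ]; ring
    rw [e12]
    have e13 : σ0 * |F| * u ^ p ≤ p * (σ0 * |F| * u ^ p) := by
      have : 0 ≤ σ0 * |F| * u ^ p := by positivity
      nlinarith
    nlinarith

/-- One-step decrease of the norm. -/
theorem smooth (hP : 1 < P.toReal) : ∃ κ : ℝ, 0 < κ ∧ ∀ f g : Lp ℝ P μ, f ≠ 0 → ‖g‖ ≤ 1 →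
    ∃ s : ℝ, ‖f - s • g‖ ≤ ‖f‖ * (1 - κ * |normingF f g| ^ QQ P.toReal) := by
  obtain ⟨κ, hκ, h⟩ := smooth_pow (μ := μ) hP
  set p := P.toReal with hp
  have hp0 : 0 < p := by linarith
  refine ⟨κ / p, by positivity, fun f g hf hg => ?_⟩
  obtain ⟨s, hs⟩ := h f g hf hg
  refine ⟨s, ?_⟩
  have hu : 0 < ‖f‖ := norm_pos_iff.mpr hf
  have hup : 0 < ‖f‖ ^ p := by positivity
  set x := κ * |normingF f g| ^ QQ p with hx
  have hx0 : 0 ≤ x := by positivity
  have hx1 : x ≤ 1 := by
    by_contra hcon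
    push Not at hcon
    have h1 : 0 ≤ ‖f - s • g‖ ^ p := by positivity
    have h2 : ‖f‖ ^ p * (1 - x) < 0 := mul_neg_of_pos_of_neg hup (by linarith)
    linarith
  have h1 : ‖f - s • g‖ = (‖f - s • g‖ ^ p) ^ (1 / p) := by
    rw [← Real.rpow_mul (norm_nonneg _), mul_one_div, div_self hp0.ne', Real.rpow_one]
  rw [h1]
  have h2 := Real.rpow_le_rpow (by positivity) hs (by positivity : 0 ≤ 1 / p)
  refine h2.trans ?_
  rw [Real.mul_rpow hup.le (by linarith), ← Real.rpow_mul hu.le, mul_one_div, div_self hp0.ne',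
    Real.rpow_one]
  apply mul_le_mul_of_nonneg_left _ hu.le
  have h3 := rpow_one_add_le_one_add_mul_self (s := -x) (by linarith)
    (by positivity : 0 ≤ 1 / p) (by rw [div_le_one hp0]; linarith)
  rw [← sub_eq_add_neg] at h3
  refine h3.trans (le_of_eq ?_)
  rw [hx]; ring

/-- The norming functional vanishes on directions in which the norm cannot be decreased. -/
lemma F_zero (hP : 1 < P.toReal) {f h : Lp ℝ P μ} (hf : f ≠ 0)
    (hmin : ∀ s : ℝ, ‖f‖ ≤ ‖f - s • h‖) : normingF f h = 0 := by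
  rcases eq_or_ne h 0 with hh | hh
  · rw [hh]; exact (FF hP f).map_zero
  obtain ⟨κ, hκ, H⟩ := smooth (μ := μ) hP
  have hh0 : 0 < ‖h‖ := norm_pos_iff.mpr hh
  obtain ⟨s, hs⟩ := H f (‖h‖⁻¹ • h) hf (by
    rw [norm_smul, norm_inv, norm_norm, inv_mul_cancel₀ hh0.ne'])
  have h1 := hmin (s * ‖h‖⁻¹)
  rw [mul_smul] at h1
  have hu : 0 < ‖f‖ := norm_pos_iff.mpr hf
  have h2 := h1.trans hs
  have h3 : κ * |normingF f (‖h‖⁻¹ • h)| ^ QQ P.toReal ≤ 0 := by
    by_contra hcon
    push Not at hcon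
    nlinarith
  have h4 : |normingF f (‖h‖⁻¹ • h)| = 0 := by
    by_contra hcon
    have h5 : 0 < |normingF f (‖h‖⁻¹ • h)| := lt_of_le_of_ne (abs_nonneg _) (Ne.symm hcon)
    have h6 : 0 < κ * |normingF f (‖h‖⁻¹ • h)| ^ QQ P.toReal := by positivity
    linarith
  have h5 : normingF f (‖h‖⁻¹ • h) = ‖h‖⁻¹ * normingF f h := by
    have := (FF hP f).map_smul (‖h‖⁻¹) h
    exact this
  rw [h5, abs_mul, abs_of_pos (inv_pos.mpr hh0)] at h4
  rcases mul_eq_zero.mp h4 with h6 | h6
  · exact absurd h6 (inv_pos.mpr hh0).ne'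
  · exact abs_eq_zero.mp h6

end Lp

end Pool.Agent.H66R3.PG
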