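import Mathlib
import Pool.Agent.Helper415.TGDefs

/-! Abstract upper bound for the Weak Chebyshev Greedy Algorithm with respect to an unconditional
basis. -/

set_option autoImplicit false

open Finset Pool.Agent.Helper415.TG

namespace Pool.Agent.H66R3.PG

/-- The hypotheses of the abstract upper bound. -/
structure UBH {V : Type} [NormedAddCommGroup V] [NormedSpace ℝ V] (F : V → V → ℝ) (ψ : ℕ → V)
    (K κ W r Q : ℝ) : Prop where
  hK : 1 ≤ K
  hκ : 0 < κ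
  hW : 0 < W
  hr : 0 < r
  hQ : 0 < Q
  norm : ∀ i, ‖ψ i‖ = 1
  supp : ∀ (S T : Finset ℕ) (a : ℕ → ℝ), T ⊆ S →
    ‖∑ i ∈ T, a i • ψ i‖ ≤ K * ‖∑ i ∈ S, a i • ψ i‖
  add : ∀ f g h, F f (g + h) = F f g + F f h
  smul : ∀ (f : V) (c : ℝ) (g : V), F f (c • g) = c * F f g
  self : ∀ f, f ≠ 0 → F f f = ‖f‖
  le : ∀ f g, |F f g| ≤ ‖g‖
  dec : ∀ f g, f ≠ 0 → ‖g‖ ≤ 1 → ∃ s : ℝ, ‖f - s • g‖ ≤ ‖f‖ * (1 - κ * |F f g| ^ Q)
  zero : ∀ f h, f ≠ 0 → (∀ s : ℝ, ‖f‖ ≤ ‖f - s • h‖) → F f h = 0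
  l1 : ∀ (B : Finset ℕ) (a : ℕ → ℝ),
    ∑ i ∈ B, |a i| ≤ W * (B.card : ℝ) ^ r * ‖∑ i ∈ B, a i • ψ i‖

section

variable {V : Type} [NormedAddCommGroup V] [NormedSpace ℝ V] {F : V → V → ℝ} {ψ : ℕ → V}
  {K κ W r Q : ℝ}

lemma UBH.zr (h : UBH F ψ K κ W r Q) (f : V) : F f 0 = 0 := by
  have := h.smul f 0 0
  simpa using this

lemma UBH.neg (h : UBH F ψ K κ W r Q) (f g : V) : F f (-g) = -F f g := by
  have := h.smul f (-1) g
  simpa using this

lemma UBH.sub (h : UBH F ψ K κ W r Q) (f g k : V) : F f (g - k) = F f g - F f k := by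
  rw [sub_eq_add_neg, h.add, h.neg]; ring

lemma UBH.sum (h : UBH F ψ K κ W r Q) (f : V) (B : Finset ℕ) (a : ℕ → ℝ) :
    F f (∑ i ∈ B, a i • ψ i) = ∑ i ∈ B, a i * F f (ψ i) := by
  induction B using Finset.induction_on with
  | empty => simp [h.zr]
  | insert j B hj ih => rw [sum_insert hj, sum_insert hj, h.add, ih, h.smul]

/-- picked set -/
def GG (ι : ℕ → ℕ) (k : ℕ) : Finset ℕ := (range k).image ι

lemma GG_mono {ι : ℕ → ℕ} {k l : ℕ} (h : k ≤ l) : GG ι k ⊆ GG ι l :=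
  image_subset_image (range_subset_range.mpr h)

/-- The index form of a run. -/
structure Idx (F : V → V → ℝ) (ψ : ℕ → V) (t : ℝ) (f₀ : V) (res : ℕ → V) (ι : ℕ → ℕ) : Prop where
  mem : ∀ k, ∃ a : ℕ → ℝ, f₀ - res k = ∑ i ∈ GG ι k, a i • ψ i
  best : ∀ k, ∀ a : ℕ → ℝ, ‖res k‖ ≤ ‖f₀ - ∑ i ∈ GG ι k, a i • ψ i‖
  greedy : ∀ k, res k ≠ 0 → ∀ n, t * |F (res k) (ψ n)| ≤ |F (res k) (ψ (ι k))|

lemma sum_image_span (ι : ℕ → ℕ) (ψ : ℕ → V) (k : ℕ) (v : V) :
    v ∈ Submodule.span ℝ ((fun n => ψ (ι n)) '' Set.Iio k) ↔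
      ∃ a : ℕ → ℝ, v = ∑ i ∈ GG ι k, a i • ψ i := by
  have h1 : (fun n => ψ (ι n)) '' Set.Iio k = ψ '' (GG ι k : Finset ℕ) := by
    unfold GG
    rw [coe_image, ← Set.image_comp]
    congr 1
    ext i; simp
  rw [h1]
  constructor
  · intro hv
    rw [Submodule.mem_span_image_finset_iff_exists_fun'] at hv
    obtain ⟨a, ha⟩ := hv
    exact ⟨a, ha.symm⟩
  · rintro ⟨a, rfl⟩
    exact Submodule.sum_mem _ fun i hi => Submodule.smul_mem _ _
      (Submodule.subset_span ⟨i, mem_coe.mpr hi, rfl⟩)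

lemma run_idx {t : ℝ} {f₀ : V} {φ res : ℕ → V} (hrun : IsRun F (Set.range ψ) t f₀ φ res) :
    ∃ ι : ℕ → ℕ, Idx F ψ t f₀ res ι := by
  classical
  obtain ⟨hr0, hstep⟩ := hrun
  have h1 : ∀ n, ∃ i, res n ≠ 0 → φ n = ψ i := by
    intro n
    by_cases hn : res n = 0
    · exact ⟨0, fun h => absurd hn h⟩
    · obtain ⟨i, hi⟩ := ((hstep n).2 hn).1.1
      exact ⟨i, fun _ => hi.symm⟩
  choose ι hι using h1
  have hzero : ∀ j k, j ≤ k → res j = 0 → res k = 0 := by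
    intro j k hjk hj
    induction k, hjk using Nat.le_induction with
    | base => exact hj
    | succ k _ ih => exact (hstep k).1 ih
  have hall : ∀ k, (f₀ - res k) ∈ Submodule.span ℝ ((fun n => ψ (ι n)) '' Set.Iio k) ∧
      ∀ h ∈ Submodule.span ℝ ((fun n => ψ (ι n)) '' Set.Iio k), ‖res k‖ ≤ ‖f₀ - h‖ := by
    intro k
    induction k with
    | zero =>
      rw [hr0]
      refine ⟨by simp, ?_⟩
      intro h hh
      simp at hh
      rw [hh, sub_zero]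
    | succ k ih =>
      by_cases hk : res k = 0
      · have hk1 := (hstep k).1 hk
        rw [hk1]
        refine ⟨?_, fun h _ => by rw [norm_zero]; exact norm_nonneg _⟩
        have h1 := ih.1
        rw [hk] at h1
        exact Submodule.span_mono (Set.image_mono (Set.Iio_subset_Iio (Nat.le_succ k))) h1
      · obtain ⟨_, G, ⟨hG, hGmin⟩, hrG⟩ := (hstep k).2 hk
        have himg : (fun n => ψ (ι n)) '' Set.Iio (k + 1) = φ '' Set.Iio (k + 1) := by
          apply Set.image_congr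
          intro j hj
          have hj' : j ≤ k := Nat.lt_succ_iff.mp hj
          have : res j ≠ 0 := fun h => hk (hzero j k hj' h)
          exact (hι j this).symm
        rw [hrG, himg]
        refine ⟨?_, hGmin⟩
        have : f₀ - (f₀ - G) = G := by abel
        rw [this]; exact hG
  refine ⟨ι, ⟨fun k => ?_, fun k a => ?_, fun k hk n => ?_⟩⟩
  · exact (sum_image_span ι ψ k _).mp (hall k).1
  · exact (hall k).2 _ ((sum_image_span ι ψ k _).mpr ⟨a, rfl⟩)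
  · have := ((hstep k).2 hk).1.2 (ψ n) ⟨n, rfl⟩
    rw [hι k hk] at this
    exact this

variable {t : ℝ} {f₀ : V} {res : ℕ → V} {ι : ℕ → ℕ}

lemma Idx.mono (hI : Idx F ψ t f₀ res ι) (k : ℕ) : ‖res (k + 1)‖ ≤ ‖res k‖ := by
  obtain ⟨a, ha⟩ := hI.mem k
  have hsub : GG ι k ⊆ GG ι (k + 1) := GG_mono (Nat.le_succ k)
  have h1 := hI.best (k + 1) (fun i => if i ∈ GG ι k then a i else 0)
  have h2 : ∑ i ∈ GG ι (k + 1), (if i ∈ GG ι k then a i else 0) • ψ i =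
      ∑ i ∈ GG ι k, a i • ψ i := by
    rw [← sum_subset hsub]
    · apply sum_congr rfl
      intro i hi
      rw [if_pos hi]
    · intro i _ hi
      rw [if_neg hi, zero_smul]
  rw [h2, ← ha] at h1
  simpa using h1

lemma Idx.mono' (hI : Idx F ψ t f₀ res ι) {k l : ℕ} (h : k ≤ l) : ‖res l‖ ≤ ‖res k‖ := by
  induction l, h using Nat.le_induction with
  | base => exact le_rfl
  | succ l _ ih => exact (hI.mono l).trans ih

lemma Idx.step (h : UBH F ψ K κ W r Q) (hI : Idx F ψ t f₀ res ι) {k : ℕ} (hk : res k ≠ 0) :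
    ‖res (k + 1)‖ ≤ ‖res k‖ * (1 - κ * |F (res k) (ψ (ι k))| ^ Q) := by
  obtain ⟨s, hs⟩ := h.dec (res k) (ψ (ι k)) hk (h.norm _).le
  refine le_trans ?_ hs
  obtain ⟨a, ha⟩ := hI.mem k
  have hsub : GG ι k ⊆ GG ι (k + 1) := GG_mono (Nat.le_succ k)
  have hmem : ι k ∈ GG ι (k + 1) := mem_image_of_mem _ (mem_range.mpr (Nat.lt_succ_self k))
  have h1 := hI.best (k + 1)
    (fun i => (if i ∈ GG ι k then a i else 0) + if i = ι k then s else 0)
  have h2 : ∑ i ∈ GG ι (k + 1),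
      ((if i ∈ GG ι k then a i else 0) + if i = ι k then s else 0) • ψ i =
      ∑ i ∈ GG ι k, a i • ψ i + s • ψ (ι k) := by
    simp only [add_smul, sum_add_distrib]
    congr 1
    · rw [← sum_subset hsub]
      · apply sum_congr rfl
        intro i hi
        rw [if_pos hi]
      · intro i _ hi
        rw [if_neg hi, zero_smul]
    · rw [sum_eq_single (ι k)]
      · rw [if_pos rfl]
      · intro b _ hb
        rw [if_neg hb, zero_smul]
      · intro hcon; exact absurd hmem hcon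
  rw [h2, ← ha] at h1
  have h3 : f₀ - (f₀ - res k + s • ψ (ι k)) = res k - s • ψ (ι k) := by abel
  rw [h3] at h1
  exact h1

lemma Idx.orth (h : UBH F ψ K κ W r Q) (hI : Idx F ψ t f₀ res ι) {k : ℕ} (hk : res k ≠ 0)
    {B : Finset ℕ} (hB : B ⊆ GG ι k) (b : ℕ → ℝ) : F (res k) (∑ i ∈ B, b i • ψ i) = 0 := by
  apply h.zero _ _ hk
  intro s
  obtain ⟨a, ha⟩ := hI.mem k
  have h1 := hI.best k (fun i => a i + if i ∈ B then s * b i else 0)
  have h2 : ∑ i ∈ GG ι k, (a i + if i ∈ B then s * b i else 0) • ψ i =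
      ∑ i ∈ GG ι k, a i • ψ i + s • ∑ i ∈ B, b i • ψ i := by
    simp only [add_smul, sum_add_distrib]
    congr 1
    rw [smul_sum]
    symm
    have e1 : ∑ i ∈ B, s • b i • ψ i = ∑ i ∈ B, (if i ∈ B then s * b i else 0) • ψ i := by
      apply sum_congr rfl
      intro i hi
      rw [if_pos hi, mul_smul]
    rw [e1]
    apply sum_subset hB
    intro i _ hi
    rw [if_neg hi, zero_smul]
  rw [h2, ← ha] at h1
  have h3 : f₀ - (f₀ - res k + s • ∑ i ∈ B, b i • ψ i) = res k - s • ∑ i ∈ B, b i • ψ i := by abel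
  rw [h3] at h1
  exact h1

/-! ### The three facts -/

variable {x : ℕ → ℝ} {A : Finset ℕ} {ε : ℝ}

/-- finite sum -/
def sm (ψ : ℕ → V) (x : ℕ → ℝ) (B : Finset ℕ) : V := ∑ i ∈ B, x i • ψ i

lemma sm_split (ψ : ℕ → V) (x : ℕ → ℝ) (A B : Finset ℕ) :
    sm ψ x A = sm ψ x (A ∩ B) + sm ψ x (A \ B) := by
  unfold sm
  rw [add_comm]
  rw [← sum_sdiff (inter_subset_left : A ∩ B ⊆ A), sdiff_inter_self_left]

lemma fact_a (hI : Idx F ψ t f₀ res ι) (hε : ‖f₀ - sm ψ x A‖ ≤ ε) (k : ℕ) :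
    ‖res k‖ ≤ ε + ‖sm ψ x (A \ GG ι k)‖ := by
  have h1 := hI.best k (fun i => if i ∈ A then x i else 0)
  have h2 : ∑ i ∈ GG ι k, (if i ∈ A then x i else 0) • ψ i = sm ψ x (A ∩ GG ι k) := by
    unfold sm
    rw [← sum_subset (inter_subset_right : A ∩ GG ι k ⊆ GG ι k)]
    · apply sum_congr rfl
      intro i hi
      rw [if_pos (mem_inter.mp hi).1]
    · intro i hi hi'
      rw [if_neg (fun h => hi' (mem_inter.mpr ⟨h, hi⟩)), zero_smul]
  rw [h2] at h1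
  have h3 : f₀ - sm ψ x (A ∩ GG ι k) = (f₀ - sm ψ x A) + sm ψ x (A \ GG ι k) := by
    rw [sm_split ψ x A (GG ι k)]; abel
  rw [h3] at h1
  exact h1.trans ((norm_add_le _ _).trans (by linarith))

lemma fact_b (h : UBH F ψ K κ W r Q) (hI : Idx F ψ t f₀ res ι) (hε : ‖f₀ - sm ψ x A‖ ≤ ε)
    (k : ℕ) : ‖sm ψ x (A \ GG ι k)‖ ≤ K * (‖res k‖ + ε) := by
  obtain ⟨a, ha⟩ := hI.mem k
  have h1 := h.supp (A ∪ GG ι k) (A \ GG ι k)
    (fun i => (if i ∈ A then x i else 0) - if i ∈ GG ι k then a i else 0)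
    (sdiff_subset.trans subset_union_left)
  have h2 : ∑ i ∈ A \ GG ι k, ((if i ∈ A then x i else 0) - if i ∈ GG ι k then a i else 0) • ψ i =
      sm ψ x (A \ GG ι k) := by
    apply sum_congr rfl
    intro i hi
    rw [mem_sdiff] at hi
    rw [if_pos hi.1, if_neg hi.2, sub_zero]
  have h3 : ∑ i ∈ A ∪ GG ι k, ((if i ∈ A then x i else 0) - if i ∈ GG ι k then a i else 0) • ψ i =
      sm ψ x A - (f₀ - res k) := by
    rw [ha]
    simp only [sub_smul, sum_sub_distrib]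
    congr 1
    · unfold sm
      rw [← sum_subset (subset_union_left : A ⊆ A ∪ GG ι k)]
      · apply sum_congr rfl
        intro i hi
        rw [if_pos hi]
      · intro i _ hi
        rw [if_neg hi, zero_smul]
    · rw [← sum_subset (subset_union_right : GG ι k ⊆ A ∪ GG ι k)]
      · apply sum_congr rfl
        intro i hi
        rw [if_pos hi]
      · intro i _ hi
        rw [if_neg hi, zero_smul]
  rw [h2, h3] at h1
  refine h1.trans (mul_le_mul_of_nonneg_left ?_ (by linarith [h.hK]))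
  have h4 : sm ψ x A - (f₀ - res k) = res k - (f₀ - sm ψ x A) := by abel
  rw [h4]
  exact (norm_sub_le _ _).trans (by linarith)

lemma fact_c (h : UBH F ψ K κ W r Q) (hI : Idx F ψ t f₀ res ι) (ht : 0 < t)
    (hε : ‖f₀ - sm ψ x A‖ ≤ ε) {k : ℕ} (hk : res k ≠ 0) {B : Finset ℕ}
    (hB : B ⊆ A \ GG ι k) :
    ‖res k‖ - ε - ‖sm ψ x ((A \ GG ι k) \ B)‖ ≤
      |F (res k) (ψ (ι k))| / t * (W * (B.card : ℝ) ^ r * ‖sm ψ x B‖) := by
  obtain ⟨a, ha⟩ := hI.mem k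
  set θ := |F (res k) (ψ (ι k))| / t with hθ
  have hθ0 : 0 ≤ θ := by positivity
  have hθ1 : ∀ n, |F (res k) (ψ n)| ≤ θ := by
    intro n
    rw [hθ, le_div_iff₀ ht, mul_comm]
    exact hI.greedy k hk n
  have e1 : F (res k) f₀ = ‖res k‖ := by
    have e2 : f₀ = res k + (f₀ - res k) := by abel
    rw [e2, h.add, h.self _ hk, ha, hI.orth h hk (le_refl (GG ι k)) a, add_zero]
  have e3 : F (res k) (sm ψ x A) ≥ ‖res k‖ - ε := by
    have e4 : sm ψ x A = f₀ - (f₀ - sm ψ x A) := by abel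
    rw [e4, h.sub, e1]
    have := (le_abs_self _).trans (h.le (res k) (f₀ - sm ψ x A))
    linarith
  have e5 : F (res k) (sm ψ x (A ∩ GG ι k)) = 0 := hI.orth h hk inter_subset_right x
  have e6 : sm ψ x A = sm ψ x (A ∩ GG ι k) + (sm ψ x B + sm ψ x ((A \ GG ι k) \ B)) := by
    rw [sm_split ψ x A (GG ι k), sm_split ψ x (A \ GG ι k) B, inter_eq_right.mpr hB]
  rw [e6, h.add, h.add, e5, zero_add] at e3
  have e7 := (le_abs_self _).trans (h.le (res k) (sm ψ x ((A \ GG ι k) \ B)))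
  have e8 : F (res k) (sm ψ x B) ≤ θ * ∑ i ∈ B, |x i| := by
    unfold sm
    rw [h.sum, mul_sum]
    apply sum_le_sum
    intro i _
    refine (le_abs_self _).trans ?_
    rw [abs_mul, mul_comm]
    exact mul_le_mul_of_nonneg_right (hθ1 i) (abs_nonneg _)
  have e9 := mul_le_mul_of_nonneg_left (h.l1 B x) hθ0
  have e10 : θ * (W * (B.card : ℝ) ^ r * ‖∑ i ∈ B, x i • ψ i‖) =
    θ * (W * (B.card : ℝ) ^ r * ‖sm ψ x B‖) := rfl
  linarith

/-- One step of a substage. -/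
lemma substep (h : UBH F ψ K κ W r Q) (hI : Idx F ψ t f₀ res ι) (ht : 0 < t)
    (hε : ‖f₀ - sm ψ x A‖ ≤ ε) {k0 k : ℕ} (hk0 : k0 ≤ k) {B : Finset ℕ}
    (hB : B ⊆ A \ GG ι k0) {w : ℝ} (hw : 0 < w) (hBw : (B.card : ℝ) ≤ w)
    (hbig : 2 * (ε + K * ‖sm ψ x ((A \ GG ι k0) \ B)‖) < ‖res k‖) :
    ‖res (k + 1)‖ ≤ ‖res k‖ * (1 - κ * (t / (4 * W * K ^ 2)) ^ Q * (w ^ (r * Q))⁻¹) := by
  have hK := h.hK
  have hW := h.hW
  have hr := h.hr
  have hQ := h.hQ
  have hκ := h.hκ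
  have hε0 : 0 ≤ ε := (norm_nonneg _).trans hε
  have hN : 0 < ‖res k‖ := by
    have : 0 ≤ K * ‖sm ψ x ((A \ GG ι k0) \ B)‖ := by positivity
    linarith
  have hk : res k ≠ 0 := norm_pos_iff.mp hN
  have hG : GG ι k0 ⊆ GG ι k := GG_mono hk0
  set B' := B \ GG ι k with hB'
  have hB'1 : B' ⊆ A \ GG ι k := by
    intro i hi
    rw [hB', mem_sdiff] at hi
    rw [mem_sdiff]
    exact ⟨(mem_sdiff.mp (hB hi.1)).1, hi.2⟩
  have e1 := fact_c h hI ht hε hk hB'1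
  have e2 : ‖sm ψ x ((A \ GG ι k) \ B')‖ ≤ K * ‖sm ψ x ((A \ GG ι k0) \ B)‖ := by
    apply h.supp
    intro i hi
    rw [mem_sdiff, mem_sdiff, hB', mem_sdiff] at hi
    rw [mem_sdiff, mem_sdiff]
    refine ⟨⟨hi.1.1, fun hc => hi.1.2 (hG hc)⟩, fun hc => hi.2 ⟨hc, hi.1.2⟩⟩
  have e3 : ‖sm ψ x B'‖ ≤ K * ‖sm ψ x (A \ GG ι k)‖ := h.supp _ _ _ hB'1
  have e4 := fact_b h hI hε k
  have e5 : ‖sm ψ x B'‖ ≤ 2 * K ^ 2 * ‖res k‖ := by
    have h1 : K * ‖sm ψ x (A \ GG ι k)‖ ≤ K * (K * (‖res k‖ + ε)) :=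
      mul_le_mul_of_nonneg_left e4 (by linarith)
    have h2 : ε ≤ ‖res k‖ := by
      have : 0 ≤ K * ‖sm ψ x ((A \ GG ι k0) \ B)‖ := by positivity
      linarith
    have h3 : K * (K * (‖res k‖ + ε)) ≤ K * (K * (‖res k‖ + ‖res k‖)) := by gcongr
    nlinarith
  have e6 : (B'.card : ℝ) ^ r ≤ w ^ r := by
    apply Real.rpow_le_rpow (by positivity) _ hr.le
    exact le_trans (by exact_mod_cast card_le_card sdiff_subset) hBw
  set θ := |F (res k) (ψ (ι k))| with hθ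
  have hθ0 : 0 ≤ θ := abs_nonneg _
  have e7 : ‖res k‖ / 2 ≤ θ / t * (W * w ^ r * (2 * K ^ 2 * ‖res k‖)) := by
    have h1 : θ / t * (W * (B'.card : ℝ) ^ r * ‖sm ψ x B'‖) ≤
        θ / t * (W * w ^ r * (2 * K ^ 2 * ‖res k‖)) := by
      gcongr
    linarith
  have hwr : 0 < w ^ r := by positivity
  have e8 : t / (4 * W * K ^ 2) * (w ^ r)⁻¹ ≤ θ := by
    have h1 : θ / t * (W * w ^ r * (2 * K ^ 2 * ‖res k‖)) =
        θ * (4 * W * K ^ 2 * w ^ r / t) * (‖res k‖ / 2) := by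
      field_simp
      ring
    rw [h1] at e7
    have h2 : 1 ≤ θ * (4 * W * K ^ 2 * w ^ r / t) := by
      by_contra hcon
      push Not at hcon
      nlinarith
    have h3 : t / (4 * W * K ^ 2) * (w ^ r)⁻¹ = 1 / (4 * W * K ^ 2 * w ^ r / t) := by
      field_simp
    rw [h3, div_le_iff₀ (by positivity)]
    exact h2
  have e9 : κ * (t / (4 * W * K ^ 2)) ^ Q * (w ^ (r * Q))⁻¹ ≤ κ * θ ^ Q := by
    rw [mul_assoc]
    apply mul_le_mul_of_nonneg_left _ hκ.le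
    have h1 := Real.rpow_le_rpow (by positivity) e8 hQ.le
    refine le_trans (le_of_eq ?_) h1
    rw [Real.mul_rpow (by positivity) (by positivity), Real.inv_rpow (by positivity),
      ← Real.rpow_mul hw.le]
  refine (hI.step h hk).trans ?_
  apply mul_le_mul_of_nonneg_left _ hN.le
  linarith

/-- A substage. -/
lemma substage {δ Y b : ℝ} (hδ : 0 < δ) (hb : 1 < b) (hI : Idx F ψ t f₀ res ι) {k0 k : ℕ}
    (_hk0 : k0 ≤ k)
    (hs : ∀ l, k ≤ l → Y < ‖res l‖ → ‖res (l + 1)‖ ≤ ‖res l‖ * (1 - δ)) {n : ℕ}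
    (hn : Real.log b / δ ≤ n) : ‖res (k + n)‖ ≤ max Y (‖res k‖ / b) := by
  by_cases hcase : ∃ l, k ≤ l ∧ l ≤ k + n ∧ ‖res l‖ ≤ Y
  · obtain ⟨l, _, hl2, hl3⟩ := hcase
    exact (hI.mono' hl2).trans (hl3.trans (le_max_left _ _))
  · push Not at hcase
    have h1 : ∀ j ≤ n, ‖res (k + j)‖ ≤ ‖res k‖ * Real.exp (-(δ * j)) := by
      intro j
      induction j with
      | zero => intro _; simp
      | succ j ih =>
        intro hj
        have e1 := ih (by omega)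
        have e2 := hs (k + j) (by omega) (hcase (k + j) (by omega) (by omega))
        have e3 : 1 - δ ≤ Real.exp (-δ) := Real.one_sub_le_exp_neg δ
        have e4 : ‖res (k + j)‖ * (1 - δ) ≤ ‖res (k + j)‖ * Real.exp (-δ) :=
          mul_le_mul_of_nonneg_left e3 (norm_nonneg _)
        have e5 : ‖res (k + j)‖ * Real.exp (-δ) ≤
            ‖res k‖ * Real.exp (-(δ * j)) * Real.exp (-δ) :=
          mul_le_mul_of_nonneg_right e1 (Real.exp_pos _).le
        have e6 : ‖res k‖ * Real.exp (-(δ * j)) * Real.exp (-δ) =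
            ‖res k‖ * Real.exp (-(δ * ((j + 1 : ℕ) : ℝ))) := by
          rw [mul_assoc, ← Real.exp_add]
          congr 2
          push_cast; ring
        rw [← add_assoc]
        linarith
    have h2 := h1 n le_rfl
    refine h2.trans (le_trans ?_ (le_max_right _ _))
    rw [div_eq_mul_inv]
    apply mul_le_mul_of_nonneg_left _ (norm_nonneg _)
    rw [← Real.exp_log (show 0 < b by linarith), ← Real.exp_neg]
    apply Real.exp_le_exp.mpr
    rw [div_le_iff₀ hδ] at hn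
    linarith

end

end Pool.Agent.H66R3.PG
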