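import Mathlib
import Pool.Agent.H66R3.PG.Up

/-! Abstract upper bound: stages and the final theorem. -/

set_option autoImplicit false

open Finset Pool.Agent.Helper415.TG

namespace Pool.Agent.H66R3.PG

variable {V : Type} [NormedAddCommGroup V] [NormedSpace ℝ V] {F : V → V → ℝ} {ψ : ℕ → V}
  {K κ W r Q : ℝ} {t : ℝ} {f₀ : V} {res : ℕ → V} {ι : ℕ → ℕ}
  {x : ℕ → ℝ} {A : Finset ℕ} {ε : ℝ}

/-- The basic rate. -/
noncomputable def rate (K κ W Q t : ℝ) : ℝ := κ * (t / (4 * W * K ^ 2)) ^ Q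

/-- Length of the substage `j`. -/
noncomputable def slen (K κ W Q t s : ℝ) (j : ℕ) : ℕ :=
  ⌈Real.log (4 * K ^ 2) / rate K κ W Q t * ((2:ℝ) ^ j) ^ s⌉₊

lemma sum_slen {D s : ℝ} (hD : 0 ≤ D) (hs : 1 ≤ s) (M : ℕ) :
    ((∑ j ∈ range (M + 1), ⌈D * ((2:ℝ) ^ j) ^ s⌉₊ : ℕ) : ℝ) ≤ 2 * (D + 1) * ((2:ℝ) ^ M) ^ s := by
  induction M with
  | zero =>
    simp only [zero_add, sum_range_one, pow_zero, Real.one_rpow, mul_one]
    have := Nat.ceil_lt_add_one hD
    linarith
  | succ M ih =>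
    rw [sum_range_succ]
    push_cast
    push_cast at ih
    have h1 := (Nat.ceil_lt_add_one (by positivity : 0 ≤ D * ((2:ℝ) ^ (M + 1)) ^ s)).le
    have h2 : (1:ℝ) ≤ ((2:ℝ) ^ (M + 1)) ^ s :=
      Real.one_le_rpow (one_le_pow₀ (by norm_num)) (by linarith)
    have h3 : 2 * ((2:ℝ) ^ M) ^ s ≤ ((2:ℝ) ^ (M + 1)) ^ s := by
      rw [pow_succ, Real.mul_rpow (by positivity) (by norm_num)]
      have h4 : (2:ℝ) ≤ 2 ^ s := by
        have := Real.rpow_le_rpow_of_exponent_le (by norm_num : (1:ℝ) ≤ 2) hs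
        rwa [Real.rpow_one] at this
      have h5 : 0 ≤ ((2:ℝ) ^ M) ^ s := by positivity
      nlinarith
    have h6 : 2 * (D + 1) * ((2:ℝ) ^ M) ^ s ≤ (D + 1) * ((2:ℝ) ^ (M + 1)) ^ s := by
      nlinarith
    nlinarith

/-- A stage. -/
lemma stage (h : UBH F ψ K κ W r Q) (hI : Idx F ψ t f₀ res ι) (ht : 0 < t)
    (hs : 1 ≤ r * Q) (hε : ‖f₀ - sm ψ x A‖ ≤ ε) (k0 : ℕ) (hA : (A \ GG ι k0).Nonempty) :
    ∃ (c n : ℕ), c < (A \ GG ι k0).card ∧
      (n : ℝ) ≤ 2 * (Real.log (4 * K ^ 2) / rate K κ W Q t + 1) * 2 ^ (r * Q) *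
        ((c + 1 : ℕ) : ℝ) ^ (r * Q) ∧
      (‖res (k0 + n)‖ ≤ 5 * ε ∨ c < ((A \ GG ι k0) ∩ GG ι (k0 + n)).card) := by
  classical
  have hK := h.hK
  have hW := h.hW
  have hκ := h.hκ
  have hε0 : 0 ≤ ε := (norm_nonneg _).trans hε
  set A' := A \ GG ι k0 with hA'
  set b : ℝ := 4 * K ^ 2 with hb
  have hb4 : 4 ≤ b := by rw [hb]; nlinarith
  have hb1 : 1 < b := by linarith
  set R := rate K κ W Q t with hR
  have hR0 : 0 < R := by rw [hR]; unfold rate; positivity
  set s := r * Q with hsd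
  -- minimizers
  have hmin : ∀ j : ℕ, ∃ B : Finset ℕ, B ⊆ A' ∧ B.card ≤ 2 ^ j / 2 ∧
      ∀ B' : Finset ℕ, B' ⊆ A' → B'.card ≤ 2 ^ j / 2 →
        ‖sm ψ x (A' \ B)‖ ≤ ‖sm ψ x (A' \ B')‖ := by
    intro j
    have hne : (A'.powerset.filter (fun B => B.card ≤ 2 ^ j / 2)).Nonempty :=
      ⟨∅, by simp⟩
    obtain ⟨B, hB, hBm⟩ := exists_min_image _ (fun B => ‖sm ψ x (A' \ B)‖) hne
    rw [mem_filter, mem_powerset] at hB
    refine ⟨B, hB.1, hB.2, fun B' h1 h2 => hBm B' ?_⟩
    rw [mem_filter, mem_powerset]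
    exact ⟨h1, h2⟩
  choose B hBA hBc hBm using hmin
  set τ : ℕ → ℝ := fun j => ‖sm ψ x (A' \ B j)‖ with hτ
  have hτ0 : ∀ j, 0 ≤ τ j := fun j => norm_nonneg _
  have hB0 : B 0 = ∅ := by
    have := hBc 0
    simpa using this
  have hτz : ∀ j, A'.card ≤ 2 ^ j / 2 → τ j = 0 := by
    intro j hj
    have h1 := hBm j A' (le_refl _) hj
    rw [Finset.sdiff_self] at h1
    have h2 : ‖sm ψ x ∅‖ = 0 := by unfold sm; simp
    rw [h2] at h1
    exact le_antisymm h1 (hτ0 j)
  have hex : ∃ M, b * τ (M + 1) ≤ τ M := by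
    refine ⟨A'.card, ?_⟩
    have h1 : A'.card ≤ 2 ^ (A'.card + 1) / 2 := by
      rw [pow_succ, Nat.mul_div_cancel _ (by norm_num)]
      exact Nat.lt_two_pow_self.le
    rw [hτz _ h1, mul_zero]
    exact hτ0 _
  set M := Nat.find hex with hM
  have hM1 : b * τ (M + 1) ≤ τ M := Nat.find_spec hex
  have hM2 : ∀ j < M, τ j < b * τ (j + 1) := fun j hj => not_le.mp (Nat.find_min hex hj)
  have hcM : 2 ^ M / 2 < A'.card := by
    by_contra hcon
    push Not at hcon
    have hMpos : M ≠ 0 := by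
      intro h0
      rw [h0] at hcon
      have : 0 < A'.card := card_pos.mpr hA
      have h00 : 2 ^ 0 / 2 = 0 := by norm_num
      rw [h00] at hcon
      omega
    obtain ⟨M', hM'⟩ := Nat.exists_eq_succ_of_ne_zero hMpos
    have h1 := hM2 M' (by omega)
    have h2 := hτz M hcon
    rw [hM', Nat.succ_eq_add_one] at h2
    rw [h2, mul_zero] at h1
    exact absurd h1 (not_lt.mpr (hτ0 _))
  -- chain of substages
  set n : ℕ → ℕ := fun j => slen K κ W Q t s j with hn
  set Y : ℕ → ℝ := fun j => 2 * (ε + K * τ j) with hY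
  have hsub : ∀ (j k : ℕ), k0 ≤ k → ‖res (k + n j)‖ ≤ max (Y (j + 1)) (‖res k‖ / b) := by
    intro j k hk
    have hw : (0:ℝ) < 2 ^ j := by positivity
    have hw' : 0 < ((2:ℝ) ^ j) ^ s := by positivity
    set δ : ℝ := R * (((2:ℝ) ^ j) ^ s)⁻¹ with hδ
    have hδ0 : 0 < δ := by positivity
    apply substage hδ0 hb1 hI hk
    · intro l hl hYl
      have hcard : (((B (j + 1)).card : ℕ) : ℝ) ≤ 2 ^ j := by
        have := hBc (j + 1)
        rw [pow_succ, Nat.mul_div_cancel _ (by norm_num)] at this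
        exact_mod_cast this
      have := substep h hI ht hε (hk.trans hl) (hBA (j + 1)) hw hcard hYl
      exact this
    · have h1 : Real.log b / δ = Real.log (4 * K ^ 2) / rate K κ W Q t * ((2:ℝ) ^ j) ^ s := by
        rw [hδ, ← hR, ← hb]
        field_simp
      rw [h1]
      exact Nat.le_ceil _
  have hchain : ∀ j ≤ M, ‖res (k0 + ∑ i ∈ range j, n i)‖ ≤ Y j := by
    intro j
    induction j with
    | zero =>
      intro _
      simp only [range_zero, sum_empty, add_zero]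
      have h1 := fact_a hI hε k0
      have h2 : τ 0 = ‖sm ψ x A'‖ := by
        change ‖sm ψ x (A' \ B 0)‖ = _
        rw [hB0, sdiff_empty]
      change ‖res k0‖ ≤ 2 * (ε + K * τ 0)
      rw [h2]
      have h3 : 0 ≤ ‖sm ψ x A'‖ := norm_nonneg _
      nlinarith
    | succ j ih =>
      intro hj
      have h1 := ih (by omega)
      rw [sum_range_succ, ← add_assoc]
      refine (hsub j _ (Nat.le_add_right _ _)).trans (max_le le_rfl ?_)
      rw [div_le_iff₀ (by linarith)]
      refine h1.trans ?_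
      have h2 := hM2 j (by omega)
      change 2 * (ε + K * τ j) ≤ 2 * (ε + K * τ (j + 1)) * b
      have h3 : K * τ j ≤ K * (b * τ (j + 1)) := mul_le_mul_of_nonneg_left h2.le (by linarith)
      nlinarith
  have hend : ‖res (k0 + ∑ i ∈ range (M + 1), n i)‖ ≤ 2 * (ε + K * τ M / b) := by
    rw [sum_range_succ, ← add_assoc]
    refine (hsub M _ (Nat.le_add_right _ _)).trans (max_le ?_ ?_)
    · change 2 * (ε + K * τ (M + 1)) ≤ _
      have h1 : τ (M + 1) ≤ τ M / b := by
        rw [le_div_iff₀ (by linarith)]; linarith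
      have h2 : K * τ (M + 1) ≤ K * (τ M / b) := mul_le_mul_of_nonneg_left h1 (by linarith)
      rw [mul_div_assoc]
      linarith
    · rw [div_le_iff₀ (by linarith)]
      refine (hchain M le_rfl).trans ?_
      change 2 * (ε + K * τ M) ≤ _
      have h1 : 2 * (ε + K * τ M / b) * b = 2 * (ε * b + K * τ M) := by
        field_simp
      rw [h1]
      nlinarith
  refine ⟨2 ^ M / 2, ∑ i ∈ range (M + 1), n i, hcM, ?_, ?_⟩
  · have h1 := sum_slen (D := Real.log b / R) (s := s)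
      (div_nonneg (Real.log_nonneg hb1.le) hR0.le) hs M
    have h2 : ((∑ i ∈ range (M + 1), n i : ℕ) : ℝ) ≤
        2 * (Real.log b / R + 1) * ((2:ℝ) ^ M) ^ s := h1
    refine h2.trans ?_
    have h3 : ((2:ℝ) ^ M) ^ s ≤ 2 ^ s * (((2 ^ M / 2 + 1 : ℕ)) : ℝ) ^ s := by
      rw [← Real.mul_rpow (by norm_num) (by positivity)]
      apply Real.rpow_le_rpow (by positivity) _ (by linarith)
      have h4 : 2 ^ M ≤ 2 * (2 ^ M / 2 + 1) := by omega
      exact_mod_cast h4
    have h5 : 0 ≤ 2 * (Real.log b / R + 1) := by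
      have := div_nonneg (Real.log_nonneg hb1.le) hR0.le
      linarith
    calc 2 * (Real.log b / R + 1) * ((2:ℝ) ^ M) ^ s ≤
          2 * (Real.log b / R + 1) * (2 ^ s * (((2 ^ M / 2 + 1 : ℕ)) : ℝ) ^ s) :=
          mul_le_mul_of_nonneg_left h3 h5
      _ = _ := by ring
  · by_cases hcase : (A' ∩ GG ι (k0 + ∑ i ∈ range (M + 1), n i)).card ≤ 2 ^ M / 2
    · left
      set k1 := k0 + ∑ i ∈ range (M + 1), n i with hk1
      have h1 := hBm M (A' ∩ GG ι k1) inter_subset_left hcase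
      have h2 : A' \ (A' ∩ GG ι k1) = A \ GG ι k1 := by
        have hG : GG ι k0 ⊆ GG ι k1 := GG_mono (Nat.le_add_right _ _)
        ext i
        simp only [mem_sdiff, mem_inter, not_and, hA']
        constructor
        · rintro ⟨⟨h3, h4⟩, h5⟩
          exact ⟨h3, h5 ⟨h3, h4⟩⟩
        · rintro ⟨h3, h4⟩
          exact ⟨⟨h3, fun hc => h4 (hG hc)⟩, fun _ => h4⟩
      rw [h2] at h1
      have h3 := fact_b h hI hε k1
      have h4 : τ M ≤ K * (‖res k1‖ + ε) := h1.trans h3
      have h5 : K * (K * τ M / b) = τ M / 4 := by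
        rw [hb]; field_simp
      have h6 : τ M ≤ 3 * K * ε + τ M / 2 := by
        have h7 : K * (‖res k1‖ + ε) ≤ K * (2 * (ε + K * τ M / b) + ε) :=
          mul_le_mul_of_nonneg_left (by linarith) (by linarith)
        have h8 : K * (2 * (ε + K * τ M / b) + ε) = 3 * K * ε + 2 * (K * (K * τ M / b)) := by ring
        rw [h8, h5] at h7
        linarith
      have h7 : K * τ M / b ≤ 3 / 2 * ε := by
        rw [div_le_iff₀ (by linarith), hb]
        have h8 : τ M ≤ 6 * K * ε := by linarith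
        have h9 : K * τ M ≤ K * (6 * K * ε) := mul_le_mul_of_nonneg_left h8 (by linarith)
        nlinarith
      linarith
    · right
      push Not at hcase
      exact hcase

/-- The number of steps needed. -/
lemma all_stages (h : UBH F ψ K κ W r Q) (hI : Idx F ψ t f₀ res ι) (ht : 0 < t)
    (hs : 1 ≤ r * Q) (hε : ‖f₀ - sm ψ x A‖ ≤ ε) : ∀ (a k0 : ℕ), (A \ GG ι k0).card = a →
    ∃ n : ℕ, (n : ℝ) ≤ 2 * (Real.log (4 * K ^ 2) / rate K κ W Q t + 1) * 2 ^ (r * Q) *
      (a : ℝ) ^ (r * Q) ∧ ‖res (k0 + n)‖ ≤ 5 * ε := by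
  classical
  have hε0 : 0 ≤ ε := (norm_nonneg _).trans hε
  have hK := h.hK
  have hW := h.hW
  have hκ := h.hκ
  set C : ℝ := 2 * (Real.log (4 * K ^ 2) / rate K κ W Q t + 1) * 2 ^ (r * Q) with hC
  have hC0 : 0 ≤ C := by
    have h1 : 0 < rate K κ W Q t := by unfold rate; positivity
    have h2 : 0 ≤ Real.log (4 * K ^ 2) := Real.log_nonneg (by nlinarith)
    positivity
  intro a
  induction a using Nat.strong_induction_on with
  | _ a ih =>
    intro k0 ha
    rcases Nat.eq_zero_or_pos a with h0 | h0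
    · refine ⟨0, ?_, ?_⟩
      · simp only [Nat.cast_zero]
        positivity
      · have h1 := fact_a hI hε k0
        have h2 : A \ GG ι k0 = ∅ := card_eq_zero.mp (by omega)
        rw [h2] at h1
        have h3 : ‖sm ψ x ∅‖ = 0 := by unfold sm; simp
        rw [h3] at h1
        rw [add_zero]
        linarith
    · have hA : (A \ GG ι k0).Nonempty := card_pos.mp (by omega)
      obtain ⟨c, n, hc, hn, hor⟩ := stage h hI ht hs hε k0 hA
      rw [ha] at hc
      rcases hor with hor | hor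
      · refine ⟨n, hn.trans ?_, hor⟩
        apply mul_le_mul_of_nonneg_left _ hC0
        apply Real.rpow_le_rpow (by positivity) _ (by linarith)
        exact_mod_cast hc
      · have h1 : (A \ GG ι (k0 + n)).card + ((A \ GG ι k0) ∩ GG ι (k0 + n)).card = a := by
          rw [← ha, ← card_inter_add_card_sdiff (A \ GG ι k0) (GG ι (k0 + n)), add_comm]
          congr 2
          have hG : GG ι k0 ⊆ GG ι (k0 + n) := GG_mono (Nat.le_add_right _ _)
          ext i
          simp only [mem_sdiff]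
          constructor
          · rintro ⟨h3, h4⟩
            exact ⟨⟨h3, fun hc => h4 (hG hc)⟩, h4⟩
          · rintro ⟨⟨h3, _⟩, h4⟩
            exact ⟨h3, h4⟩
        obtain ⟨n', hn', hr'⟩ := ih (A \ GG ι (k0 + n)).card (by omega) (k0 + n) rfl
        refine ⟨n + n', ?_, ?_⟩
        · push_cast
          have h2 : ((A \ GG ι (k0 + n)).card : ℝ) + ((c + 1 : ℕ) : ℝ) ≤ a := by
            exact_mod_cast (by omega : (A \ GG ι (k0 + n)).card + (c + 1) ≤ a)
          have h3 := Real.add_rpow_le_rpow_add (a := ((A \ GG ι (k0 + n)).card : ℝ))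
            (b := ((c + 1 : ℕ) : ℝ)) (by positivity) (by positivity) hs
          have h4 := Real.rpow_le_rpow (by positivity) h2 (by linarith : 0 ≤ r * Q)
          have h5 : C * (((A \ GG ι (k0 + n)).card : ℝ) ^ (r * Q) +
              ((c + 1 : ℕ) : ℝ) ^ (r * Q)) ≤ C * (a : ℝ) ^ (r * Q) :=
            mul_le_mul_of_nonneg_left (h3.trans h4) hC0
          linarith
        · rw [← add_assoc]; exact hr'

/-- The abstract upper bound. -/
theorem upper (h : UBH F ψ K κ W r Q) (ht : 0 < t) (hs : 1 ≤ r * Q) :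
    ∃ C : ℝ, 0 < C ∧ ∀ (f₀ : V) (φ res : ℕ → V), IsRun F (Set.range ψ) t f₀ φ res →
      ∀ m : ℕ, ∀ n : ℕ, C * (m : ℝ) ^ (r * Q) ≤ n →
        ‖res n‖ ≤ 5 * sigma (Set.range ψ) m f₀ := by
  classical
  have hK := h.hK
  have hW := h.hW
  have hκ := h.hκ
  have h1 : 0 < rate K κ W Q t := by unfold rate; positivity
  have h2 : 0 ≤ Real.log (4 * K ^ 2) := Real.log_nonneg (by nlinarith)
  refine ⟨2 * (Real.log (4 * K ^ 2) / rate K κ W Q t + 1) * 2 ^ (r * Q), by positivity, ?_⟩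
  intro f₀ φ res hrun m n hn
  obtain ⟨ι, hI⟩ := run_idx hrun
  have key : ∀ e ∈ {e : ℝ | ∃ (g : Fin m → V) (c : Fin m → ℝ), (∀ i, g i ∈ Set.range ψ) ∧
      e = ‖f₀ - ∑ i, c i • g i‖}, ‖res n‖ / 5 ≤ e := by
    rintro e ⟨g, c, hg, he⟩
    choose J hJ using hg
    set A : Finset ℕ := univ.image J with hA
    set x : ℕ → ℝ := fun a => ∑ i ∈ univ.filter (fun i => J i = a), c i with hx
    have h3 : sm ψ x A = ∑ i, c i • g i := by
      unfold sm
      rw [← sum_fiberwise_of_maps_to (s := univ) (t := A) (g := J)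
        (fun i _ => mem_image_of_mem _ (mem_univ i))]
      apply sum_congr rfl
      intro a _
      rw [hx, sum_smul]
      apply sum_congr rfl
      intro i hi
      rw [← hJ i, (mem_filter.mp hi).2]
    have hε : ‖f₀ - sm ψ x A‖ ≤ e := by rw [h3, he]
    obtain ⟨n', hn', hr'⟩ := all_stages h hI ht hs hε _ 0 rfl
    rw [zero_add] at hr'
    have h4 : (A \ GG ι 0).card ≤ m := by
      refine (card_le_card sdiff_subset).trans ?_
      refine card_image_le.trans ?_
      simp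
    have h5 : n' ≤ n := by
      have : (n' : ℝ) ≤ n := by
        refine hn'.trans (le_trans ?_ hn)
        apply mul_le_mul_of_nonneg_left _ (by positivity)
        apply Real.rpow_le_rpow (by positivity) _ (by linarith)
        exact_mod_cast h4
      exact_mod_cast this
    have h6 := (hI.mono' h5).trans hr'
    linarith
  have hne : {e : ℝ | ∃ (g : Fin m → V) (c : Fin m → ℝ), (∀ i, g i ∈ Set.range ψ) ∧
      e = ‖f₀ - ∑ i, c i • g i‖}.Nonempty :=
    ⟨_, fun _ => ψ 0, fun _ => 0, fun _ => ⟨0, rfl⟩, rfl⟩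
  have := le_csInf hne key
  unfold sigma
  linarith

end Pool.Agent.H66R3.PG
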