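import Mathlib
import Pool.Agent.H66R3.PG.Khin
import Pool.Agent.H66R3.PG.Smooth
import Pool.Agent.H66R3.PG.Up2

/-! The `ℓ₁` bound for normalized unconditional systems in `L_p`; the upper bound. -/

set_option autoImplicit false

open MeasureTheory Finset
open scoped ENNReal

namespace Pool.Agent.H66R3.PG

open Pool.Agent.Helper415 Pool.Agent.Helper415.TG

lemma khin_pw {p : ℝ} (hp : 1 < p) : ∃ C : ℝ, 0 < C ∧ ∀ (B : Finset ℕ) (c : ℕ → ℝ),
    (∑ i ∈ B, c i ^ 2) ^ (p / 2) ≤ C * E (fun w => |rsum B c w| ^ p) := by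
  obtain ⟨C, hC, h⟩ := khin_low hp
  have hp0 : 0 < p := by linarith
  refine ⟨C ^ p, by positivity, fun B c => ?_⟩
  have h1 := Real.rpow_le_rpow (Real.sqrt_nonneg _) (h B c) hp0.le
  have h0 : 0 ≤ ∑ i ∈ B, c i ^ 2 := sum_nonneg fun _ _ => sq_nonneg _
  rw [Real.mul_rpow hC.le (nm_nonneg _ _), nm_rpow hp0, Real.sqrt_eq_rpow, ← Real.rpow_mul h0] at h1
  have : 1 / 2 * p = p / 2 := by ring
  rw [this] at h1
  exact h1

lemma sum_rpow_le {p : ℝ} (hp : 2 ≤ p) (B : Finset ℕ) (c : ℕ → ℝ) :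
    ∑ i ∈ B, |c i| ^ p ≤ (∑ i ∈ B, c i ^ 2) ^ (p / 2) := by
  induction B using Finset.induction_on with
  | empty =>
    simp only [sum_empty]
    rw [Real.zero_rpow (by positivity)]
  | insert j B hj ih =>
    rw [sum_insert hj, sum_insert hj]
    have h0 : 0 ≤ ∑ i ∈ B, c i ^ 2 := sum_nonneg fun _ _ => sq_nonneg _
    have h1 := Real.add_rpow_le_rpow_add (a := c j ^ 2) (b := ∑ i ∈ B, c i ^ 2) (sq_nonneg _) h0
      (by linarith : 1 ≤ p / 2)
    have h2 : |c j| ^ p = (c j ^ 2) ^ (p / 2) := by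
      rw [← sq_abs, ← Real.rpow_natCast, ← Real.rpow_mul (abs_nonneg _)]
      congr 1
      push_cast
      ring
    rw [h2]
    linarith

section Lp

variable {X : Type} [MeasurableSpace X] {μ : Measure X} {P : ℝ≥0∞} [Fact (1 ≤ P)]

/-- Averages over signs. -/
lemma sign_avg (hP : 1 < P.toReal) {ψ : ℕ → Lp ℝ P μ} {K : ℝ} (hK : 1 ≤ K)
    (hsupp : ∀ (S T : Finset ℕ) (a : ℕ → ℝ), T ⊆ S →
      ‖∑ i ∈ T, a i • ψ i‖ ≤ K * ‖∑ i ∈ S, a i • ψ i‖) :
    ∃ C : ℝ, 0 < C ∧ ∀ (B : Finset ℕ) (a : ℕ → ℝ) (G : X → ℝ), Integrable G μ →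
      (∀ x, G x ≤ (∑ i ∈ B, (a i * ψ i x) ^ 2) ^ (P.toReal / 2)) →
      ∫ x, G x ∂μ ≤ C * ‖∑ i ∈ B, a i • ψ i‖ ^ P.toReal := by
  classical
  set p := P.toReal with hp
  have hp0 : 0 < p := by linarith
  obtain ⟨C, hC, hkh⟩ := khin_pw hP
  refine ⟨C * (2 * K) ^ p, by positivity, fun B a G hG hGle => ?_⟩
  obtain ⟨n, hn, hD⟩ := exists_dep_rsum B
  set S := ∑ i ∈ B, a i • ψ i with hS
  -- sign changes
  have hsign : ∀ θ : ℕ → ℝ, (∀ i, θ i = 1 ∨ θ i = -1) →
      ‖∑ i ∈ B, (θ i * a i) • ψ i‖ ≤ 2 * K * ‖S‖ := by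
    intro θ hθ
    have h1 : ∑ i ∈ B, (θ i * a i) • ψ i = ∑ i ∈ B.filter (fun i => θ i = 1), a i • ψ i -
        ∑ i ∈ B.filter (fun i => ¬ θ i = 1), a i • ψ i := by
      rw [← sum_filter_add_sum_filter_not B (fun i => θ i = 1)]
      rw [sub_eq_add_neg, ← sum_neg_distrib]
      congr 1
      · apply sum_congr rfl
        intro i hi
        rw [(mem_filter.mp hi).2, one_mul]
      · apply sum_congr rfl
        intro i hi
        rw [(hθ i).resolve_left (mem_filter.mp hi).2, neg_one_mul, neg_smul]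
    rw [h1]
    have h2 := hsupp B (B.filter (fun i => θ i = 1)) a (filter_subset _ _)
    have h3 := hsupp B (B.filter (fun i => ¬ θ i = 1)) a (filter_subset _ _)
    refine (norm_sub_le _ _).trans ?_
    rw [← hS] at h2 h3
    linarith
  -- the averaged integrand
  set g : (Fin n → Bool) → X → ℝ := fun w x => ∑ i ∈ B, rd i (ext w) * a i * ψ i x with hg
  have hgae : ∀ w, g w =ᵐ[μ] (∑ i ∈ B, (rd i (ext w) * a i) • ψ i : Lp ℝ P μ) := by
    intro w
    symm
    have : ∀ T : Finset ℕ, ((∑ i ∈ T, (rd i (ext w) * a i) • ψ i : Lp ℝ P μ) : X → ℝ) =ᵐ[μ]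
        fun x => ∑ i ∈ T, rd i (ext w) * a i * ψ i x := by
      intro T
      induction T using Finset.induction_on with
      | empty =>
        simp only [Finset.sum_empty]
        exact Lp.coeFn_zero ℝ P _
      | insert j T hj ih =>
        simp only [Finset.sum_insert hj]
        filter_upwards [ih, Lp.coeFn_add ((rd j (ext w) * a j) • ψ j)
          (∑ i ∈ T, (rd i (ext w) * a i) • ψ i), Lp.coeFn_smul (rd j (ext w) * a j) (ψ j)]
          with x h1 h2 h3
        rw [h2, Pi.add_apply, h1, h3, Pi.smul_apply, smul_eq_mul]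
    exact this B
  have hgint : ∀ w, Integrable (fun x => |g w x| ^ p) μ := by
    intro w
    refine (Lp_int hP (∑ i ∈ B, (rd i (ext w) * a i) • ψ i)).congr ?_
    filter_upwards [hgae w] with x hx
    rw [← hx]
  have hpt : ∀ x, G x ≤ C * ((1 / 2) ^ n * ∑ w : Fin n → Bool, |g w x| ^ p) := by
    intro x
    refine (hGle x).trans ((hkh B (fun i => a i * ψ i x)).trans ?_)
    rw [E_eq_sum ((hD _).map (fun u => |u| ^ p))]
    apply le_of_eq
    congr 2
    apply sum_congr rfl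
    intro w _
    rw [hg]
    unfold rsum
    congr 2
    apply sum_congr rfl
    intro i _
    ring
  have hint : Integrable (fun x => C * ((1 / 2) ^ n * ∑ w : Fin n → Bool, |g w x| ^ p)) μ :=
    ((integrable_finsetSum _ fun w _ => hgint w).const_mul _).const_mul _
  refine (integral_mono hG hint hpt).trans ?_
  rw [integral_const_mul, integral_const_mul, integral_finsetSum _ fun w _ => hgint w]
  rw [mul_assoc]
  apply mul_le_mul_of_nonneg_left _ hC.le
  have h1 : ∀ w ∈ (univ : Finset (Fin n → Bool)), ∫ x, |g w x| ^ p ∂μ ≤ (2 * K) ^ p * ‖S‖ ^ p := by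
    intro w _
    rw [Lp_norm hP _ (hgae w), ← Real.mul_rpow (by positivity) (norm_nonneg _)]
    apply Real.rpow_le_rpow (norm_nonneg _) _ hp0.le
    apply hsign
    intro i
    unfold rd
    split_ifs
    · right; rfl
    · left; rfl
  have h2 := sum_le_sum h1
  rw [sum_const, card_univ, nsmul_eq_mul] at h2
  simp only [Fintype.card_pi, Fintype.card_bool, prod_const, card_univ, Fintype.card_fin] at h2
  push_cast at h2
  have h3 : ((1:ℝ) / 2) ^ n * (2 ^ n * ((2 * K) ^ p * ‖S‖ ^ p)) = (2 * K) ^ p * ‖S‖ ^ p := by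
    rw [← mul_assoc, ← mul_pow]; norm_num
  rw [← h3]
  exact mul_le_mul_of_nonneg_left h2 (by positivity)

/-- The exponent in the `ℓ₁` bound. -/
noncomputable def rr (p : ℝ) : ℝ := if 2 ≤ p then 1 - 1 / p else 1 / 2

lemma rr_pos {p : ℝ} (hp : 1 < p) : 0 < rr p := by
  unfold rr
  split_ifs
  · rw [sub_pos, div_lt_one (by linarith)]; exact hp
  · norm_num

theorem l1_bound (hP : 1 < P.toReal) {ψ : ℕ → Lp ℝ P μ} {K : ℝ} (hK : 1 ≤ K)
    (hnorm : ∀ i, ‖ψ i‖ = 1)
    (hsupp : ∀ (S T : Finset ℕ) (a : ℕ → ℝ), T ⊆ S →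
      ‖∑ i ∈ T, a i • ψ i‖ ≤ K * ‖∑ i ∈ S, a i • ψ i‖) :
    ∃ W : ℝ, 0 < W ∧ ∀ (B : Finset ℕ) (a : ℕ → ℝ),
      ∑ i ∈ B, |a i| ≤ W * (B.card : ℝ) ^ (rr P.toReal) * ‖∑ i ∈ B, a i • ψ i‖ := by
  classical
  obtain ⟨C, hC, h⟩ := sign_avg hP hK hsupp
  set p := P.toReal with hp
  have hp0 : 0 < p := by linarith
  have hint1 : ∀ i, ∫ x, |ψ i x| ^ p ∂μ = 1 := by
    intro i
    rw [Lp_norm hP (ψ i) Filter.EventuallyEq.rfl, hnorm, Real.one_rpow]
  have hcp : ∀ y : ℝ, 0 ≤ y → (y ^ p) ^ (1 / p) = y := fun y hy => by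
    rw [← Real.rpow_mul hy, mul_one_div, div_self hp0.ne', Real.rpow_one]
  refine ⟨C ^ (1 / p), by positivity, fun B a => ?_⟩
  set N := ‖∑ i ∈ B, a i • ψ i‖ with hN
  have hN0 : 0 ≤ N := norm_nonneg _
  unfold rr
  by_cases h2 : 2 ≤ p
  · rw [if_pos h2]
    have h1 := h B a (fun x => ∑ i ∈ B, |a i| ^ p * |ψ i x| ^ p)
      (integrable_finsetSum _ fun i _ => (Lp_int hP (ψ i)).const_mul _) (fun x => by
        refine le_trans (le_of_eq ?_) (sum_rpow_le h2 B (fun i => a i * ψ i x))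
        apply sum_congr rfl
        intro i _
        rw [abs_mul, Real.mul_rpow (abs_nonneg _) (abs_nonneg _)])
    rw [integral_finsetSum _ fun i _ => (Lp_int hP (ψ i)).const_mul _] at h1
    simp only [integral_const_mul] at h1
    rw [sum_congr rfl (fun i _ => by rw [hint1 i, mul_one])] at h1
    have h3 := Real.rpow_sum_le_const_mul_sum_rpow B a hP.le
    have h4 : (∑ i ∈ B, |a i|) ^ p ≤ (B.card : ℝ) ^ (p - 1) * (C * N ^ p) :=
      h3.trans (mul_le_mul_of_nonneg_left h1 (by positivity))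
    have h5 := Real.rpow_le_rpow (Real.rpow_nonneg (sum_nonneg fun _ _ => abs_nonneg _) _) h4
      (by positivity : 0 ≤ 1 / p)
    rw [hcp _ (sum_nonneg fun _ _ => abs_nonneg _), Real.mul_rpow (by positivity) (by positivity),
      Real.mul_rpow hC.le (by positivity), hcp _ hN0, ← Real.rpow_mul (by positivity)] at h5
    have h6 : (p - 1) * (1 / p) = 1 - 1 / p := by field_simp
    rw [h6] at h5
    refine h5.trans (le_of_eq (by ring))
  · rw [if_neg h2]
    push Not at h2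
    set S := ∑ i ∈ B, a i ^ 2 with hS
    have hS0 : 0 ≤ S := sum_nonneg fun _ _ => sq_nonneg _
    rcases hS0.eq_or_lt with hS1 | hS1
    · have hz : ∀ i ∈ B, a i = 0 := by
        intro i hi
        have h5 := (sum_eq_zero_iff_of_nonneg (fun i _ => sq_nonneg (a i))).mp hS1.symm i hi
        exact pow_eq_zero_iff (two_ne_zero) |>.mp h5
      have : ∑ i ∈ B, |a i| = 0 := sum_eq_zero fun i hi => by rw [hz i hi, abs_zero]
      rw [this]; positivity
    · have hconc := Real.concaveOn_rpow (by linarith : 0 ≤ p / 2) (by linarith : p / 2 ≤ 1)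
      have h1 := h B a (fun x => ∑ i ∈ B, S ^ (p / 2) * (a i ^ 2 / S) * |ψ i x| ^ p)
        (integrable_finsetSum _ fun i _ => (Lp_int hP (ψ i)).const_mul _) (fun x => by
          have h6 := hconc.le_map_sum (t := B) (w := fun i => a i ^ 2 / S)
            (p := fun i => (ψ i x) ^ 2) (fun i _ => by positivity)
            (by rw [← sum_div, ← hS, div_self hS1.ne']) (fun i _ => by
              rw [Set.mem_Ici]; positivity)
          simp only [smul_eq_mul] at h6
          have h7 : ∑ i ∈ B, (a i * ψ i x) ^ 2 = S * ∑ i ∈ B, a i ^ 2 / S * (ψ i x) ^ 2 := by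
            rw [mul_sum]
            apply sum_congr rfl
            intro i _
            field_simp
          have h8 : 0 ≤ ∑ i ∈ B, a i ^ 2 / S * (ψ i x) ^ 2 := by positivity
          rw [h7, Real.mul_rpow hS0 h8]
          have h9 : ∑ i ∈ B, S ^ (p / 2) * (a i ^ 2 / S) * |ψ i x| ^ p =
              S ^ (p / 2) * ∑ i ∈ B, a i ^ 2 / S * ((ψ i x) ^ 2) ^ (p / 2) := by
            rw [mul_sum]
            apply sum_congr rfl
            intro i _
            have : |ψ i x| ^ p = ((ψ i x) ^ 2) ^ (p / 2) := by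
              rw [← sq_abs, ← Real.rpow_natCast, ← Real.rpow_mul (abs_nonneg _)]
              congr 1
              push_cast
              ring
            rw [this]; ring
          rw [h9]
          exact mul_le_mul_of_nonneg_left h6 (by positivity))
      rw [integral_finsetSum _ fun i _ => (Lp_int hP (ψ i)).const_mul _] at h1
      simp only [integral_const_mul] at h1
      rw [sum_congr rfl (fun i _ => by rw [hint1 i, mul_one]), ← mul_sum, ← sum_div, ← hS,
        div_self hS1.ne', mul_one] at h1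
      have h3 : (∑ i ∈ B, |a i|) ^ 2 ≤ B.card * S := by
        have := sq_sum_le_card_mul_sum_sq (s := B) (f := fun i => |a i|)
        simp only [sq_abs] at this
        exact this
      have h5 := Real.rpow_le_rpow (by positivity) h1 (by positivity : 0 ≤ 1 / p)
      rw [Real.mul_rpow hC.le (by positivity), hcp _ hN0, ← Real.rpow_mul hS0] at h5
      have h6 : p / 2 * (1 / p) = 1 / 2 := by field_simp
      rw [h6, ← Real.sqrt_eq_rpow] at h5
      have h7 : ∑ i ∈ B, |a i| ≤ Real.sqrt (B.card * S) := Real.le_sqrt_of_sq_le h3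
      rw [Real.sqrt_mul (by positivity)] at h7
      rw [← Real.sqrt_eq_rpow]
      calc _ ≤ _ := h7
        _ ≤ Real.sqrt B.card * (C ^ (1 / p) * N) :=
            mul_le_mul_of_nonneg_left h5 (Real.sqrt_nonneg _)
        _ = _ := by ring

/-- The exponent `r Q = 1 + e(p)`. -/
lemma rQ_ge {p : ℝ} (hp : 1 < p) : 1 ≤ rr p * QQ p := by
  unfold rr QQ
  split_ifs with h
  · have : 1 / p ≤ 1 / 2 := by
      rw [div_le_div_iff₀ (by linarith) (by norm_num)]; linarith
    linarith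
  · push Not at h
    rw [← sub_nonneg]
    have : 1 / 2 * (p / (p - 1)) - 1 = (2 - p) / (2 * (p - 1)) := by
      have : p - 1 ≠ 0 := by linarith
      field_simp
      ring
    rw [this]
    apply div_nonneg <;> linarith

/-- The hypotheses of the abstract upper bound hold in `L_p`. -/
theorem ubh_Lp (hP : 1 < P.toReal) {ψ : ℕ → Lp ℝ P μ} {K : ℝ} (hK : 1 ≤ K)
    (hnorm : ∀ i, ‖ψ i‖ = 1)
    (hsupp : ∀ (S T : Finset ℕ) (a : ℕ → ℝ), T ⊆ S →
      ‖∑ i ∈ T, a i • ψ i‖ ≤ K * ‖∑ i ∈ S, a i • ψ i‖) :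
    ∃ κ W : ℝ, UBH (normingF : Lp ℝ P μ → Lp ℝ P μ → ℝ) ψ K κ W (rr P.toReal) (QQ P.toReal) := by
  obtain ⟨κ, hκ, h1⟩ := smooth (μ := μ) hP
  obtain ⟨W, hW, h2⟩ := l1_bound hP hK hnorm hsupp
  exact ⟨κ, W, {
    hK := hK
    hκ := hκ
    hW := hW
    hr := rr_pos hP
    hQ := QQ_pos hP
    norm := hnorm
    supp := hsupp
    add := fun f g h => (FF hP f).map_add g h
    smul := fun f c g => (FF hP f).map_smul c g
    self := fun f hf => F_self hP hf
    le := F_le hP
    dec := h1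
    zero := fun f h hf hm => F_zero hP hf hm
    l1 := h2 }⟩

end Lp

end Pool.Agent.H66R3.PG
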