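import Mathlib
import Pool.Agent.H66R3.PG.Dens
import Pool.Agent.H66R3.PG.Smooth

/-! Common facts for the lower bounds. -/

set_option autoImplicit false

open MeasureTheory Finset
open scoped ENNReal

namespace Pool.Agent.H66R3.PG

open Pool.Agent.Helper415 Pool.Agent.Helper415.TG

/-! ### Disjoint Haar sums -/

/-- Haar sum over the words in `U`. -/
noncomputable def hU (p : ℝ) (U : Finset (List Bool)) (c : List Bool → ℝ) (x : ℕ → Bool) : ℝ :=
  ∑ l ∈ U, c l * haar p l x

lemma haar_off {p : ℝ} {l : List Bool} {M : ℕ} (hl : l.length = M) {x : ℕ → Bool}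
    (h : pre M x ≠ l) : haar p l x = 0 := by
  unfold haar cellI
  rw [hl, if_neg h]; ring

lemma phi_hU {p : ℝ} {U : Finset (List Bool)} {M : ℕ} (hM : ∀ l ∈ U, l.length = M)
    (c : List Bool → ℝ) (φ : ℝ → ℝ) (hφ : φ 0 = 0) (x : ℕ → Bool) :
    φ (hU p U c x) = ∑ l ∈ U, φ (c l * haar p l x) := by
  by_cases h : pre M x ∈ U
  · have h1 : hU p U c x = c (pre M x) * haar p (pre M x) x := by
      unfold hU
      apply sum_eq_single_of_mem _ h
      intro l hl hne
      rw [haar_off (hM l hl) (Ne.symm hne), mul_zero]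
    rw [h1]
    symm
    apply sum_eq_single_of_mem _ h
    intro l hl hne
    rw [haar_off (hM l hl) (Ne.symm hne), mul_zero, hφ]
  · have h0 : ∀ l ∈ U, haar p l x = 0 := fun l hl =>
      haar_off (hM l hl) (fun e => h (e ▸ hl))
    have h1 : hU p U c x = 0 := by
      unfold hU
      exact sum_eq_zero fun l hl => by rw [h0 l hl, mul_zero]
    rw [h1, hφ]
    symm
    exact sum_eq_zero fun l hl => by rw [h0 l hl, mul_zero, hφ]

lemma dep_haar' {p : ℝ} {l : List Bool} {M : ℕ} (hl : l.length = M) : Dep (M + 1) (haar p l) := by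
  rw [← hl]; exact dep_haar p l

lemma dep_hU {p : ℝ} {U : Finset (List Bool)} {M : ℕ} (hM : ∀ l ∈ U, l.length = M)
    (c : List Bool → ℝ) : Dep (M + 1) (hU p U c) := by
  apply Dep.sum
  intro l hl
  exact (dep_const _ _).mul (dep_haar' (hM l hl))

lemma E_abs_hU {p : ℝ} (hp : 0 < p) {U : Finset (List Bool)} {M : ℕ}
    (hM : ∀ l ∈ U, l.length = M) (c : List Bool → ℝ) :
    E (fun x => |hU p U c x| ^ p) = ∑ l ∈ U, |c l| ^ p := by
  have h1 : (fun x => |hU p U c x| ^ p) = fun x => ∑ l ∈ U, |c l| ^ p * |haar p l x| ^ p := by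
    funext x
    have := phi_hU (p := p) hM c (fun y => |y| ^ p) (by simp only [abs_zero]; exact Real.zero_rpow hp.ne') x
    rw [this]
    apply sum_congr rfl
    intro l _
    rw [abs_mul, Real.mul_rpow (abs_nonneg _) (abs_nonneg _)]
  rw [h1, E_sum (n := M + 1) U fun l hl => (dep_const _ _).mul
    ((dep_haar' (hM l hl)).map (fun u => |u| ^ p))]
  apply sum_congr rfl
  intro l _
  rw [E_mul_left, haar_norm hp, mul_one]

lemma E_haar (p : ℝ) (l : List Bool) : E (haar p l) = 0 := by
  have hD : Dep l.length (fun x => wt p l.length * cellI l x) := (dep_const _ _).mul (dep_cellI l)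
  exact E_rd_zero hD _ (flip_of_dep hD le_rfl)

lemma E_haar_haar (p : ℝ) (l l' : List Bool) :
    E (fun x => haar p l x * haar p l' x) =
      if l = l' then wt p l.length ^ 2 * (1 / 2) ^ l.length else 0 := by
  rcases lt_trichotomy l.length l'.length with h | h | h
  · rw [if_neg (by rintro rfl; exact lt_irrefl _ h)]
    have h1 : (fun x => haar p l x * haar p l' x) =
        fun x => (haar p l x * (wt p l'.length * cellI l' x)) * rd l'.length x := by
      funext x
      change haar p l x * (wt p l'.length * cellI l' x * rd l'.length x) = _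
      ring
    have hD : Dep l'.length (fun x => haar p l x * (wt p l'.length * cellI l' x)) :=
      ((dep_haar p l).mono h).mul ((dep_const _ _).mul (dep_cellI l'))
    rw [h1, E_rd_zero hD _ (flip_of_dep hD le_rfl)]
  · by_cases he : l = l'
    · rw [if_pos he, ← he]
      have h1 : (fun x => haar p l x * haar p l x) = fun x => wt p l.length ^ 2 * cellI l x := by
        funext x
        unfold haar
        have e1 : cellI l x * cellI l x = cellI l x := by
          unfold cellI; split_ifs <;> norm_num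
        calc _ = wt p l.length ^ 2 * (cellI l x * cellI l x) *
              (rd l.length x * rd l.length x) := by ring
          _ = _ := by rw [e1, rd_sq, mul_one]
      rw [h1, E_mul_left, E_cellI]
    · rw [if_neg he]
      have h1 : (fun x => haar p l x * haar p l' x) = fun _ => 0 := by
        funext x
        by_cases h2 : pre l.length x = l
        · have : pre l.length x ≠ l' := by rw [h2]; exact he
          rw [haar_off h.symm this, mul_zero]
        · rw [haar_off rfl h2, zero_mul]
      rw [h1, E_const]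
  · rw [if_neg (by rintro rfl; exact lt_irrefl _ h)]
    have h1 : (fun x => haar p l x * haar p l' x) =
        fun x => (haar p l' x * (wt p l.length * cellI l x)) * rd l.length x := by
      funext x
      change (wt p l.length * cellI l x * rd l.length x) * haar p l' x = _
      ring
    have hD : Dep l.length (fun x => haar p l' x * (wt p l.length * cellI l x)) :=
      ((dep_haar p l').mono h).mul ((dep_const _ _).mul (dep_cellI l))
    rw [h1, E_rd_zero hD _ (flip_of_dep hD le_rfl)]

lemma haar_phi (p : ℝ) (l : List Bool) (x : ℕ → Bool) :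
    |haar p l x| ^ (p - 2) * haar p l x = wt p l.length ^ (p - 2) * haar p l x := by
  by_cases h : pre l.length x = l
  · have : |haar p l x| = wt p l.length := by
      unfold haar cellI
      rw [if_pos h, mul_one, abs_mul, rd_abs, mul_one, abs_of_pos (wt_pos p _)]
    rw [this]
  · rw [haar_off rfl h, mul_zero, mul_zero]

lemma wt_norm {p : ℝ} (hp : 0 < p) (M : ℕ) :
    wt p M ^ (p - 2) * (wt p M ^ 2 * (1 / 2) ^ M) = 1 := by
  have h1 : wt p M ^ (p - 2) * wt p M ^ 2 = 2 ^ M := by
    rw [← Real.rpow_natCast (wt p M) 2, ← Real.rpow_add (wt_pos p M)]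
    push_cast
    rw [sub_add_cancel]
    unfold wt
    rw [← Real.rpow_mul (by positivity), one_div, inv_mul_cancel₀ hp.ne', Real.rpow_one]
  rw [← mul_assoc, h1, ← mul_pow]
  norm_num

lemma JJ_hU {p : ℝ} {U : Finset (List Bool)} {M : ℕ}
    (hM : ∀ l ∈ U, l.length = M) (c : List Bool → ℝ) {n : ℕ} {G : (ℕ → Bool) → ℝ}
    (hG : Dep n G) :
    JJ p (hU p U c) G = ∑ l ∈ U, |c l| ^ (p - 2) * c l * (wt p M ^ (p - 2) *
      E (fun x => haar p l x * G x)) := by
  unfold JJ
  have h1 : (fun x => |hU p U c x| ^ (p - 2) * hU p U c x * G x) =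
      fun x => ∑ l ∈ U, |c l| ^ (p - 2) * c l * (wt p M ^ (p - 2) * (haar p l x * G x)) := by
    funext x
    have := phi_hU (p := p) hM c (fun y => |y| ^ (p - 2) * y) (by simp only [mul_zero]) x
    rw [this, sum_mul]
    apply sum_congr rfl
    intro l hl
    have h2 := haar_phi p l x
    rw [hM l hl] at h2
    rw [abs_mul, Real.mul_rpow (abs_nonneg _) (abs_nonneg _)]
    calc _ = |c l| ^ (p - 2) * c l * (|haar p l x| ^ (p - 2) * haar p l x) * G x := by ring
      _ = _ := by rw [h2]; ring
  rw [h1, E_sum (n := max (M + 1) n) U fun l hl => (dep_const _ _).mul ((dep_const _ _).mul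
    (((dep_haar' (hM l hl)).mono (le_max_left _ _)).mul (hG.mono (le_max_right _ _))))]
  apply sum_congr rfl
  intro l _
  rw [E_mul_left, E_mul_left]

lemma JJ_hU_haar {p : ℝ} (hp : 0 < p) {U : Finset (List Bool)} {M : ℕ}
    (hM : ∀ l ∈ U, l.length = M) (c : List Bool → ℝ) (l' : List Bool) :
    JJ p (hU p U c) (haar p l') = if l' ∈ U then |c l'| ^ (p - 2) * c l' else 0 := by
  rw [JJ_hU hM c (dep_haar p l')]
  simp only [E_haar_haar]
  by_cases h : l' ∈ U
  · rw [if_pos h, sum_eq_single_of_mem l' h]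
    · rw [if_pos rfl, hM l' h, wt_norm hp, mul_one]
    · intro l _ hne
      rw [if_neg hne]; ring
  · rw [if_neg h]
    apply sum_eq_zero
    intro l hl
    rw [if_neg (fun e : l = l' => h (e ▸ hl))]; ring

lemma JJ_hU_one {p : ℝ} {U : Finset (List Bool)} {M : ℕ}
    (hM : ∀ l ∈ U, l.length = M) (c : List Bool → ℝ) :
    JJ p (hU p U c) (fun _ => 1) = 0 := by
  rw [JJ_hU hM c (dep_const 0 1)]
  apply sum_eq_zero
  intro l _
  simp only [mul_one]
  rw [show (fun x => haar p l x) = haar p l from rfl, E_haar]; ring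

/-! ### Linear combinations -/

lemma JJ_add_right {p : ℝ} {n : ℕ} {F G G' : (ℕ → Bool) → ℝ} (hF : Dep n F) (hG : Dep n G)
    (hG' : Dep n G') : JJ p F (fun x => G x + G' x) = JJ p F G + JJ p F G' := by
  unfold JJ
  rw [← E_add ((hF.map (fun u => |u| ^ (p - 2) * u)).mul hG)
    ((hF.map (fun u => |u| ^ (p - 2) * u)).mul hG')]
  congr 1
  funext x
  ring

lemma JJ_mul_right {p : ℝ} (F G : (ℕ → Bool) → ℝ) (c : ℝ) :
    JJ p F (fun x => c * G x) = c * JJ p F G := by
  unfold JJ
  rw [← E_mul_left]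
  congr 1
  funext x
  ring

lemma JJ_sum_right {p : ℝ} {n : ℕ} {F : (ℕ → Bool) → ℝ} (hF : Dep n F) {ι : Type*}
    (T : Finset ι) (a : ι → ℝ) {f : ι → (ℕ → Bool) → ℝ} (hf : ∀ i ∈ T, Dep n (f i)) :
    JJ p F (fun x => ∑ i ∈ T, a i * f i x) = ∑ i ∈ T, a i * JJ p F (f i) := by
  unfold JJ
  have h1 : (fun x => |F x| ^ (p - 2) * F x * ∑ i ∈ T, a i * f i x) =
      fun x => ∑ i ∈ T, a i * (|F x| ^ (p - 2) * F x * f i x) := by
    funext x
    rw [mul_sum]
    apply sum_congr rfl
    intro i _
    ring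
  rw [h1, E_sum T fun i hi => (dep_const n _).mul
    ((hF.map (fun u => |u| ^ (p - 2) * u)).mul (hf i hi))]
  apply sum_congr rfl
  intro i _
  rw [E_mul_left]

lemma JJ_self {p : ℝ} (hp : 0 < p) (F : (ℕ → Bool) → ℝ) : JJ p F F = nm p F ^ p := by
  rw [nm_rpow hp]
  unfold JJ
  congr 1
  funext x
  rcases eq_or_ne (F x) 0 with h | h
  · rw [h, abs_zero, mul_zero, Real.zero_rpow hp.ne']
  · have h0 : 0 < |F x| := abs_pos.mpr h
    rw [mul_assoc, ← pow_two, ← sq_abs, ← Real.rpow_natCast |F x| 2, ← Real.rpow_add h0]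
    congr 1
    push_cast
    ring

/-! ### Classes -/

variable {P : ℝ≥0∞} [Fact (1 ≤ P)]

lemma normingF_cl (hP : 1 < P.toReal) {n : ℕ} {F G : (ℕ → Bool) → ℝ} (hF : Dep n F)
    (hG : Dep n G) : normingF (cl P F) (cl P G) =
      nm P.toReal F ^ (1 - P.toReal) * JJ P.toReal F G := by
  unfold normingF
  rw [norm_cl hP hF]
  congr 1
  unfold pairing JJ E
  apply integral_congr_ae
  filter_upwards [coe_cl (P := P) hF, coe_cl (P := P) hG] with x h1 h2
  rw [h1, h2]

lemma sigma_le_finset {V : Type} [NormedAddCommGroup V] [NormedSpace ℝ V] {ι : Type}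
    (ψ : ι → V) (f : V) (T : Finset ι) (a : ι → ℝ) :
    sigma (Set.range ψ) T.card f ≤ ‖f - ∑ i ∈ T, a i • ψ i‖ := by
  unfold sigma
  apply csInf_le
  · refine ⟨0, ?_⟩
    rintro e ⟨g, c, _, rfl⟩
    exact norm_nonneg _
  · refine ⟨fun i => ψ (T.equivFin.symm i), fun i => a (T.equivFin.symm i), fun i => ⟨_, rfl⟩, ?_⟩
    congr 2
    rw [← Finset.sum_coe_sort T]
    exact (Equiv.sum_comp T.equivFin.symm (fun i : T => a i • ψ i)).symm

end Pool.Agent.H66R3.PG
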