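import Mathlib
import Pool.Agent.H66R3.PG.Low1

/-! States of the algorithm used in the lower bounds. -/

set_option autoImplicit false

open MeasureTheory Finset
open scoped ENNReal

namespace Pool.Agent.H66R3.PG

open Pool.Agent.Helper415 Pool.Agent.Helper415.TG

lemma LL_sum (p : ℝ) {ι : Type*} (B : Finset ι) (a : ι → ℝ) (f : ι → (ℕ → Bool) → ℝ) :
    LL p (fun y => ∑ i ∈ B, a i * f i y) = fun x => ∑ i ∈ B, a i * LL p (f i) x := by
  funext x
  unfold LL
  split_ifs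
  · simp
  · rw [mul_sum]
    apply sum_congr rfl
    intro i _
    ring

lemma RR_sum (p : ℝ) {ι : Type*} (B : Finset ι) (a : ι → ℝ) (f : ι → (ℕ → Bool) → ℝ) :
    RR p (fun y => ∑ i ∈ B, a i * f i y) = fun x => ∑ i ∈ B, a i * RR p (f i) x := by
  funext x
  unfold RR
  split_ifs
  · rw [mul_sum]
    apply sum_congr rfl
    intro i _
    ring
  · simp

lemma JJ_left {n : ℕ} {p : ℝ} (hp : 0 < p) {u v u' : (ℕ → Bool) → ℝ} (hu : Dep n u)
    (hv : Dep n v) (hu' : Dep n u') :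
    JJ p (fun x => LL p u x + RR p v x) (LL p u') = JJ p u u' := by
  have h := JJ_LR hp hu hv hu' (dep_const n 0)
  rw [RR_zero] at h
  simp only [add_zero] at h
  have h0 : JJ p v (fun _ => 0) = 0 := by
    unfold JJ
    simp only [mul_zero, E_const]
  rw [h0, add_zero] at h
  exact h

lemma JJ_right {n : ℕ} {p : ℝ} (hp : 0 < p) {u v v' : (ℕ → Bool) → ℝ} (hu : Dep n u)
    (hv : Dep n v) (hv' : Dep n v') :
    JJ p (fun x => LL p u x + RR p v x) (RR p v') = JJ p v v' := by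
  have h := JJ_LR hp hu hv (dep_const n 0) hv'
  rw [LL_zero] at h
  simp only [zero_add] at h
  have h0 : JJ p u (fun _ => 0) = 0 := by
    unfold JJ
    simp only [mul_zero, E_const]
  rw [h0, zero_add] at h
  exact h

variable {P : ℝ≥0∞} [Fact (1 ≤ P)]

/-- States. -/
noncomputable def VA (P : ℝ≥0∞) (h : (ℕ → Bool) → ℝ) (U : Finset (List Bool))
    (c : List Bool → ℝ) : Lp ℝ P mu :=
  cl P (fun x => LL P.toReal h x + RR P.toReal (hU P.toReal U c) x)

omit [Fact (1 ≤ P)] in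
lemma dep_VA {n M : ℕ} {h : (ℕ → Bool) → ℝ} (hh : Dep n h) {U : Finset (List Bool)}
    (hM : ∀ l ∈ U, l.length = M) (c : List Bool → ℝ) :
    Dep (n + M + 2) (fun x => LL P.toReal h x + RR P.toReal (hU P.toReal U c) x) :=
  ((dep_LL _ hh).mono (by omega)).add ((dep_RR _ (dep_hU hM c)).mono (by omega))

lemma norm_VA (hP : 1 < P.toReal) {n M : ℕ} {h : (ℕ → Bool) → ℝ} (hh : Dep n h)
    {U : Finset (List Bool)} (hM : ∀ l ∈ U, l.length = M) (c : List Bool → ℝ) :
    ‖VA P h U c‖ ^ P.toReal = nm P.toReal h ^ P.toReal + ∑ l ∈ U, |c l| ^ P.toReal := by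
  have hp0 : 0 < P.toReal := by linarith
  unfold VA
  rw [norm_cl hP (dep_VA hh hM c), nm_LR hp0 (hh.mono (Nat.le_add_right n (M + 1)))
    ((dep_hU hM c).mono (Nat.le_add_left (M + 1) n)), nm_rpow hp0 (hU P.toReal U c),
    E_abs_hU hp0 hM c]

lemma F_VA_left (hP : 1 < P.toReal) {n M : ℕ} {h : (ℕ → Bool) → ℝ} (hh : Dep n h)
    {U : Finset (List Bool)} (hM : ∀ l ∈ U, l.length = M) (c : List Bool → ℝ) (i : IL) :
    normingF (VA P h U c) (bE P (Sum.inl i)) =
      ‖VA P h U c‖ ^ (1 - P.toReal) * JJ P.toReal h (bL P.toReal i) := by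
  have hp0 : 0 < P.toReal := by linarith
  have h1 : normingF (VA P h U c) (bE P (Sum.inl i)) = _ :=
    normingF_cl (G := LL P.toReal (bL P.toReal i)) hP
    ((dep_VA (P := P) hh hM c).mono (Nat.le_add_right _ (dL i + 1)))
    ((dep_LL _ (dep_bL _ i)).mono (Nat.le_add_left _ _))
  rw [h1, JJ_left (n := n + (M + 1) + dL i) hp0 (hh.mono (by omega))
    ((dep_hU hM c).mono (by omega)) ((dep_bL _ i).mono (by omega))]
  unfold VA
  rw [norm_cl hP (dep_VA hh hM c)]

lemma F_VA_right (hP : 1 < P.toReal) {n M : ℕ} {h : (ℕ → Bool) → ℝ} (hh : Dep n h)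
    {U : Finset (List Bool)} (hM : ∀ l ∈ U, l.length = M) (c : List Bool → ℝ) (i : IR) :
    normingF (VA P h U c) (bE P (Sum.inr i)) =
      ‖VA P h U c‖ ^ (1 - P.toReal) * JJ P.toReal (hU P.toReal U c) (bR P.toReal i) := by
  have hp0 : 0 < P.toReal := by linarith
  have h1 : normingF (VA P h U c) (bE P (Sum.inr i)) = _ :=
    normingF_cl (G := RR P.toReal (bR P.toReal i)) hP
    ((dep_VA (P := P) hh hM c).mono (Nat.le_add_right _ (dR i + 1)))
    ((dep_RR _ (dep_bR _ i)).mono (Nat.le_add_left _ _))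
  rw [h1, JJ_right (n := n + (M + 1) + dR i) hp0 (hh.mono (by omega))
    ((dep_hU hM c).mono (by omega)) ((dep_bR _ i).mono (by omega))]
  unfold VA
  rw [norm_cl hP (dep_VA hh hM c)]

lemma VA_sub_right {n M : ℕ} {h : (ℕ → Bool) → ℝ} (hh : Dep n h) {U : Finset (List Bool)}
    (hM : ∀ l ∈ U, l.length = M) (c : List Bool → ℝ) {B : Finset (List Bool)} (hB : B ⊆ U)
    (a : List Bool → ℝ) :
    VA P h U c - ∑ l ∈ B, a l • bE P (Sum.inr (Sum.inr l)) =
      VA P h U (fun l => c l - if l ∈ B then a l else 0) := by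
  have hBM : ∀ l ∈ B, l.length = M := fun l hl => hM l (hB hl)
  have h1 : ∑ l ∈ B, a l • bE P (Sum.inr (Sum.inr l)) =
      cl P (RR P.toReal (hU P.toReal B a)) := by
    have e1 : RR P.toReal (hU P.toReal B a) =
        fun x => ∑ l ∈ B, a l * RR P.toReal (haar P.toReal l) x := RR_sum _ B a _
    rw [e1, cl_sum (n := M + 2) B a (fun l hl => dep_RR _ (dep_haar' (hBM l hl)))]
    rfl
  rw [h1]
  unfold VA
  rw [← cl_sub (dep_VA hh hM c) ((dep_RR _ (dep_hU hBM a)).mono (by omega : _ ≤ n + M + 2))]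
  congr 1
  funext x
  have h2 : ∀ y, hU P.toReal U (fun l => c l - if l ∈ B then a l else 0) y =
      hU P.toReal U c y - hU P.toReal B a y := by
    intro y
    unfold hU
    simp only [sub_mul, sum_sub_distrib]
    congr 1
    rw [← sum_subset hB]
    · apply sum_congr rfl
      intro l hl
      rw [if_pos hl]
    · intro l _ hl
      rw [if_neg hl, zero_mul]
  unfold RR
  split_ifs
  · rw [h2]; ring
  · ring

lemma VA_sub_left {n M : ℕ} {h : (ℕ → Bool) → ℝ} (hh : Dep n h) {U : Finset (List Bool)}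
    (hM : ∀ l ∈ U, l.length = M) (c : List Bool → ℝ) (B : Finset IL) (a : IL → ℝ) :
    VA P h U c - ∑ i ∈ B, a i • bE P (Sum.inl i) =
      VA P (fun y => h y - ∑ i ∈ B, a i * bL P.toReal i y) U c := by
  obtain ⟨k, hk, hk'⟩ := exists_dep_fam B dL (bL P.toReal) (dep_bL P.toReal)
  have h1 : ∑ i ∈ B, a i • bE P (Sum.inl i) =
      cl P (LL P.toReal (fun y => ∑ i ∈ B, a i * bL P.toReal i y)) := by
    rw [LL_sum, cl_sum (n := k + 1) B a (fun l hl => dep_LL _ (hk l hl))]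
    rfl
  rw [h1]
  unfold VA
  rw [← cl_sub (n := n + M + 2 + (k + 1)) ((dep_VA hh hM c).mono (by omega))
    ((dep_LL _ (hk' a)).mono (by omega))]
  congr 1
  funext x
  unfold LL
  split_ifs
  · ring
  · ring

/-- Enumeration of words of length `N`. -/
def ohw (N i : ℕ) : List Bool := List.ofFn (fun j : Fin N => decide ((j : ℕ) = i))

lemma ohw_length (N i : ℕ) : (ohw N i).length = N := by simp [ohw]

lemma ohw_inj {N i j : ℕ} (hi : i < N) (h : ohw N i = ohw N j) : i = j := by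
  have h1 := congrFun (List.ofFn_injective h) ⟨i, hi⟩
  simpa using h1

/-- Words used up to time `k`. -/
def WS (N k : ℕ) : Finset (List Bool) := (range k).image (ohw N)

lemma WS_length {N k : ℕ} : ∀ l ∈ WS N k, l.length = N := by
  intro l hl
  obtain ⟨i, _, rfl⟩ := mem_image.mp hl
  exact ohw_length N i

lemma WS_card {N k : ℕ} (hk : k ≤ N) : (WS N k).card = k := by
  unfold WS
  rw [card_image_of_injOn, card_range]
  intro i hi j _ h
  exact ohw_inj ((mem_range.mp (mem_coe.mp hi)).trans_le hk) h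

lemma WS_mono {N k l : ℕ} (h : k ≤ l) : WS N k ⊆ WS N l :=
  image_subset_image (range_subset_range.mpr h)

lemma ohw_mem {N i k : ℕ} (hi : i < k) : ohw N i ∈ WS N k :=
  mem_image_of_mem _ (mem_range.mpr hi)

lemma ohw_not_mem {N i : ℕ} (hi : i < N) : ohw N i ∉ WS N i := by
  intro h
  obtain ⟨j, hj, hj'⟩ := mem_image.mp h
  rw [mem_range] at hj
  have := ohw_inj hi hj'.symm
  omega

/-- The word part of the final statements. -/
def LowB (P : ℝ≥0∞) [Fact (1 ≤ P)] (t s : ℝ) : Prop :=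
  ∀ C3 : ℝ, 0 < C3 → ∃ κ : ℝ, 0 < κ ∧ ∀ m : ℕ, 1 ≤ m → ∀ K : ℕ, (K : ℝ) ≤ κ * (m : ℝ) ^ s →
    ∃ (f₀ : Lp ℝ P mu) (φ r : ℕ → Lp ℝ P mu), r 0 = f₀ ∧
      (∀ j < K, Step normingF (Set.range (bE P)) t f₀ φ r j) ∧
      ∀ k ≤ K, C3 * sigma (Set.range (bE P)) m f₀ < ‖r k‖

end Pool.Agent.H66R3.PG
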