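import Mathlib
import Pool.Agent.H66R3.PG.LowV

/-! Pairings with Rademacher sums. -/

set_option autoImplicit false

open MeasureTheory Finset
open scoped ENNReal

namespace Pool.Agent.H66R3.PG

/-- Rademacher sum over `T`. -/
def rs1 (T : Finset ℕ) (x : ℕ → Bool) : ℝ := ∑ k ∈ T, rd k x

lemma rs1_eq (T : Finset ℕ) : rs1 T = rsum T (fun _ => 1) := by
  funext x
  unfold rs1 rsum
  simp

lemma exists_dep_rs1 (T : Finset ℕ) : ∃ n, (∀ k ∈ T, k < n) ∧ Dep n (rs1 T) := by
  obtain ⟨n, hn, hD⟩ := exists_dep_rsum T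
  refine ⟨n, hn, ?_⟩
  rw [rs1_eq]
  exact hD _

lemma rs1_abs (T : Finset ℕ) (x : ℕ → Bool) : |rs1 T x| ≤ T.card := by
  unfold rs1
  refine (abs_sum_le_sum_abs _ _).trans ?_
  simp [rd_abs]

lemma rs1_flip {T : Finset ℕ} {k : ℕ} (hk : k ∉ T) (x : ℕ → Bool) :
    rs1 T (flipS (fun i => decide (i = k)) x) = rs1 T x := by
  unfold rs1
  apply sum_congr rfl
  intro j hj
  rw [rd_flip]
  have : j ≠ k := fun h => hk (h ▸ hj)
  simp [this]

lemma JJ_rs1_one (p : ℝ) (T : Finset ℕ) : JJ p (rs1 T) (fun _ => 1) = 0 := by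
  obtain ⟨n, hn, hD⟩ := exists_dep_rs1 T
  unfold JJ
  have hD' : Dep n (fun x => |rs1 T x| ^ (p - 2) * rs1 T x * 1) :=
    hD.map (fun u => |u| ^ (p - 2) * u * 1)
  have h1 := E_flip hD' (fun _ => true)
  have h2 : (fun x => |rs1 T (flipS (fun _ => true) x)| ^ (p - 2) *
      rs1 T (flipS (fun _ => true) x) * 1) =
      fun x => (-1) * (|rs1 T x| ^ (p - 2) * rs1 T x * 1) := by
    funext x
    have : rs1 T (flipS (fun _ => true) x) = -rs1 T x := by
      unfold rs1
      rw [← sum_neg_distrib]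
      apply sum_congr rfl
      intro j _
      rw [rd_flip]; rfl
    rw [this, abs_neg]; ring
  rw [h2, E_mul_left] at h1
  linarith

lemma JJ_rs1_zero (p : ℝ) {T : Finset ℕ} {k : ℕ} (hk : k ∉ T) {c : (ℕ → Bool) → ℝ}
    (hc : Dep k c) : JJ p (rs1 T) (fun x => c x * rd k x) = 0 := by
  obtain ⟨n, hn, hD⟩ := exists_dep_rs1 T
  unfold JJ
  have h1 : (fun x => |rs1 T x| ^ (p - 2) * rs1 T x * (c x * rd k x)) =
      fun x => (|rs1 T x| ^ (p - 2) * rs1 T x * c x) * rd k x := by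
    funext x; ring
  rw [h1]
  apply E_rd_zero (n := n + k)
  · exact ((hD.map (fun u => |u| ^ (p - 2) * u)).mono (by omega)).mul (hc.mono (by omega))
  · intro x
    rw [rs1_flip hk, flip_of_dep hc le_rfl]

lemma JJ_rs1_rd_zero (p : ℝ) {T : Finset ℕ} {k : ℕ} (hk : k ∉ T) :
    JJ p (rs1 T) (rd k) = 0 := by
  have := JJ_rs1_zero p hk (dep_const k 1)
  simp only [one_mul] at this
  exact this

lemma JJ_rs1_swap (p : ℝ) {T : Finset ℕ} {a b : ℕ} (ha : a ∈ T) (hb : b ∈ T) :
    JJ p (rs1 T) (rd a) = JJ p (rs1 T) (rd b) := by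
  obtain ⟨n, hn, hD⟩ := exists_dep_rs1 T
  unfold JJ
  have hD' : Dep n (fun x => |rs1 T x| ^ (p - 2) * rs1 T x * rd b x) :=
    (hD.map (fun u => |u| ^ (p - 2) * u)).mul ((dep_rd b).mono (hn b hb))
  rw [← E_swap hD' (hn a ha) (hn b hb)]
  congr 1
  funext x
  have h1 : rs1 T (swapD a b x) = rs1 T x := by
    unfold rs1
    apply Finset.sum_equiv (Equiv.swap a b)
    · intro i
      by_cases h1 : i = a
      · subst h1; simp [ha, hb]
      · by_cases h2 : i = b
        · subst h2; simp [ha, hb]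
        · rw [Equiv.swap_apply_of_ne_of_ne h1 h2]
    · intro i _
      unfold rd swapD
      rfl
  have h2 : rd b (swapD a b x) = rd a x := by
    unfold rd swapD
    rw [Equiv.swap_apply_right]
  rw [h1, h2]

lemma JJ_rs1_rd {p : ℝ} (hp : 0 < p) {T : Finset ℕ} {k : ℕ} (hk : k ∈ T) :
    T.card * JJ p (rs1 T) (rd k) = nm p (rs1 T) ^ p := by
  obtain ⟨n, hn, hD⟩ := exists_dep_rs1 T
  rw [← JJ_self hp]
  have h1 : JJ p (rs1 T) (rs1 T) = ∑ j ∈ T, 1 * JJ p (rs1 T) (rd j) := by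
    rw [← JJ_sum_right hD T (fun _ => 1) (fun j hj => (dep_rd j).mono (hn j hj))]
    congr 1
    funext x
    unfold rs1
    simp
  rw [h1]
  rw [sum_congr rfl (fun j hj => by rw [one_mul, JJ_rs1_swap p hj hk]), sum_const, nsmul_eq_mul]

lemma JJ_abs_le {p : ℝ} (hp : 1 < p) {n : ℕ} {F G : (ℕ → Bool) → ℝ} (hF : Dep n F) (hG : Dep n G)
    {B : ℝ} (hB : ∀ x, |F x| ≤ B) : |JJ p F G| ≤ B ^ (p - 1) * E (fun x => |G x|) := by
  unfold JJ
  refine E_abs_le.trans ?_
  rw [← E_mul_left]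
  apply E_mono (n := n)
  · exact ((hF.map (fun u => |u| ^ (p - 2) * u)).mul hG).map (fun u => |u|)
  · exact (dep_const _ _).mul (hG.map (fun u => |u|))
  · intro x
    rw [abs_mul]
    apply mul_le_mul_of_nonneg_right _ (abs_nonneg _)
    have h1 : |(|F x| ^ (p - 2) * F x)| = |F x| ^ (p - 1) := by
      rw [abs_mul, abs_of_nonneg (by positivity : (0:ℝ) ≤ |F x| ^ (p - 2))]
      rcases (abs_nonneg (F x)).eq_or_lt with h0 | h0
      · rw [← h0, mul_zero, Real.zero_rpow (by linarith)]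
      · rw [← Real.rpow_add_one h0.ne']; ring_nf
    rw [h1]
    exact Real.rpow_le_rpow (abs_nonneg _) (hB x) (by linarith)

lemma E_abs_haar (p : ℝ) (l : List Bool) : E (fun x => |haar p l x|) = bet p l.length := by
  have h1 : (fun x => |haar p l x|) = fun x => wt p l.length * cellI l x := by
    funext x
    unfold haar
    have h2 : 0 ≤ cellI l x := by unfold cellI; split_ifs <;> norm_num
    rw [abs_mul, rd_abs, mul_one, abs_of_nonneg (mul_nonneg (wt_pos p _).le h2)]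
  rw [h1, E_mul_left, E_cellI]
  rfl

lemma bet_eq {p : ℝ} (k : ℕ) : bet p k = ((2:ℝ) ^ (1 / p - 1)) ^ k := by
  unfold bet wt
  have h1 : ((1:ℝ) / 2) ^ k = ((2:ℝ) ^ (-1:ℝ)) ^ k := by
    rw [Real.rpow_neg_one]; norm_num
  have h2 : (((2:ℝ) ^ k) ^ (1 / p)) = ((2:ℝ) ^ (1 / p)) ^ k := by
    rw [← Real.rpow_natCast 2 k, ← Real.rpow_mul (by norm_num), mul_comm,
      Real.rpow_mul (by norm_num), Real.rpow_natCast]
  rw [h1, h2, ← mul_pow, ← Real.rpow_add (by norm_num)]
  congr 2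

lemma bet_base {p : ℝ} (hp : 1 < p) : (2:ℝ) ^ (1 / p - 1) < 1 := by
  apply Real.rpow_lt_one_of_one_lt_of_neg (by norm_num)
  have : 1 / p < 1 := by rw [div_lt_one (by linarith)]; exact hp
  linarith

lemma bet_le_one {p : ℝ} (hp : 1 < p) (k : ℕ) : bet p k ≤ 1 := by
  rw [bet_eq]
  exact pow_le_one₀ (by positivity) (bet_base hp).le

lemma bet_nonneg (p : ℝ) (k : ℕ) : 0 ≤ bet p k := by
  rw [bet_eq]; positivity

lemma bet_small {p : ℝ} (hp : 1 < p) {η : ℝ} (hη : 0 < η) : ∃ K0, ∀ k, K0 ≤ k → bet p k ≤ η := by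
  obtain ⟨n, hn⟩ := exists_pow_lt_of_lt_one hη (bet_base hp)
  refine ⟨n, fun k hk => ?_⟩
  rw [bet_eq]
  exact (pow_le_pow_of_le_one (by positivity) (bet_base hp).le hk).trans hn.le

/-- All pairings of a remote Rademacher sum with the left system are small. -/
theorem left_small {p : ℝ} (hp : 1 < p) (_hp2 : p ≤ 2) : ∃ D : ℝ, 0 < D ∧ ∀ m : ℕ, 1 ≤ m →
    ∃ K0 : ℕ, ∀ i : IL, |JJ p (rs1 ((range m).image (fun j => 2 * (K0 + j)))) (bL p i)| ≤
      D * (m : ℝ) ^ (p / 2 - 1) := by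
  have hp0 : 0 < p := by linarith
  obtain ⟨C1, hC1, hup⟩ := khin_up hp.le
  obtain ⟨Cν, hCν, hν⟩ := nm_vv hp
  refine ⟨(Cν + 1) * (1 + C1 ^ p), by positivity, fun m hm => ?_⟩
  have hm0 : (0:ℝ) < m := by exact_mod_cast hm
  obtain ⟨K0, hK0⟩ := bet_small hp (η := (m:ℝ) ^ (-(p / 2))) (by positivity)
  refine ⟨K0, fun i => ?_⟩
  set T := (range m).image (fun j => 2 * (K0 + j)) with hT
  have hcard : T.card = m := by
    rw [hT, card_image_of_injective _ (fun a b h => by simpa using h), card_range]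
  have heven : ∀ k ∈ T, K0 ≤ k ∧ ∃ j, k = 2 * j := by
    intro k hk
    obtain ⟨j, _, rfl⟩ := mem_image.mp hk
    exact ⟨by omega, ⟨_, rfl⟩⟩
  obtain ⟨n, hn, hD⟩ := exists_dep_rs1 T
  set A := (m : ℝ) ^ (p / 2 - 1) with hA
  have hA0 : 0 < A := by positivity
  have hrd : ∀ k, |JJ p (rs1 T) (rd k)| ≤ C1 ^ p * A := by
    intro k
    by_cases hk : k ∈ T
    · have h1 := JJ_rs1_rd hp0 hk
      rw [hcard] at h1
      have h2 := hup T (fun _ => 1)
      rw [← rs1_eq] at h2
      simp only [one_pow, sum_const, nsmul_eq_mul, mul_one, hcard] at h2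
      have h3 : nm p (rs1 T) ^ p ≤ C1 ^ p * (m:ℝ) ^ (p / 2) := by
        refine (Real.rpow_le_rpow (nm_nonneg _ _) h2 hp0.le).trans (le_of_eq ?_)
        rw [Real.mul_rpow hC1.le (Real.sqrt_nonneg _), Real.sqrt_eq_rpow,
          ← Real.rpow_mul hm0.le]
        congr 2
        ring
      have h4 : JJ p (rs1 T) (rd k) = nm p (rs1 T) ^ p / m := by
        rw [← h1]; field_simp
      have h5 : 0 ≤ nm p (rs1 T) ^ p := Real.rpow_nonneg (nm_nonneg _ _) _
      rw [h4, abs_of_nonneg (by positivity), div_le_iff₀ hm0, mul_assoc, hA,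
        ← Real.rpow_add_one hm0.ne', sub_add_cancel]
      exact h3
    · rw [JJ_rs1_rd_zero p hk, abs_zero]; positivity
  have hhaar : ∀ l : List Bool, |JJ p (rs1 T) (haar p l)| ≤ A := by
    intro l
    by_cases hk : l.length ∈ T
    · have h1 := JJ_abs_le hp (hD.mono (Nat.le_add_right n (l.length + 1)))
        ((dep_haar p l).mono (Nat.le_add_left _ _)) (rs1_abs T)
      rw [E_abs_haar, hcard] at h1
      refine h1.trans ?_
      have h2 := hK0 l.length (heven _ hk).1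
      refine (mul_le_mul_of_nonneg_left h2 (by positivity)).trans (le_of_eq ?_)
      rw [← Real.rpow_add hm0, hA]
      congr 1
      ring
    · have h1 := JJ_rs1_zero p hk (c := fun x => wt p l.length * cellI l x)
        ((dep_const _ _).mul (dep_cellI l))
      have h2 : JJ p (rs1 T) (haar p l) = 0 := h1
      rw [h2, abs_zero]; exact hA0.le
  have h01 : 0 < C1 ^ p := by positivity
  rcases i with _ | l | j
  · change |JJ p (rs1 T) (fun _ => 1)| ≤ _
    rw [JJ_rs1_one, abs_zero]; positivity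
  · change |JJ p (rs1 T) (fun x => (nm p (vv p l))⁻¹ * vv p l x)| ≤ _
    rw [JJ_mul_right, abs_mul, abs_of_pos (inv_pos.mpr (hν l).1)]
    have h1 : JJ p (rs1 T) (vv p l) = JJ p (rs1 T) (haar p l) +
        bet p l.length * (JJ p (rs1 T) (rd (2 * l.length + 1)) - JJ p (rs1 T) (rd l.length)) := by
      set N := n + 2 * l.length + 2 with hN
      have e1 : vv p l = fun x => haar p l x + (bet p l.length * rd (2 * l.length + 1) x +
          (-bet p l.length) * rd l.length x) := by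
        funext x; unfold vv; ring
      have d0 : Dep N (rs1 T) := hD.mono (by omega)
      have d1 : Dep N (haar p l) := (dep_haar p l).mono (by omega)
      have d2 : Dep N (fun x => bet p l.length * rd (2 * l.length + 1) x) :=
        (dep_const _ _).mul ((dep_rd _).mono (by omega))
      have d3 : Dep N (fun x => (-bet p l.length) * rd l.length x) :=
        (dep_const _ _).mul ((dep_rd _).mono (by omega))
      rw [e1, JJ_add_right d0 d1 (d2.add d3), JJ_add_right d0 d2 d3, JJ_mul_right, JJ_mul_right]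
      ring
    have h2 : JJ p (rs1 T) (rd (2 * l.length + 1)) = 0 := by
      apply JJ_rs1_rd_zero
      intro h
      obtain ⟨_, j, hj⟩ := heven _ h
      omega
    rw [h1, h2, zero_sub]
    have h3 : |JJ p (rs1 T) (haar p l) + bet p l.length * -JJ p (rs1 T) (rd l.length)| ≤
        A + C1 ^ p * A := by
      refine (abs_add_le _ _).trans (add_le_add (hhaar l) ?_)
      rw [abs_mul, abs_neg, abs_of_nonneg (bet_nonneg _ _)]
      have h4 := hrd l.length
      have h5 := bet_le_one hp l.length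
      have h6 : 0 ≤ |JJ p (rs1 T) (rd l.length)| := abs_nonneg _
      nlinarith [bet_nonneg p l.length]
    calc _ ≤ Cν * (A + C1 ^ p * A) :=
          mul_le_mul (hν l).2 h3 (abs_nonneg _) hCν.le
      _ ≤ _ := by nlinarith [mul_pos h01 hA0]
  · change |JJ p (rs1 T) (rd (2 * j))| ≤ _
    refine (hrd _).trans ?_
    nlinarith [mul_pos h01 hA0, mul_pos hCν hA0, mul_pos hCν (mul_pos h01 hA0)]

end Pool.Agent.H66R3.PG
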