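import Mathlib
import Pool.Agent.H66R3.PG.LowS

/-! Lower bound, `1 < p < 2`. -/

set_option autoImplicit false

open MeasureTheory Finset
open scoped ENNReal

namespace Pool.Agent.H66R3.PG

open Pool.Agent.Helper415 Pool.Agent.Helper415.TG

variable {P : ℝ≥0∞} [Fact (1 ≤ P)]

/-- picked elements -/
noncomputable def phA (P : ℝ≥0∞) (N k : ℕ) : Lp ℝ P mu := bE P (Sum.inr (Sum.inr (ohw N k)))

/-- coefficients at time `k` -/
def cA (N : ℕ) (ε : ℝ) (k : ℕ) (l : List Bool) : ℝ := if l ∈ WS N k then 0 else ε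

/-- residual at time `k` -/
noncomputable def rA (P : ℝ≥0∞) (s : (ℕ → Bool) → ℝ) (N : ℕ) (ε : ℝ) (k : ℕ) : Lp ℝ P mu :=
  VA P s (WS N N) (cA N ε k)

lemma rA_norm (hP : 1 < P.toReal) {n : ℕ} {s : (ℕ → Bool) → ℝ} (hs : Dep n s) (N : ℕ) (ε : ℝ)
    (k : ℕ) : nm P.toReal s ^ P.toReal ≤ ‖rA P s N ε k‖ ^ P.toReal := by
  unfold rA
  rw [norm_VA hP hs WS_length]
  have : 0 ≤ ∑ l ∈ WS N N, |cA N ε k l| ^ P.toReal := sum_nonneg fun _ _ => by positivity
  linarith

omit [Fact (1 ≤ P)] in
lemma span_phA (N k : ℕ) (v : Lp ℝ P mu) : v ∈ Submodule.span ℝ (phA P N '' Set.Iio k) ↔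
    ∃ a : List Bool → ℝ, v = ∑ l ∈ WS N k, a l • bE P (Sum.inr (Sum.inr l)) := by
  have h1 : phA P N '' Set.Iio k =
      (fun l => bE P (Sum.inr (Sum.inr l))) '' (WS N k : Finset (List Bool)) := by
    unfold WS phA
    rw [coe_image, ← Set.image_comp]
    congr 1
    ext i; simp
  rw [h1]
  constructor
  · intro hv
    rw [Submodule.mem_span_image_finset_iff_exists_fun'] at hv
    obtain ⟨a, ha⟩ := hv
    exact ⟨a, ha.symm⟩
  · rintro ⟨a, rfl⟩
    exact Submodule.sum_mem _ fun i hi => Submodule.smul_mem _ _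
      (Submodule.subset_span ⟨i, mem_coe.mpr hi, rfl⟩)

lemma step_A (hP : 1 < P.toReal) {n : ℕ} {s : (ℕ → Bool) → ℝ} (hs : Dep n s)
    (hs0 : 0 < nm P.toReal s) {N : ℕ} {ε t : ℝ} (hε : 0 < ε) (ht0 : 0 ≤ t) (ht : t ≤ 1)
    (hleft : ∀ i : IL, |JJ P.toReal s (bL P.toReal i)| ≤ ε ^ (P.toReal - 1)) {j : ℕ}
    (hj : j < N) : Step normingF (Set.range (bE P)) t (rA P s N ε 0) (phA P N) (rA P s N ε) j := by
  set p := P.toReal with hp
  have hp0 : 0 < p := by linarith
  have hWN : ∀ l ∈ WS N N, l.length = N := WS_length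
  have hne : ∀ k, 0 < ‖rA P s N ε k‖ := by
    intro k
    have h1 := rA_norm hP hs N ε k
    by_contra hcon
    have h2 : ‖rA P s N ε k‖ = 0 := le_antisymm (not_lt.mp hcon) (norm_nonneg _)
    rw [h2, Real.zero_rpow hp0.ne'] at h1
    have : 0 < nm p s ^ p := by positivity
    linarith
  refine ⟨fun h => absurd h (norm_pos_iff.mp (hne j)), fun _ => ⟨⟨⟨_, rfl⟩, ?_⟩, ?_⟩⟩
  · -- greedy choice
    have hc0 : 0 < ‖rA P s N ε j‖ ^ (1 - p) := Real.rpow_pos_of_pos (hne j) _
    have hεp : 0 < ε ^ (p - 1) := by positivity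
    have hright : ∀ l, |JJ p (hU p (WS N N) (cA N ε j)) (haar p l)| ≤ ε ^ (p - 1) := by
      intro l
      rw [JJ_hU_haar hp0 hWN]
      split_ifs with h
      · unfold cA
        split_ifs
        · rw [mul_zero, abs_zero]; exact hεp.le
        · rw [abs_of_pos hε, ← Real.rpow_add_one hε.ne',
            show p - 2 + 1 = p - 1 by ring, abs_of_pos hεp]
      · rw [abs_zero]; exact hεp.le
    have hval : |normingF (rA P s N ε j) (phA P N j)| = ‖rA P s N ε j‖ ^ (1 - p) * ε ^ (p - 1) := by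
      have h1 : normingF (rA P s N ε j) (phA P N j) = _ :=
        F_VA_right hP hs hWN (cA N ε j) (Sum.inr (ohw N j))
      rw [h1]
      change |‖rA P s N ε j‖ ^ (1 - p) * JJ p (hU p (WS N N) (cA N ε j)) (haar p (ohw N j))| = _
      rw [JJ_hU_haar hp0 hWN, if_pos (ohw_mem hj)]
      have h2 : cA N ε j (ohw N j) = ε := by
        unfold cA
        rw [if_neg (ohw_not_mem hj)]
      rw [h2, abs_of_pos hε, ← Real.rpow_add_one hε.ne', show p - 2 + 1 = p - 1 by ring,
        abs_of_pos (mul_pos hc0 hεp)]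
    rintro g ⟨i, rfl⟩
    rw [hval]
    have hle : |normingF (rA P s N ε j) (bE P i)| ≤ ‖rA P s N ε j‖ ^ (1 - p) * ε ^ (p - 1) := by
      rcases i with i | i
      · have h1 : normingF (rA P s N ε j) (bE P (Sum.inl i)) = _ :=
          F_VA_left hP hs hWN (cA N ε j) i
        rw [h1, abs_mul, abs_of_pos (show 0 < ‖VA P s (WS N N) (cA N ε j)‖ ^ (1 - P.toReal)
          from hc0)]
        exact mul_le_mul_of_nonneg_left (hleft i) hc0.le
      · have h1 : normingF (rA P s N ε j) (bE P (Sum.inr i)) = _ :=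
          F_VA_right hP hs hWN (cA N ε j) i
        rw [h1, abs_mul, abs_of_pos (show 0 < ‖VA P s (WS N N) (cA N ε j)‖ ^ (1 - P.toReal)
          from hc0)]
        apply mul_le_mul_of_nonneg_left _ hc0.le
        rcases i with _ | l
        · change |JJ p (hU p (WS N N) (cA N ε j)) (fun _ => 1)| ≤ _
          rw [JJ_hU_one hWN, abs_zero]; exact hεp.le
        · exact hright l
    have h0 : 0 ≤ |normingF (rA P s N ε j) (bE P i)| := abs_nonneg _
    nlinarith
  · -- best approximation
    refine ⟨∑ l ∈ WS N (j + 1), ε • bE P (Sum.inr (Sum.inr l)), ⟨?_, ?_⟩, ?_⟩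
    · exact (span_phA N (j + 1) _).mpr ⟨fun _ => ε, rfl⟩
    · intro h hh
      obtain ⟨a, rfl⟩ := (span_phA N (j + 1) h).mp hh
      unfold rA
      rw [VA_sub_right hs hWN _ (WS_mono hj) (fun _ => ε), VA_sub_right hs hWN _ (WS_mono hj) a]
      apply (Real.rpow_le_rpow_iff (norm_nonneg _) (norm_nonneg _) hp0).mp
      rw [hp, norm_VA hP hs hWN, norm_VA hP hs hWN]
      refine add_le_add le_rfl (sum_le_sum fun l hl => Real.rpow_le_rpow (abs_nonneg _) ?_ hp0.le)
      unfold cA
      have h0 : l ∉ WS N 0 := by simp [WS]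
      rw [if_neg h0]
      split_ifs with h1
      · rw [sub_self, abs_zero]; exact abs_nonneg _
      · exact le_rfl
    · unfold rA
      rw [VA_sub_right hs hWN _ (WS_mono hj) (fun _ => ε)]
      congr 1
      funext l
      unfold cA
      have h0 : l ∉ WS N 0 := by simp [WS]
      rw [if_neg h0]
      split_ifs
      · ring
      · ring

/-- Lower bound for `1 < p < 2`. -/
theorem lowA (hP : 1 < P.toReal) (hP2 : P.toReal ≤ 2) {t : ℝ} (ht0 : 0 ≤ t) (ht : t ≤ 1) :
    LowB P t (P.toReal / (P.toReal - 1) / 2) := by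
  set p := P.toReal with hp
  have hp0 : 0 < p := by linarith
  have hp1 : 0 < p - 1 := by linarith
  obtain ⟨D, hD, hsmall⟩ := left_small hP hP2
  obtain ⟨C2, hC2, hlow⟩ := khin_low hP
  intro C3 hC3
  -- the constant
  refine ⟨1 / 2 * (1 / (C2 * C3 * D ^ (1 / (p - 1)))) ^ p, by positivity, ?_⟩
  intro m hm N hN
  have hm0 : (0:ℝ) < m := by exact_mod_cast hm
  obtain ⟨K0, hK0⟩ := hsmall m hm
  set T := (range m).image (fun j => 2 * (K0 + j)) with hT
  have hinj : Function.Injective (fun j => 2 * (K0 + j)) := fun a b h => by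
    simp only at h; omega
  have hcard : T.card = m := by
    rw [hT, card_image_of_injective _ hinj, card_range]
  obtain ⟨n, _, hs⟩ := exists_dep_rs1 T
  set s := rs1 T with hsd
  -- the norm of `s`
  have hsn : Real.sqrt m ≤ C2 * nm p s := by
    have h1 := hlow T (fun _ => 1)
    rw [← rs1_eq] at h1
    simpa [hcard] using h1
  have hsq : 0 < Real.sqrt m := Real.sqrt_pos.mpr hm0
  have hs0 : 0 < nm p s := by
    by_contra hcon
    push Not at hcon
    have : C2 * nm p s ≤ 0 := mul_nonpos_of_nonneg_of_nonpos hC2.le hcon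
    linarith
  set ε : ℝ := (D * (m : ℝ) ^ (p / 2 - 1)) ^ (1 / (p - 1)) with hε
  have hε0 : 0 < ε := by positivity
  have hεp : ε ^ (p - 1) = D * (m : ℝ) ^ (p / 2 - 1) := by
    rw [hε, ← Real.rpow_mul (by positivity)]
    have : 1 / (p - 1) * (p - 1) = 1 := by field_simp
    rw [this, Real.rpow_one]
  refine ⟨rA P s N ε 0, phA P N, rA P s N ε, rfl, fun j hj => ?_, fun k _ => ?_⟩
  · apply step_A hP hs hs0 hε0 ht0 ht _ hj
    intro i
    rw [← hp, hεp]
    exact hK0 i
  · -- the error of `m`-term approximation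
    have h1 : sigma (Set.range (bE P)) m (rA P s N ε 0) ≤ ε * (N:ℝ) ^ (1 / p) := by
      set TI : Finset IL := (range m).image (fun j => Sum.inr (Sum.inr (K0 + j))) with hTI
      have hinjI : Function.Injective (fun j : ℕ => (Sum.inr (Sum.inr (K0 + j)) : IL)) := by
        intro a b h
        simpa using h
      have hcardI : (TI.map ⟨Sum.inl, Sum.inl_injective⟩ : Finset (IL ⊕ IR)).card = m := by
        rw [card_map, hTI, card_image_of_injective _ hinjI, card_range]
      have h2 := sigma_le_finset (bE P) (rA P s N ε 0)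
        (TI.map ⟨Sum.inl, Sum.inl_injective⟩ : Finset (IL ⊕ IR)) (fun _ => 1)
      rw [hcardI] at h2
      refine h2.trans ?_
      rw [sum_map]
      have h3 : rA P s N ε 0 - ∑ i ∈ TI, (1:ℝ) • bE P ((⟨Sum.inl, Sum.inl_injective⟩ :
          IL ↪ IL ⊕ IR) i) = VA P (fun _ => 0) (WS N N) (cA N ε 0) := by
        unfold rA
        have h4 := VA_sub_left (P := P) hs (U := WS N N) WS_length (cA N ε 0) TI (fun _ => 1)
        refine h4.trans ?_
        congr 1
        funext y
        rw [hTI, sum_image (fun a _ b _ h => hinjI h)]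
        have h5 : s y = ∑ j ∈ range m, rd (2 * (K0 + j)) y := by
          rw [hsd]
          unfold rs1
          rw [hT, sum_image (fun a _ b _ h => hinj h)]
        rw [h5]
        simp only [one_mul]
        exact sub_self _
      rw [h3]
      have h6 := norm_VA (P := P) hP (dep_const 0 0) (U := WS N N) WS_length (cA N ε 0)
      rw [← hp, nm_zero hp0, Real.zero_rpow hp0.ne', zero_add] at h6
      have h7 : ∑ l ∈ WS N N, |cA N ε 0 l| ^ p = N * ε ^ p := by
        have : ∀ l ∈ WS N N, |cA N ε 0 l| ^ p = ε ^ p := by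
          intro l _
          unfold cA
          rw [if_neg (by simp [WS]), abs_of_pos hε0]
        rw [sum_congr rfl this, sum_const, WS_card le_rfl, nsmul_eq_mul]
      rw [h7] at h6
      apply (Real.rpow_le_rpow_iff (norm_nonneg _) (by positivity) hp0).mp
      have h8 : ((N:ℝ) ^ (1 / p)) ^ p = N := by
        have : 1 / p * p = 1 := by field_simp
        rw [← Real.rpow_mul (Nat.cast_nonneg N), this, Real.rpow_one]
      rw [h6, Real.mul_rpow hε0.le (by positivity), h8, mul_comm]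
    have h2 : nm p s ≤ ‖rA P s N ε k‖ := by
      apply (Real.rpow_le_rpow_iff (nm_nonneg _ _) (norm_nonneg _) hp0).mp
      exact rA_norm hP hs N ε k
    -- the numerical inequality
    have h3 : C3 * (ε * (N:ℝ) ^ (1 / p)) < nm p s := by
      have h4 : C3 * (ε * (N:ℝ) ^ (1 / p)) < Real.sqrt m / C2 := by
        rw [lt_div_iff₀ hC2]
        apply (Real.rpow_lt_rpow_iff (by positivity) (by positivity) hp0).mp
        have e1 : (C3 * (ε * (N:ℝ) ^ (1 / p)) * C2) ^ p = (C2 * C3) ^ p * ε ^ p * N := by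
          have h8 : ((N:ℝ) ^ (1 / p)) ^ p = N := by
            have : 1 / p * p = 1 := by field_simp
            rw [← Real.rpow_mul (Nat.cast_nonneg N), this, Real.rpow_one]
          rw [show C3 * (ε * (N:ℝ) ^ (1 / p)) * C2 = (C2 * C3) * ε * (N:ℝ) ^ (1 / p) by ring,
            Real.mul_rpow (by positivity) (by positivity), Real.mul_rpow (by positivity) hε0.le,
            h8]
        have e2 : (Real.sqrt m) ^ p = (m:ℝ) ^ (p / 2) := by
          rw [Real.sqrt_eq_rpow, ← Real.rpow_mul hm0.le]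
          congr 1; ring
        have e3 : ε ^ p = D ^ (p / (p - 1)) * (m:ℝ) ^ ((p / 2 - 1) * (p / (p - 1))) := by
          rw [hε, ← Real.rpow_mul (by positivity), Real.mul_rpow hD.le (by positivity),
            ← Real.rpow_mul hm0.le]
          have : 1 / (p - 1) * p = p / (p - 1) := by ring
          rw [this]
        have e4 : (1 / (C2 * C3 * D ^ (1 / (p - 1)))) ^ p =
            ((C2 * C3) ^ p * D ^ (p / (p - 1)))⁻¹ := by
          rw [one_div, Real.inv_rpow (by positivity), Real.mul_rpow (by positivity) (by positivity),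
            ← Real.rpow_mul hD.le]
          have : 1 / (p - 1) * p = p / (p - 1) := by ring
          rw [this]
        rw [e4] at hN
        rw [e1, e2, e3]
        have e5 : (C2 * C3) ^ p * (D ^ (p / (p - 1)) * (m:ℝ) ^ ((p / 2 - 1) * (p / (p - 1)))) * N ≤
            (C2 * C3) ^ p * (D ^ (p / (p - 1)) * (m:ℝ) ^ ((p / 2 - 1) * (p / (p - 1)))) *
              (1 / 2 * ((C2 * C3) ^ p * D ^ (p / (p - 1)))⁻¹ * (m:ℝ) ^ (p / (p - 1) / 2)) :=
          mul_le_mul_of_nonneg_left hN (by positivity)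
        refine e5.trans_lt ?_
        have e6 : (C2 * C3) ^ p * (D ^ (p / (p - 1)) * (m:ℝ) ^ ((p / 2 - 1) * (p / (p - 1)))) *
              (1 / 2 * ((C2 * C3) ^ p * D ^ (p / (p - 1)))⁻¹ * (m:ℝ) ^ (p / (p - 1) / 2)) =
              1 / 2 * ((m:ℝ) ^ ((p / 2 - 1) * (p / (p - 1))) * (m:ℝ) ^ (p / (p - 1) / 2)) := by
          have : (C2 * C3) ^ p * D ^ (p / (p - 1)) ≠ 0 := by positivity
          field_simp
        rw [e6, ← Real.rpow_add hm0]
        have e7 : (p / 2 - 1) * (p / (p - 1)) + p / (p - 1) / 2 = p / 2 := by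
          field_simp
          ring
        rw [e7]
        have : 0 < (m:ℝ) ^ (p / 2) := by positivity
        linarith
      refine h4.trans_le ?_
      rw [div_le_iff₀ hC2]
      linarith
    calc C3 * sigma (Set.range (bE P)) m (rA P s N ε 0) ≤ C3 * (ε * (N:ℝ) ^ (1 / p)) :=
          mul_le_mul_of_nonneg_left h1 hC3.le
      _ < nm p s := h3
      _ ≤ _ := h2

end Pool.Agent.H66R3.PG
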