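import Mathlib
import Pool.Agent.H66R3.PG.LowS

/-! Lower bound, `2 < p`. -/

set_option autoImplicit false

open MeasureTheory Finset
open scoped ENNReal

namespace Pool.Agent.H66R3.PG

open Pool.Agent.Helper415 Pool.Agent.Helper415.TG

/-- indices of the first Rademacher functions -/
def TN (N : ℕ) : Finset IL := (range N).image (fun j => Sum.inr (Sum.inr j))

lemma TN_inj : Function.Injective (fun j : ℕ => (Sum.inr (Sum.inr j) : IL)) := by
  intro a b h
  simpa using h

/-- left part -/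
noncomputable def H0 (p : ℝ) (N : ℕ) (ε : ℝ) (y : ℕ → Bool) : ℝ := ∑ i ∈ TN N, ε * bL p i y

lemma double_inj : Function.Injective (fun j : ℕ => 2 * j) := fun a b h => by
  simp only at h; omega

lemma rad_left (p : ℝ) (J : Finset ℕ) (ε : ℝ) :
    (fun y => ∑ i ∈ J.image (fun j => (Sum.inr (Sum.inr j) : IL)), ε * bL p i y) =
      rsum (J.image (fun j => 2 * j)) (fun _ => ε) := by
  funext y
  unfold rsum
  rw [sum_image (fun a _ b _ h => TN_inj h), sum_image (fun a _ b _ h => double_inj h)]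
  rfl

lemma H0_norm {p : ℝ} (hp : 1 < p) : ∃ C : ℝ, 0 < C ∧ ∀ (N : ℕ) (ε : ℝ), 0 ≤ ε →
    nm p (H0 p N ε) ≤ C * (ε * Real.sqrt N) := by
  obtain ⟨C, hC, h⟩ := khin_up hp.le
  refine ⟨C, hC, fun N ε hε => ?_⟩
  have h1 := h ((range N).image (fun j => 2 * j)) (fun _ => ε)
  have h2 : H0 p N ε = rsum ((range N).image (fun j => 2 * j)) (fun _ => ε) :=
    rad_left p (range N) ε
  rw [h2]
  refine h1.trans (le_of_eq ?_)
  rw [sum_const, card_image_of_injective _ double_inj, card_range, nsmul_eq_mul, mul_comm (N:ℝ),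
    Real.sqrt_mul (sq_nonneg _), Real.sqrt_sq hε]

/-- Lower bound of the norm of the left part of the residual. -/
lemma left_norm {p : ℝ} (hp : 1 < p) : ∃ c : ℝ, 0 < c ∧ ∀ (N : ℕ) (ε : ℝ), 0 ≤ ε →
    ∀ (S : Finset IL) (a : IL → ℝ), 2 * S.card ≤ N →
      c * (ε * Real.sqrt N) ≤ nm p (fun y => H0 p N ε y - ∑ i ∈ S, a i * bL p i y) := by
  classical
  obtain ⟨C, hC, hunc⟩ := unc_bL hp
  obtain ⟨C2, hC2, hlow⟩ := khin_low hp
  refine ⟨1 / (C * C2 * 2), by positivity, fun N ε hε S a hS => ?_⟩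
  set J : Finset ℕ := (range N).filter (fun j => (Sum.inr (Sum.inr j) : IL) ∉ S) with hJ
  have h1 := hunc (TN N ∪ S) (fun i => (if i ∈ TN N then ε else 0) - if i ∈ S then a i else 0)
    (fun i => if i ∈ TN N \ S then 1 else 0) (fun i => by
      split_ifs
      · simp
      · simp)
  have e1 : (fun x => ∑ i ∈ TN N ∪ S,
      ((if i ∈ TN N then ε else 0) - if i ∈ S then a i else 0) * bL p i x) =
      fun y => H0 p N ε y - ∑ i ∈ S, a i * bL p i y := by
    funext x
    simp only [sub_mul, sum_sub_distrib]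
    congr 1
    · unfold H0
      rw [← sum_subset (subset_union_left : TN N ⊆ TN N ∪ S)]
      · apply sum_congr rfl
        intro i hi
        rw [if_pos hi]
      · intro i _ hi
        rw [if_neg hi, zero_mul]
    · rw [← sum_subset (subset_union_right : S ⊆ TN N ∪ S)]
      · apply sum_congr rfl
        intro i hi
        rw [if_pos hi]
      · intro i _ hi
        rw [if_neg hi, zero_mul]
  have e2 : (fun x => ∑ i ∈ TN N ∪ S, (if i ∈ TN N \ S then (1:ℝ) else 0) *
      ((if i ∈ TN N then ε else 0) - if i ∈ S then a i else 0) * bL p i x) =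
      rsum (J.image (fun j => 2 * j)) (fun _ => ε) := by
    rw [← rad_left p J ε]
    funext x
    have hsub : J.image (fun j => (Sum.inr (Sum.inr j) : IL)) ⊆ TN N ∪ S := by
      intro i hi
      obtain ⟨j, hj, rfl⟩ := mem_image.mp hi
      exact mem_union_left _ (mem_image_of_mem _ (mem_filter.mp hj).1)
    rw [← sum_subset hsub]
    · apply sum_congr rfl
      intro i hi
      obtain ⟨j, hj, rfl⟩ := mem_image.mp hi
      have hj' := mem_filter.mp hj
      have h2 : (Sum.inr (Sum.inr j) : IL) ∈ TN N := mem_image_of_mem _ hj'.1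
      rw [if_pos (mem_sdiff.mpr ⟨h2, hj'.2⟩), if_pos h2, if_neg hj'.2]
      ring
    · intro i _ hi
      rw [if_neg]
      · ring
      · intro h3
        rw [mem_sdiff] at h3
        obtain ⟨j, hj, rfl⟩ := mem_image.mp h3.1
        exact hi (mem_image_of_mem _ (mem_filter.mpr ⟨hj, h3.2⟩))
  rw [e1] at h1
  rw [e2] at h1
  have h2 := hlow (J.image (fun j => 2 * j)) (fun _ => ε)
  rw [sum_const, card_image_of_injective _ double_inj, nsmul_eq_mul, mul_comm (J.card:ℝ),
    Real.sqrt_mul (sq_nonneg _), Real.sqrt_sq hε] at h2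
  have h3 : N ≤ 2 * J.card := by
    set B : Finset ℕ := (range N).filter (fun j => (Sum.inr (Sum.inr j) : IL) ∈ S) with hB
    have h4 : B.card ≤ S.card := by
      rw [← card_image_of_injective _ TN_inj]
      apply card_le_card
      intro i hi
      obtain ⟨j, hj, rfl⟩ := mem_image.mp hi
      exact (mem_filter.mp hj).2
    have h5 : range N ⊆ J ∪ B := by
      intro j hj
      by_cases hjS : (Sum.inr (Sum.inr j) : IL) ∈ S
      · exact mem_union_right _ (mem_filter.mpr ⟨hj, hjS⟩)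
      · exact mem_union_left _ (mem_filter.mpr ⟨hj, hjS⟩)
    have h5' := (card_le_card h5).trans (card_union_le J B)
    rw [card_range] at h5'
    omega
  have h6 : Real.sqrt N ≤ 2 * Real.sqrt J.card := by
    rw [Real.sqrt_le_left (by positivity), mul_pow, Real.sq_sqrt (by positivity)]
    have : (N:ℝ) ≤ 2 * J.card := by exact_mod_cast h3
    have h7 : (0:ℝ) ≤ J.card := by positivity
    linarith
  set X := nm p (fun y => H0 p N ε y - ∑ i ∈ S, a i * bL p i y) with hX
  have h8 : ε * Real.sqrt J.card ≤ C2 * (C * X) := h2.trans (mul_le_mul_of_nonneg_left h1 hC2.le)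
  rw [div_mul_eq_mul_div, one_mul, div_le_iff₀ (by positivity)]
  have h9 : ε * Real.sqrt N ≤ ε * (2 * Real.sqrt J.card) := mul_le_mul_of_nonneg_left h6 hε
  nlinarith

variable {P : ℝ≥0∞} [Fact (1 ≤ P)]

/-- the target function -/
noncomputable def fC (P : ℝ≥0∞) (m N : ℕ) (ε : ℝ) : Lp ℝ P mu :=
  VA P (H0 P.toReal N ε) (WS m m) (fun _ => 1)

lemma dep_H0 (p : ℝ) (N : ℕ) (ε : ℝ) : ∃ n, Dep n (H0 p N ε) ∧
    ∀ i ∈ TN N, Dep n (bL p i) := by
  obtain ⟨n, h1, h2⟩ := exists_dep_fam (TN N) dL (bL p) (dep_bL p)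
  exact ⟨n, h2 (fun _ => ε), h1⟩

/-- the span of picked left elements -/
noncomputable def WW (P : ℝ≥0∞) [Fact (1 ≤ P)] (S : Finset IL) : Submodule ℝ (Lp ℝ P mu) :=
  Submodule.span ℝ ((fun i => bE P (Sum.inl i)) '' (S : Set IL))

lemma mem_WW {S : Finset IL} {v : Lp ℝ P mu} (hv : v ∈ WW P S) :
    ∃ a : IL → ℝ, v = ∑ i ∈ S, a i • bE P (Sum.inl i) := by
  unfold WW at hv
  rw [Submodule.mem_span_image_finset_iff_exists_fun'] at hv
  obtain ⟨a, ha⟩ := hv
  exact ⟨a, ha.symm⟩

/-- The residual after picking left elements. -/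
lemma key_C (hP : 1 < P.toReal) : ∃ c1 : ℝ, 0 < c1 ∧ ∀ (m N : ℕ) (ε : ℝ), 0 ≤ ε →
    ∀ (S : Finset IL), 2 * S.card ≤ N → ∀ G : Lp ℝ P mu, IsBestApprox (fC P m N ε) G (WW P S) →
      (m:ℝ) ^ (1 / P.toReal) ≤ ‖fC P m N ε - G‖ ∧
      (1 ≤ m → 1 ≤ N → 0 < ε → ε * N ≤ (c1 * (ε * Real.sqrt N)) ^ P.toReal →
        ∃ i : IL, ∀ j : IL ⊕ IR, 1 / 2 * |normingF (fC P m N ε - G) (bE P j)| ≤
          |normingF (fC P m N ε - G) (bE P (Sum.inl i))|) := by
  classical
  set p := P.toReal with hp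
  have hp0 : 0 < p := by linarith
  obtain ⟨c1, hc1, hlow⟩ := left_norm hP
  refine ⟨c1, hc1, fun m N ε hε S hS G hG => ?_⟩
  obtain ⟨a, ha⟩ := mem_WW hG.1
  obtain ⟨n1, hn1, hn1'⟩ := dep_H0 p N ε
  obtain ⟨n2, hn2, hn2'⟩ := exists_dep_fam S dL (bL p) (dep_bL p)
  set h : (ℕ → Bool) → ℝ := fun y => H0 p N ε y - ∑ i ∈ S, a i * bL p i y with hh
  have hd : Dep (n1 + n2) h := (hn1.mono (by omega)).sub ((hn2' a).mono (by omega))
  set U := WS m m with hU'
  have hUM : ∀ l ∈ U, l.length = m := WS_length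
  have hres : fC P m N ε - G = VA P h U (fun _ => 1) := by
    rw [ha]
    exact VA_sub_left hn1 hUM (fun _ => 1) S a
  have hnorm := norm_VA (P := P) hP hd hUM (fun _ => 1)
  rw [← hp] at hnorm
  simp only [abs_one, Real.one_rpow, sum_const, nsmul_eq_mul, mul_one] at hnorm
  rw [hU', WS_card le_rfl, ← hU'] at hnorm
  have hnm0 : 0 ≤ nm p h ^ p := Real.rpow_nonneg (nm_nonneg _ _) _
  rw [hres]
  constructor
  · apply (Real.rpow_le_rpow_iff (by positivity) (norm_nonneg _) hp0).mp
    rw [hnorm, ← Real.rpow_mul (by positivity), one_div, inv_mul_cancel₀ hp0.ne', Real.rpow_one]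
    linarith
  · intro hm hN hε0 hcond
    have hm0 : (0:ℝ) < m := by exact_mod_cast hm
    have hN0 : (0:ℝ) < N := by exact_mod_cast hN
    set R := VA P h U (fun _ => 1) with hR
    have hRpos : 0 < ‖R‖ := by
      by_contra hcon
      have h2 : ‖R‖ = 0 := le_antisymm (not_lt.mp hcon) (norm_nonneg _)
      rw [h2, Real.zero_rpow hp0.ne'] at hnorm
      linarith
    have hRne : R ≠ 0 := norm_pos_iff.mp hRpos
    have hc0 : 0 < ‖R‖ ^ (1 - p) := Real.rpow_pos_of_pos hRpos _
    have hFl : ∀ i : IL, normingF R (bE P (Sum.inl i)) = ‖R‖ ^ (1 - p) * JJ p h (bL p i) :=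
      fun i => F_VA_left hP hd hUM (fun _ => 1) i
    have hFr : ∀ i : IR, |normingF R (bE P (Sum.inr i))| ≤ ‖R‖ ^ (1 - p) := by
      intro i
      have h1 : normingF R (bE P (Sum.inr i)) = ‖R‖ ^ (1 - p) * JJ p (hU p U (fun _ => 1)) (bR p i) :=
        F_VA_right hP hd hUM (fun _ => 1) i
      rw [h1, abs_mul, abs_of_pos hc0]
      have h2 : |JJ p (hU p U (fun _ => 1)) (bR p i)| ≤ 1 := by
        rcases i with _ | l
        · change |JJ p (hU p U (fun _ => 1)) (fun _ => 1)| ≤ 1
          rw [JJ_hU_one hUM, abs_zero]; norm_num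
        · change |JJ p (hU p U (fun _ => 1)) (haar p l)| ≤ 1
          rw [JJ_hU_haar hp0 hUM]
          split_ifs <;> simp
      nlinarith
    -- orthogonality
    have horth : ∀ i ∈ S, JJ p h (bL p i) = 0 := by
      intro i hi
      have h1 : normingF R (bE P (Sum.inl i)) = 0 := by
        apply F_zero hP hRne
        intro s
        have h2 := hG.2 (G + s • bE P (Sum.inl i)) (Submodule.add_mem _ hG.1
          (Submodule.smul_mem _ _ (Submodule.subset_span ⟨i, mem_coe.mpr hi, rfl⟩)))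
        rw [hres] at h2
        have h3 : fC P m N ε - (G + s • bE P (Sum.inl i)) = R - s • bE P (Sum.inl i) := by
          rw [← hres]; abel
        rw [h3] at h2
        exact h2
      rw [hFl] at h1
      rcases mul_eq_zero.mp h1 with h2 | h2
      · exact absurd h2 hc0.ne'
      · exact h2
    have hself : nm p h ^ p = ε * ∑ j ∈ range N, JJ p h (rd (2 * j)) := by
      rw [← JJ_self hp0]
      have e1 : h = fun y => H0 p N ε y + ∑ i ∈ S, (-a i) * bL p i y := by
        funext y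
        rw [hh]
        simp only [neg_mul, sum_neg_distrib]
        rfl
      have e2 : JJ p h h = JJ p h (fun y => H0 p N ε y + ∑ i ∈ S, (-a i) * bL p i y) := by
        conv_lhs => arg 3; rw [e1]
      have e4 : JJ p h (H0 p N ε) = ∑ i ∈ TN N, ε * JJ p h (bL p i) :=
        JJ_sum_right hd (TN N) (fun _ => ε) (fun i hi => (hn1' i hi).mono (by omega))
      rw [e2, JJ_add_right (n := n1 + n2) hd (hn1.mono (by omega))
        ((hn2' (fun i => -a i)).mono (by omega)), e4,
        JJ_sum_right hd S (fun i => -a i) (fun i hi => (hn2 i hi).mono (by omega))]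
      have e3 : ∑ i ∈ S, -a i * JJ p h (bL p i) = 0 :=
        sum_eq_zero fun i hi => by rw [horth i hi, mul_zero]
      rw [e3, add_zero, ← mul_sum]
      congr 1
      unfold TN
      rw [sum_image (fun a _ b _ h => TN_inj h)]
      rfl
    obtain ⟨j0, hj0⟩ : ∃ j0 : ℕ, 1 ≤ JJ p h (rd (2 * j0)) := by
      by_contra hcon
      push Not at hcon
      have h1 : ∑ j ∈ range N, JJ p h (rd (2 * j)) < N := by
        have : ∑ j ∈ range N, JJ p h (rd (2 * j)) < ∑ j ∈ range N, (1:ℝ) :=
          sum_lt_sum_of_nonempty (nonempty_range_iff.mpr (by omega)) fun j _ => hcon j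
        simpa using this
      have h2 := hlow N ε hε0.le S a hS
      have h3 := Real.rpow_le_rpow (by positivity) h2 hp0.le
      have h4 : nm p h ^ p < ε * N := by
        rw [hself]
        exact mul_lt_mul_of_pos_left h1 hε0
      have h5 : (c1 * (ε * Real.sqrt N)) ^ p ≤ nm p h ^ p := h3
      linarith
    -- the choice
    have hbdd : BddAbove ((fun g => |normingF R g|) '' Set.range (fun i => bE P (Sum.inl i))) := by
      refine ⟨1, ?_⟩
      rintro _ ⟨_, ⟨i, rfl⟩, rfl⟩
      have := F_le hP R (bE P (Sum.inl i))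
      rw [norm_bE hP] at this
      exact this
    obtain ⟨g, ⟨i, rfl⟩, hgi⟩ := exists_weak (F := normingF) (t := 1 / 2) (by norm_num)
      (Set.range_nonempty (fun i : IL => bE P (Sum.inl i))) R hbdd
    refine ⟨i, fun j => ?_⟩
    rcases j with j | j
    · exact hgi _ ⟨j, rfl⟩
    · have h1 := hgi _ ⟨Sum.inr (Sum.inr j0), rfl⟩
      have h2 : ‖R‖ ^ (1 - p) ≤ |normingF R (bE P (Sum.inl (Sum.inr (Sum.inr j0))))| := by
        rw [hFl, abs_mul, abs_of_pos hc0]
        have h3 : 1 ≤ |JJ p h (bL p (Sum.inr (Sum.inr j0)))| := hj0.trans (le_abs_self _)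
        nlinarith
      have h3 := hFr j
      simp only at h1
      linarith

/-- Lower bound for `2 ≤ p`. -/
theorem lowC (hP : 1 < P.toReal) : LowB P (1 / 2) ((1 - 1 / P.toReal) * 2) := by
  classical
  set p := P.toReal with hp
  have hp0 : 0 < p := by linarith
  obtain ⟨c1, hc1, hkey⟩ := key_C (P := P) hP
  obtain ⟨C1, hC1, hup⟩ := H0_norm hP
  intro C3 hC3
  set δ : ℝ := 1 / (2 * C1 * C3) with hδ
  have hδ0 : 0 < δ := by positivity
  refine ⟨(c1 ^ p * δ ^ (p - 1)) ^ 2 / 2, by positivity, ?_⟩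
  intro m hm K hK
  have hm0 : (0:ℝ) < m := by exact_mod_cast hm
  set N := 2 * K with hN
  set ε : ℝ := δ * (m:ℝ) ^ (1 / p) / Real.sqrt N with hε
  have hε0 : 0 ≤ ε := by positivity
  set f₀ := fC P m N ε with hf₀
  choose G hG using fun S : Finset IL =>
    (haveI : FiniteDimensional ℝ (WW P S) :=
      FiniteDimensional.span_of_finite ℝ ((Finset.finite_toSet S).image _)
     exists_best f₀ (WW P S))
  have hex : ∀ S : Finset IL, ∃ i : IL, S.card < K → ∀ j : IL ⊕ IR,
      1 / 2 * |normingF (f₀ - G S) (bE P j)| ≤ |normingF (f₀ - G S) (bE P (Sum.inl i))| := by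
    intro S
    by_cases hS : S.card < K
    · have hK1 : 1 ≤ K := by omega
      have hN1 : 1 ≤ N := by omega
      have hN0 : (0:ℝ) < N := by exact_mod_cast hN1
      have hsq : 0 < Real.sqrt N := Real.sqrt_pos.mpr hN0
      have hεpos : 0 < ε := by positivity
      have h1 : ε * Real.sqrt N = δ * (m:ℝ) ^ (1 / p) := by
        rw [hε]; field_simp
      have hcond : ε * N ≤ (c1 * (ε * Real.sqrt N)) ^ p := by
        have e1 : ε * N = δ * (m:ℝ) ^ (1 / p) * Real.sqrt N := by
          rw [← h1, mul_assoc, Real.mul_self_sqrt hN0.le]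
        rw [e1, h1]
        have e2 : (c1 * (δ * (m:ℝ) ^ (1 / p))) ^ p = c1 ^ p * δ ^ p * m := by
          rw [Real.mul_rpow hc1.le (by positivity), Real.mul_rpow hδ0.le (by positivity),
            ← Real.rpow_mul hm0.le, one_div, inv_mul_cancel₀ hp0.ne', Real.rpow_one]
          ring
        rw [e2]
        have e3 : Real.sqrt N ≤ c1 ^ p * δ ^ (p - 1) * (m:ℝ) ^ (1 - 1 / p) := by
          rw [Real.sqrt_le_left (by positivity), mul_pow]
          have e4 : (((m:ℝ) ^ (1 - 1 / p)) ^ 2) = (m:ℝ) ^ ((1 - 1 / p) * 2) := by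
            rw [← Real.rpow_natCast, ← Real.rpow_mul hm0.le]
            norm_num
          rw [e4]
          have e5 : (N:ℝ) = 2 * K := by rw [hN]; push_cast; ring
          rw [e5]
          nlinarith
        have e6 : δ ^ p = δ * δ ^ (p - 1) := by
          rw [mul_comm, ← Real.rpow_add_one hδ0.ne']; ring_nf
        have e7 : (m:ℝ) ^ (1 / p) * (m:ℝ) ^ (1 - 1 / p) = m := by
          rw [← Real.rpow_add hm0]
          have : 1 / p + (1 - 1 / p) = 1 := by ring
          rw [this, Real.rpow_one]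
        calc δ * (m:ℝ) ^ (1 / p) * Real.sqrt N ≤
            δ * (m:ℝ) ^ (1 / p) * (c1 ^ p * δ ^ (p - 1) * (m:ℝ) ^ (1 - 1 / p)) :=
              mul_le_mul_of_nonneg_left e3 (by positivity)
          _ = c1 ^ p * (δ * δ ^ (p - 1)) * ((m:ℝ) ^ (1 / p) * (m:ℝ) ^ (1 - 1 / p)) := by ring
          _ = _ := by rw [e7, ← e6]
      obtain ⟨i, hi⟩ := (hkey m N ε hε0 S (by omega) (G S) (hG S)).2 hm hN1 hεpos hcond
      exact ⟨i, fun _ => hi⟩
    · exact ⟨Sum.inl (), fun h => absurd h hS⟩
  choose pk hpk using hex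
  -- the sequence of picked sets
  obtain ⟨S, hS0, hS1⟩ : ∃ S : ℕ → Finset IL, S 0 = ∅ ∧ ∀ k, S (k + 1) = insert (pk (S k)) (S k) :=
    ⟨fun k => Nat.rec ∅ (fun _ s => insert (pk s) s) k, rfl, fun _ => rfl⟩
  have hScard : ∀ k, (S k).card ≤ k := by
    intro k
    induction k with
    | zero => rw [hS0]; simp
    | succ k ih =>
      rw [hS1]
      exact (card_insert_le _ _).trans (by omega)
  set φ : ℕ → Lp ℝ P mu := fun k => bE P (Sum.inl (pk (S k))) with hφ
  have himg : ∀ k, φ '' Set.Iio k =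
      (fun i => bE P (Sum.inl i)) '' (↑(S k) : Set IL) := by
    intro k
    induction k with
    | zero => rw [hS0]; simp
    | succ k ih =>
      rw [hS1, coe_insert, Set.image_insert_eq, ← ih]
      have : Set.Iio (k + 1) = insert k (Set.Iio k) := by
        ext x; simp only [Set.mem_Iio, Set.mem_insert_iff]; omega
      rw [this, Set.image_insert_eq]
  have hlarge : ∀ k ≤ K, (m:ℝ) ^ (1 / p) ≤ ‖f₀ - G (S k)‖ := by
    intro k hk
    have := hScard k
    exact (hkey m N ε hε0 (S k) (by omega) (G (S k)) (hG (S k))).1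
  refine ⟨f₀, φ, fun k => f₀ - G (S k), ?_, fun j hj => ?_, fun k hk => ?_⟩
  · have h1 := (hG (S 0)).1
    rw [hS0] at h1
    unfold WW at h1
    simp only [coe_empty, Set.image_empty, Submodule.span_empty, Submodule.mem_bot] at h1
    change f₀ - G (S 0) = f₀
    rw [hS0, h1, sub_zero]
  · have hne : f₀ - G (S j) ≠ 0 := by
      intro h
      have h1 := hlarge j hj.le
      rw [h, norm_zero] at h1
      have : 0 < (m:ℝ) ^ (1 / p) := by positivity
      linarith
    refine ⟨fun h => absurd h hne, fun _ => ⟨⟨⟨_, rfl⟩, ?_⟩, G (S (j + 1)), ?_, rfl⟩⟩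
    · rintro g ⟨i, rfl⟩
      exact hpk (S j) (lt_of_le_of_lt (hScard j) hj) i
    · rw [himg]
      exact hG (S (j + 1))
  · -- the error
    have h1 : sigma (Set.range (bE P)) m f₀ ≤ nm p (H0 p N ε) := by
      set TI : Finset (IL ⊕ IR) := (WS m m).image (fun l => Sum.inr (Sum.inr l)) with hTI
      have hinj : Function.Injective (fun l : List Bool => (Sum.inr (Sum.inr l) : IL ⊕ IR)) := by
        intro a b h
        simpa using h
      have hcard : TI.card = m := by
        rw [hTI, card_image_of_injective _ hinj, WS_card le_rfl]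
      have h2 := sigma_le_finset (bE P) f₀ TI (fun _ => 1)
      rw [hcard] at h2
      refine h2.trans ?_
      rw [hTI, sum_image (fun a _ b _ h => hinj h)]
      obtain ⟨n1, hn1, _⟩ := dep_H0 p N ε
      have h3 := VA_sub_right (P := P) hn1 (U := WS m m) WS_length (fun _ => 1)
        (le_refl (WS m m)) (fun _ => 1)
      have h4 : f₀ - ∑ l ∈ WS m m, (1:ℝ) • bE P (Sum.inr (Sum.inr l)) = _ := h3
      rw [h4]
      apply (Real.rpow_le_rpow_iff (norm_nonneg _) (nm_nonneg _ _) hp0).mp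
      rw [hp, norm_VA hP hn1 WS_length]
      have h5 : ∑ l ∈ WS m m, |(1:ℝ) - if l ∈ WS m m then 1 else 0| ^ P.toReal = 0 := by
        apply sum_eq_zero
        intro l hl
        rw [if_pos hl, sub_self, abs_zero, Real.zero_rpow (by linarith)]
      rw [h5, add_zero]
    have h2 := hup N ε hε0
    have h3 : ε * Real.sqrt N ≤ δ * (m:ℝ) ^ (1 / p) := by
      rw [hε]
      rcases (Real.sqrt_nonneg (N:ℝ)).eq_or_lt with h0 | h0
      · rw [← h0, mul_zero]; positivity
      · rw [div_mul_cancel₀ _ h0.ne']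
    have h4 := hlarge k hk
    have h5 : C3 * (C1 * (δ * (m:ℝ) ^ (1 / p))) = (m:ℝ) ^ (1 / p) / 2 := by
      rw [hδ]; field_simp
    have h6 : 0 < (m:ℝ) ^ (1 / p) := by positivity
    calc C3 * sigma (Set.range (bE P)) m f₀ ≤ C3 * (C1 * (δ * (m:ℝ) ^ (1 / p))) := by
          apply mul_le_mul_of_nonneg_left _ hC3.le
          exact h1.trans (h2.trans (mul_le_mul_of_nonneg_left h3 hC1.le))
      _ < (m:ℝ) ^ (1 / p) := by rw [h5]; linarith
      _ ≤ _ := h4

end Pool.Agent.H66R3.PG
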