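import Mathlib

/-! From uniformly bounded projections to an unconditional Schauder basis. -/

set_option autoImplicit false

open Filter Topology

namespace Pool.Agent.H66R3.PG

variable {V : Type} [NormedAddCommGroup V] [NormedSpace ℝ V]

theorem mk_basis {β : Type} (ψ : β → V) (hne : ∀ i, ψ i ≠ 0)
    (hd : (Submodule.span ℝ (Set.range ψ)).topologicalClosure = ⊤) {K : ℝ} (hK0 : 0 ≤ K)
    (hK : ∀ (S T : Finset β) (a : β → ℝ), T ⊆ S → ‖∑ i ∈ T, a i • ψ i‖ ≤
      K * ‖∑ i ∈ S, a i • ψ i‖) :
    ∃ b : UnconditionalSchauderBasis β ℝ V, ∀ i, b i = ψ i := by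
  classical
  have hli : LinearIndependent ℝ ψ := by
    rw [linearIndependent_iff']
    intro S g hg i hi
    have h1 := hK S {i} g (Finset.singleton_subset_iff.mpr hi)
    rw [hg, norm_zero, mul_zero, Finset.sum_singleton, norm_smul] at h1
    have h2 : 0 < ‖ψ i‖ := norm_pos_iff.mpr (hne i)
    have h3 : ‖g i‖ * ‖ψ i‖ = 0 := le_antisymm h1 (by positivity)
    rcases mul_eq_zero.mp h3 with h4 | h4
    · exact norm_eq_zero.mp h4
    · exact absurd h4 h2.ne'
  set B := Module.Basis.span hli with hB
  have hBv : ∀ i, ((B i : Submodule.span ℝ (Set.range ψ)) : V) = ψ i := fun i => by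
    rw [hB]; exact congrArg Subtype.val (Module.Basis.span_apply hli i)
  have hrep : ∀ v : Submodule.span ℝ (Set.range ψ), (v : V) =
      ∑ i ∈ (B.repr v).support, (B.repr v i) • ψ i := by
    intro v
    have h1 := B.linearCombination_repr v
    have h2 := congrArg Subtype.val h1
    rw [← h2, Finsupp.linearCombination_apply, Finsupp.sum]
    rw [Submodule.coe_sum]
    apply Finset.sum_congr rfl
    intro i _
    rw [Submodule.coe_smul, hBv]
  -- projections on the span
  have hproj : ∀ (v : Submodule.span ℝ (Set.range ψ)) (S : Finset β),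
      ‖∑ i ∈ S, (B.repr v i) • ψ i‖ ≤ K * ‖v‖ := by
    intro v S
    have h1 : ∑ i ∈ S, (B.repr v i) • ψ i =
        ∑ i ∈ S ∩ (B.repr v).support, (B.repr v i) • ψ i := by
      symm
      apply Finset.sum_subset Finset.inter_subset_left
      intro i hi hi'
      have : B.repr v i = 0 := by
        by_contra hcon
        exact hi' (Finset.mem_inter.mpr ⟨hi, Finsupp.mem_support_iff.mpr hcon⟩)
      rw [this, zero_smul]
    rw [h1]
    refine (hK _ _ _ Finset.inter_subset_right).trans ?_
    rw [← hrep v]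
    rfl
  have hcoord : ∀ i, ∃ f : StrongDual ℝ V, ∀ v : Submodule.span ℝ (Set.range ψ),
      f v = B.repr v i := by
    intro i
    have h2 : 0 < ‖ψ i‖ := norm_pos_iff.mpr (hne i)
    let L : StrongDual ℝ (Submodule.span ℝ (Set.range ψ)) :=
      LinearMap.mkContinuous (B.coord i) (K / ‖ψ i‖) (fun v => by
        have h3 := hproj v {i}
        rw [Finset.sum_singleton, norm_smul] at h3
        rw [Module.Basis.coord_apply, div_mul_eq_mul_div, le_div_iff₀ h2]
        exact h3)
    obtain ⟨g, hg, _⟩ := exists_extension_norm_eq (Submodule.span ℝ (Set.range ψ)) L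
    exact ⟨g, fun v => hg v⟩
  choose coord hcoord using hcoord
  have hspan : ∀ i, ψ i ∈ Submodule.span ℝ (Set.range ψ) := fun i =>
    Submodule.subset_span ⟨i, rfl⟩
  have hdense : Dense ((Submodule.span ℝ (Set.range ψ) : Submodule ℝ V) : Set V) := by
    rw [dense_iff_closure_eq]
    have := congrArg (fun W : Submodule ℝ V => (W : Set V)) hd
    simpa using this
  have hbound : ∀ (S : Finset β) (x : V), ‖∑ i ∈ S, coord i x • ψ i‖ ≤ K * ‖x‖ := by
    intro S
    have hc : IsClosed {x : V | ‖∑ i ∈ S, coord i x • ψ i‖ ≤ K * ‖x‖} := by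
      apply isClosed_le
      · fun_prop
      · fun_prop
    have hsub : ((Submodule.span ℝ (Set.range ψ) : Submodule ℝ V) : Set V) ⊆
        {x : V | ‖∑ i ∈ S, coord i x • ψ i‖ ≤ K * ‖x‖} := by
      intro x hx
      have h1 := hproj ⟨x, hx⟩ S
      simp only [← hcoord] at h1
      exact h1
    intro x
    have h2 : closure ((Submodule.span ℝ (Set.range ψ) : Submodule ℝ V) : Set V) ⊆
        {x : V | ‖∑ i ∈ S, coord i x • ψ i‖ ≤ K * ‖x‖} := closure_minimal hsub hc
    rw [hdense.closure_eq] at h2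
    exact h2 (Set.mem_univ x)
  refine ⟨⟨ψ, coord, fun i j => ?_, fun x => ?_⟩, fun i => rfl⟩
  · have h1 := hcoord i ⟨ψ j, hspan j⟩
    have h2 : (⟨ψ j, hspan j⟩ : Submodule.span ℝ (Set.range ψ)) = B j := by
      apply Subtype.ext
      exact (hBv j).symm
    rw [h2, Module.Basis.repr_self] at h1
    change coord i (B j : V) = _ at h1
    rw [hBv] at h1
    rw [h1, Finsupp.single_apply, Pi.single_apply]
    by_cases h : j = i
    · rw [if_pos h, if_pos h.symm]
    · rw [if_neg h, if_neg (Ne.symm h)]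
  · have key : Tendsto (fun S : Finset β => ∑ i ∈ S, coord i x • ψ i) atTop (𝓝 x) := by
      rw [Metric.tendsto_atTop]
      intro ε hε
      obtain ⟨y, hy, hxy⟩ := Metric.dense_iff.mp hdense x (ε / (K + 1)) (by positivity)
      rw [Metric.mem_ball, dist_eq_norm] at hy
      refine ⟨(B.repr ⟨y, hxy⟩).support, fun S hS => ?_⟩
      have h1 : ∑ i ∈ S, coord i y • ψ i = y := by
        have h2 := hrep ⟨y, hxy⟩
        simp only at h2
        have h3 : ∑ i ∈ S, coord i y • ψ i = ∑ i ∈ S, (B.repr ⟨y, hxy⟩ i) • ψ i := by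
          apply Finset.sum_congr rfl
          intro i _
          rw [← hcoord i ⟨y, hxy⟩]
        rw [h3]
        conv_rhs => rw [h2]
        symm
        apply Finset.sum_subset hS
        intro i _ hi
        rw [Finsupp.notMem_support_iff.mp hi, zero_smul]
      have h2 : ∑ i ∈ S, coord i x • ψ i - x =
          ∑ i ∈ S, coord i (x - y) • ψ i - (x - y) := by
        simp only [map_sub, sub_smul, Finset.sum_sub_distrib, h1]
        abel
      rw [dist_eq_norm, h2]
      have h3 := hbound S (x - y)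
      have h4 : ‖x - y‖ < ε / (K + 1) := by rw [norm_sub_rev]; exact hy
      rw [lt_div_iff₀ (by positivity)] at h4
      calc _ ≤ ‖∑ i ∈ S, coord i (x - y) • ψ i‖ + ‖x - y‖ := norm_sub_le _ _
        _ ≤ K * ‖x - y‖ + ‖x - y‖ := by linarith
        _ < ε := by linarith
    simpa [HasSum] using key

/-- The projections of an unconditional basis of a Banach space are uniformly bounded. -/
theorem basis_supp [CompleteSpace V] (b : UnconditionalSchauderBasis ℕ ℝ V) :
    ∃ K : ℝ, 1 ≤ K ∧ ∀ (S T : Finset ℕ) (a : ℕ → ℝ), T ⊆ S →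
      ‖∑ i ∈ T, a i • b i‖ ≤ K * ‖∑ i ∈ S, a i • b i‖ := by
  classical
  obtain ⟨C, hC⟩ := b.exists_norm_proj_le
  refine ⟨max C 1, le_max_right _ _, fun S T a hTS => ?_⟩
  have h1 : ∑ i ∈ T, a i • b i = b.proj T (∑ i ∈ S, a i • b i) := by
    rw [map_sum]
    have h2 : ∀ i ∈ S, b.proj T (a i • b i) = if i ∈ T then a i • b i else 0 := by
      intro i _
      rw [map_smul]
      have := b.proj_apply_basis_mem T i
      rw [this]
      split_ifs <;> simp
    rw [Finset.sum_congr rfl h2, ← Finset.sum_filter]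
    congr 1
    ext i
    simp only [Finset.mem_filter]
    exact ⟨fun h => ⟨hTS h, h⟩, fun h => h.2⟩
  rw [h1]
  refine (ContinuousLinearMap.le_opNorm _ _).trans ?_
  exact mul_le_mul_of_nonneg_right ((hC T).trans (le_max_left _ _)) (norm_nonneg _)

end Pool.Agent.H66R3.PG
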